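import Pool.Agent.K4H18.EK.A22
import Pool.Agent.K4H18.CH.H2

set_option autoImplicit false

/-! The pure sieve for the values `H(p)`, with `p` (an integer or a prime) in a residue class. -/

namespace Pool.Agent.K4H18.GV

open Finset Polynomial Pool.Agent.H373R2.T7
open Pool.Agent.H474R2.PG (rho)
open Pool.Agent.K4H18.EK (crt_sum)

/-- the arguments: all natural numbers for `e = false`, the primes for `e = true` -/
def ar (e : Bool) (p : ℕ) : Prop := e = true → p.Prime

instance (e : Bool) : DecidablePred (ar e) := fun p => by unfold ar; infer_instance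

/-- the number of the arguments up to `n` -/
noncomputable def PI (e : Bool) (n : ℕ) : ℝ := if e = true then H343E.pi1 n else n

/-- the number of the classes modulo `d` -/
def tot (e : Bool) (d : ℕ) : ℕ := if e = true then Nat.totient d else d

/-- the number of the arguments `p ≤ n`, `p ≡ a (mod q)` -/
def AP (e : Bool) (n q a : ℕ) : ℕ := ((Icc 1 n).filter (fun p => ar e p ∧ p ≡ a [MOD q])).card

/-- local density of the arguments `p` with `q ∣ H(p)` -/
noncomputable def gd (e : Bool) (H : ℤ[X]) (q : ℕ) : ℝ :=
  (((range q).filter (fun b : ℕ => (e = true → b ≠ 0) ∧ (q : ℤ) ∣ H.eval (b : ℤ))).card : ℝ) / ((q : ℝ) - e.toNat)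

/-- the number of the arguments `p ≤ n`, `p ≡ c (mod d)`, such that no element of `T` divides `H(p)` -/
noncomputable def cn (e : Bool) (H : ℤ[X]) (n d c : ℕ) (T : Finset ℕ) : ℝ :=
  (((Icc 1 n).filter (fun p : ℕ => (ar e p ∧ p ≡ c [MOD d]) ∧ ∀ q ∈ T, ¬ (q : ℤ) ∣ H.eval (p : ℤ))).card : ℝ)

/-- a majorant for the arguments up to `n` in progressions, up to the level `D` -/
def Maj (e : Bool) (n D : ℕ) (M : ℕ → ℝ) : Prop := (∀ q, 0 ≤ M q) ∧
  ∀ q a : ℕ, 1 ≤ q → (e = true → a.Coprime q) → q ≤ D → |(AP e n q a : ℝ) - PI e n / (tot e q : ℝ)| ≤ M q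

lemma PI_nonneg (e : Bool) (n : ℕ) : 0 ≤ PI e n := by
  unfold PI
  split_ifs
  · exact Pool.Agent.K4H18.EK.pi1_nonneg n
  · positivity

lemma sub_pos' (e : Bool) {q : ℕ} (hq : q.Prime) : (1 : ℝ) ≤ (q : ℝ) - e.toNat := by
  have h2 : (2 : ℝ) ≤ q := by exact_mod_cast hq.two_le
  have h1 : (e.toNat : ℝ) ≤ 1 := by exact_mod_cast Bool.toNat_le e
  linarith

lemma sub_cast (e : Bool) {q : ℕ} (hq : q.Prime) : ((q - e.toNat : ℕ) : ℝ) = (q : ℝ) - e.toNat := by
  rw [Nat.cast_sub]
  have := Bool.toNat_le e
  have := hq.two_le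
  omega

lemma gd_nonneg (e : Bool) (H : ℤ[X]) {q : ℕ} (hq : q.Prime) : 0 ≤ gd e H q := by
  unfold gd
  have := sub_pos' e hq
  apply div_nonneg (Nat.cast_nonneg _); linarith

lemma card_cl (e : Bool) {q : ℕ} (hq : q.Prime) :
    ((range q).filter (fun b : ℕ => e = true → b ≠ 0)).card = q - e.toNat := by
  cases e
  · simp
  · have : (range q).filter (fun b : ℕ => true = true → b ≠ 0) = (range q).erase 0 := by
      ext b
      simp only [mem_filter, mem_erase, forall_const]
      tauto
    rw [this, card_erase_of_mem (mem_range.2 hq.pos), card_range]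
    rfl

lemma gd_le (e : Bool) (H : ℤ[X]) {q : ℕ} (hq : q.Prime) : gd e H q ≤ 1 := by
  unfold gd
  have h1 := sub_pos' e hq
  rw [div_le_one (by linarith), ← sub_cast e hq, ← card_cl e hq]
  exact_mod_cast card_le_card (fun b hb => by
    rw [mem_filter] at hb ⊢
    exact ⟨hb.1, hb.2.1⟩)

lemma gd_le' (e : Bool) (H : ℤ[X]) {q : ℕ} (hq : q.Prime) (K0 : ℕ) (hK : rho H q ≤ K0) :
    gd e H q ≤ (2 * K0 : ℕ) * (1 / (q : ℝ)) := by
  unfold gd
  have h1 := sub_pos' e hq
  have h2 : (2 : ℝ) ≤ q := by exact_mod_cast hq.two_le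
  have h3 : (e.toNat : ℝ) ≤ 1 := by exact_mod_cast Bool.toNat_le e
  have h4 : (((range q).filter (fun b : ℕ => (e = true → b ≠ 0) ∧ (q : ℤ) ∣ H.eval (b : ℤ))).card : ℝ) ≤ K0 := by
    refine le_trans ?_ (by exact_mod_cast hK : ((rho H q : ℕ) : ℝ) ≤ K0)
    unfold rho
    exact_mod_cast card_le_card (fun b hb => by
      rw [mem_filter] at hb ⊢
      exact ⟨hb.1, hb.2.2⟩)
  rw [mul_one_div, div_le_div_iff₀ (by linarith) (by linarith)]
  push_cast
  have hK0 : (0 : ℝ) ≤ K0 := Nat.cast_nonneg _
  calc (((range q).filter (fun b : ℕ => (e = true → b ≠ 0) ∧ (q : ℤ) ∣ H.eval (b : ℤ))).card : ℝ) * q ≤ K0 * q := by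
        apply mul_le_mul_of_nonneg_right h4; linarith
    _ ≤ K0 * (2 * ((q : ℝ) - e.toNat)) := mul_le_mul_of_nonneg_left (by linarith) hK0
    _ = _ := by ring

lemma tot_pos (e : Bool) {d : ℕ} (hd : 1 ≤ d) : (0 : ℝ) < tot e d := by
  unfold tot
  split_ifs
  · exact_mod_cast Nat.totient_pos.2 hd
  · exact_mod_cast hd

lemma tot_prod (e : Bool) (S : Finset ℕ) (hS : ∀ q ∈ S, q.Prime) :
    (tot e (∏ q ∈ S, q) : ℝ) = ∏ q ∈ S, ((q : ℝ) - e.toNat) := by
  cases e
  · unfold tot
    simp
  · unfold tot
    rw [if_pos rfl, totient_prod S hS]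
    push_cast
    apply prod_congr rfl
    intro q hq
    rw [Nat.cast_sub (hS q hq).one_le]
    simp

lemma tot_mul (e : Bool) {a b : ℕ} (h : a.Coprime b) : (tot e (a * b) : ℝ) = tot e a * tot e b := by
  unfold tot
  split_ifs
  · rw [Nat.totient_mul h]
    push_cast
    rfl
  · push_cast
    rfl

lemma dvd_mod (H : ℤ[X]) (p q : ℕ) : (q : ℤ) ∣ H.eval ((p % q : ℕ) : ℤ) ↔ (q : ℤ) ∣ H.eval (p : ℤ) :=
  Pool.Agent.K4H18.EK.dvd_eval_mod H p q

theorem sieve1 (e : Bool) (H : ℤ[X]) (K0 : ℕ) (n z r d c D : ℕ) (hd : 1 ≤ d) (hc : e = true → c.Coprime d)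
    (T : Finset ℕ) (hT : T ⊆ pz z) (hK : ∀ q ∈ pz z, rho H q ≤ K0)
    (hTd : ∀ q ∈ T, ¬ q ∣ d) (hD : d * (z + 1) ^ r ≤ D) (M : ℕ → ℝ) (hM : Maj e n D M) :
    |cn e H n d c T - (PI e n / (tot e d : ℝ)) * ∏ q ∈ T, (1 - gd e H q)| ≤
      ∑ j ∈ range (r + 1), ∑ S ∈ T.powersetCard j, (K0 : ℝ) ^ S.card * (M (d * ∏ q ∈ S, q) + 1) +
      2 * (PI e n / (tot e d : ℝ)) * es (gd e H) T r := by
  classical
  have hTp : ∀ q ∈ T, q.Prime := fun q hq => (mem_pz.1 (hT hq)).2
  have key := sieve_gen' ((Icc 1 n).filter (fun p => ar e p ∧ p ≡ c [MOD d])) (fun _ => (1 : ℝ))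
    (fun _ _ => zero_le_one) (fun q p => (q : ℤ) ∣ H.eval (p : ℤ)) T (gd e H)
    (fun q hq => ⟨gd_nonneg e H (hTp q hq), gd_le e H (hTp q hq)⟩) (PI e n / (tot e d : ℝ))
    (div_nonneg (PI_nonneg e n) (Nat.cast_nonneg _)) (fun S => (K0 : ℝ) ^ S.card * (M (d * ∏ q ∈ S, q) + 1)) r (by
      intro S hS hr
      have hSp : ∀ q ∈ S, q.Prime := fun q hq => hTp q (hS hq)
      rw [sum_const, nsmul_eq_mul, mul_one, filter_filter]
      set E := ∏ q ∈ S, q with hE
      have hE1 : 1 ≤ E := Nat.pos_of_ne_zero (prod_ne_zero_iff.2 fun q hq => (hSp q hq).ne_zero)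
      have hqE : ∀ q ∈ S, q ∣ E := fun q hq => dvd_prod_of_mem _ hq
      have hde : d.Coprime E := by
        refine Nat.Coprime.prod_right fun q hq => ?_
        exact Nat.Coprime.symm ((Nat.Prime.coprime_iff_not_dvd (hSp q hq)).2 (hTd q (hS hq)))
      -- the two indicator functions
      set g : ℕ → ℕ → ℝ := fun q b => if (q : ℤ) ∣ H.eval (b : ℤ) then 1 else 0 with hg
      set f : ℕ → ℕ → ℝ := fun q b => if (e = true → b ≠ 0) ∧ (q : ℤ) ∣ H.eval (b : ℤ) then 1 else 0 with hf
      set Nk : ℕ → ℝ := fun k => (((Icc 1 n).filter (fun p => (ar e p ∧ p ≡ c [MOD d]) ∧ p % E = k)).card : ℝ) with hNk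
      have e1 : (((Icc 1 n).filter (fun p : ℕ => (ar e p ∧ p ≡ c [MOD d]) ∧ ∀ q ∈ S, (q : ℤ) ∣ H.eval (p : ℤ))).card : ℝ) =
          ∑ k ∈ range E, (∏ q ∈ S, g q (k % q)) * Nk k := by
        rw [card_eq_sum_card_fiberwise (t := range E) (f := fun p => p % E)
          (fun p _ => mem_coe.2 (mem_range.2 (Nat.mod_lt _ hE1)))]
        push_cast
        apply sum_congr rfl
        intro k hk
        rw [mem_range] at hk
        rw [filter_filter]
        by_cases hall : ∀ q ∈ S, (q : ℤ) ∣ H.eval (k : ℤ)
        · have e2 : ∏ q ∈ S, g q (k % q) = 1 := by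
            apply prod_eq_one
            intro q hq
            rw [hg]
            dsimp only
            rw [if_pos ((dvd_mod H k q).2 (hall q hq))]
          rw [e2, one_mul, hNk]
          dsimp only
          norm_cast
          congr 1
          apply filter_congr
          intro p _
          constructor
          · rintro ⟨⟨a, _⟩, b⟩
            exact ⟨a, b⟩
          · rintro ⟨a, b⟩
            refine ⟨⟨a, fun q hq => ?_⟩, b⟩
            rw [← dvd_mod H p q, ← Nat.mod_mod_of_dvd p (hqE q hq), b, dvd_mod]
            exact hall q hq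
        · push Not at hall
          obtain ⟨q, hq, hqn⟩ := hall
          have e2 : ∏ q ∈ S, g q (k % q) = 0 := by
            apply prod_eq_zero hq
            rw [hg]
            dsimp only
            rw [if_neg]
            rw [dvd_mod]
            exact hqn
          rw [e2, zero_mul, Nat.cast_eq_zero, card_eq_zero, filter_eq_empty_iff]
          rintro p _ ⟨⟨_, b⟩, hk'⟩
          apply hqn
          have := b q hq
          rwa [← dvd_mod H p q, ← Nat.mod_mod_of_dvd p (hqE q hq), hk', dvd_mod] at this
      have e2 : PI e n / (tot e d : ℝ) * ∏ q ∈ S, gd e H q = ∑ k ∈ range E, (∏ q ∈ S, f q (k % q)) * (PI e n / (tot e (d * E) : ℝ)) := by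
        rw [← sum_mul, crt_sum f S hSp, tot_mul e hde]
        have h1 : ∏ q ∈ S, gd e H q = (∏ q ∈ S, ∑ b ∈ range q, f q b) / (tot e E : ℝ) := by
          rw [hE, tot_prod e S hSp, ← prod_div_distrib]
          apply prod_congr rfl
          intro q hq
          unfold gd
          rw [hf]
          dsimp only
          rw [sum_boole]
        rw [h1]
        have := tot_pos e hd
        have := tot_pos e hE1
        field_simp
      rw [e1, e2, ← sum_sub_distrib]
      have hME : 0 ≤ M (d * E) := hM.1 _
      have hterm : ∀ k ∈ range E, |(∏ q ∈ S, g q (k % q)) * Nk k - (∏ q ∈ S, f q (k % q)) * (PI e n / (tot e (d * E) : ℝ))| ≤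
          (∏ q ∈ S, g q (k % q)) * (M (d * E) + 1) := by
        intro k hk
        rw [mem_range] at hk
        by_cases hall : ∀ q ∈ S, (q : ℤ) ∣ H.eval (k : ℤ)
        · have g1 : ∏ q ∈ S, g q (k % q) = 1 := by
            apply prod_eq_one
            intro q hq
            rw [hg]
            dsimp only
            rw [if_pos ((dvd_mod H k q).2 (hall q hq))]
          rw [g1, one_mul, one_mul]
          by_cases hnz : ∀ q ∈ S, e = true → k % q ≠ 0
          · have f1 : ∏ q ∈ S, f q (k % q) = 1 := by
              apply prod_eq_one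
              intro q hq
              rw [hf]
              dsimp only
              rw [if_pos ⟨hnz q hq, (dvd_mod H k q).2 (hall q hq)⟩]
            rw [f1, one_mul]
            obtain ⟨k', hk1, hk2⟩ := Nat.chineseRemainder hde c k
            have hcop : e = true → k'.Coprime (d * E) := by
              intro he
              apply Nat.Coprime.mul_right
              · have := hk1.gcd_eq
                unfold Nat.Coprime
                rw [this]
                exact hc he
              · refine Nat.Coprime.prod_right fun q hq => ?_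
                apply Nat.Coprime.symm
                rw [Nat.Prime.coprime_iff_not_dvd (hSp q hq)]
                intro hdv
                have h3 : k' ≡ k [MOD q] := hk2.of_dvd (hqE q hq)
                exact hnz q hq he (by
                  have h4 := (h3.symm.trans ((Nat.modEq_zero_iff_dvd).2 hdv))
                  exact h4)
            have hele : E ≤ (z + 1) ^ r := prod_le_pow S z r (hS.trans hT) hr
            have h1 := hM.2 (d * E) k' (Nat.mul_pos hd hE1) hcop ((Nat.mul_le_mul_left d hele).trans hD)
            have h2 : Nk k = (AP e n (d * E) k' : ℝ) := by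
              rw [hNk]
              unfold AP
              dsimp only
              norm_cast
              congr 1
              apply filter_congr
              intro p _
              rw [← Nat.modEq_and_modEq_iff_modEq_mul hde]
              have h3 : p % E = k ↔ p ≡ k [MOD E] := by
                unfold Nat.ModEq
                rw [Nat.mod_eq_of_lt hk]
              rw [h3]
              constructor
              · rintro ⟨⟨a, b⟩, c'⟩
                exact ⟨a, b.trans hk1.symm, c'.trans hk2.symm⟩
              · rintro ⟨a, b, c'⟩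
                exact ⟨⟨a, b.trans hk1⟩, c'.trans hk2⟩
            rw [h2]
            linarith
          · push Not at hnz
            obtain ⟨q, hq, he, hkq⟩ := hnz
            have f1 : ∏ q ∈ S, f q (k % q) = 0 := by
              apply prod_eq_zero hq
              rw [hf]
              dsimp only
              rw [if_neg]
              rintro ⟨h3, _⟩
              exact h3 he hkq
            rw [f1, zero_mul, sub_zero]
            have h1 : ((Icc 1 n).filter (fun p => (ar e p ∧ p ≡ c [MOD d]) ∧ p % E = k)).card ≤ 1 := by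
              rw [card_le_one]
              have hmem : ∀ a ∈ (Icc 1 n).filter (fun p => (ar e p ∧ p ≡ c [MOD d]) ∧ p % E = k), a = q := by
                intro a ha
                rw [mem_filter, mem_Icc] at ha
                have h2 : q ∣ a := by
                  apply Nat.dvd_of_mod_eq_zero
                  rw [← Nat.mod_mod_of_dvd a (hqE q hq), ha.2.2]
                  exact hkq
                exact ((Nat.prime_dvd_prime_iff_eq (hSp q hq) (ha.2.1.1 he)).1 h2).symm
              intro a ha b hb
              rw [hmem a ha, hmem b hb]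
            rw [hNk]
            dsimp only
            rw [abs_of_nonneg (Nat.cast_nonneg _)]
            have h4 : (((Icc 1 n).filter (fun p => (ar e p ∧ p ≡ c [MOD d]) ∧ p % E = k)).card : ℝ) ≤ 1 := by exact_mod_cast h1
            linarith
        · push Not at hall
          obtain ⟨q, hq, hqn⟩ := hall
          have g1 : ∏ q ∈ S, g q (k % q) = 0 := by
            apply prod_eq_zero hq
            rw [hg]
            dsimp only
            rw [if_neg]
            rw [dvd_mod]
            exact hqn
          have f1 : ∏ q ∈ S, f q (k % q) = 0 := by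
            apply prod_eq_zero hq
            rw [hf]
            dsimp only
            rw [if_neg]
            rintro ⟨_, h3⟩
            rw [dvd_mod] at h3
            exact hqn h3
          rw [g1, f1, zero_mul, zero_mul, zero_mul, sub_zero, abs_zero]
      refine (abs_sum_le_sum_abs _ _).trans ((sum_le_sum hterm).trans ?_)
      rw [← sum_mul, crt_sum g S hSp]
      apply mul_le_mul_of_nonneg_right _ (by linarith)
      rw [← prod_const]
      apply Finset.prod_le_prod
      · intro q _
        apply sum_nonneg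
        intro b _
        rw [hg]
        dsimp only
        split_ifs <;> norm_num
      · intro q hq
        rw [hg]
        dsimp only
        rw [sum_boole]
        exact_mod_cast hK q (hT (hS hq)))
  refine le_trans (le_of_eq ?_) key
  congr 1
  unfold cn
  rw [sum_const, nsmul_eq_mul, mul_one, filter_filter]

end Pool.Agent.K4H18.GV
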