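import Pool.Agent.K4H18.GV.G9

set_option autoImplicit false

/-! Weighted sums over the arguments `n` with `N - G(n)` prime, and their model. -/

namespace Pool.Agent.K4H18.GV

open Finset Polynomial
open Pool.Agent.H373R2.T7 (pz mem_pz ev_L' Vz Vz_pos Vz_le_one lamP lamzI lamz lamP_nonneg lamzI_nonneg markov)
open Pool.Agent.H373R2.T7.TB (smC smC_sum smC_nonneg)
open Pool.Agent.H474R2.PG (rho PR Sg)

/-- the polynomial `N - G` -/
noncomputable def HN (G : ℤ[X]) (N : ℕ) : ℤ[X] := C (N : ℤ) - G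

lemma HN_eval (G : ℤ[X]) (N : ℕ) (n : ℤ) : (HN G N).eval n = (N : ℤ) - G.eval n := by
  unfold HN
  rw [eval_sub, eval_C]

/-- the arguments `n ≤ x` with `N - G(n)` prime -/
def Pn (e : Bool) (G : ℤ[X]) (N x : ℕ) : Finset ℕ :=
  (Icc 1 x).filter (fun n : ℕ => ar e n ∧ ((N : ℤ) - G.eval (n : ℤ)).toNat.Prime)

/-- `log (N - G(n))` -/
noncomputable def ell (G : ℤ[X]) (N n : ℕ) : ℝ := Real.log ((((N : ℤ) - G.eval (n : ℤ)).toNat : ℕ) : ℝ)

/-- the sum with the logarithmic weight -/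
noncomputable def LG (e : Bool) (G : ℤ[X]) (N x : ℕ) (w : ℕ → ℂ) : ℂ := ∑ n ∈ Pn e G N x, w n * ((ell G N n : ℝ) : ℂ)

/-- the difference of the primes and the model, with weights -/
noncomputable def DC (e : Bool) (G : ℤ[X]) (N x z : ℕ) (w : ℕ → ℂ) : ℂ :=
  ∑ n ∈ Icc 1 x, (if ar e n then w n else 0) *
    ((lamP ((N : ℤ) - G.eval (n : ℤ)) - lamzI z ((N : ℤ) - G.eval (n : ℤ)) : ℝ) : ℂ)

lemma sum_lamP (e : Bool) (G : ℤ[X]) (N x : ℕ) (w : ℕ → ℂ) :
    ∑ n ∈ Icc 1 x, (if ar e n then w n else 0) * ((lamP ((N : ℤ) - G.eval (n : ℤ)) : ℝ) : ℂ) = LG e G N x w := by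
  unfold LG Pn
  rw [sum_filter]
  apply sum_congr rfl
  intro n _
  unfold lamP ell
  by_cases h1 : ar e n
  · by_cases h2 : ((N : ℤ) - G.eval (n : ℤ)).toNat.Prime
    · rw [if_pos h1, if_pos h2, if_pos ⟨h1, h2⟩]
    · rw [if_pos h1, if_neg h2, if_neg (fun h => h2 h.2), Complex.ofReal_zero, mul_zero]
  · rw [if_neg h1, zero_mul, if_neg (fun h => h1 h.1)]

lemma sum_model (e : Bool) (G : ℤ[X]) (N x z X' n0 : ℕ) (hX : X' ≤ x) (hN : 1 ≤ n0)
    (hseg : ∀ n ∈ Icc n0 x, (1 ≤ (N : ℤ) - G.eval (n : ℤ) ↔ n ≤ X')) (w : ℕ → ℂ) (hw : ∀ n, ‖w n‖ ≤ 1) :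
    ‖∑ n ∈ Icc 1 x, (if ar e n then w n else 0) * ((lamzI z ((N : ℤ) - G.eval (n : ℤ)) : ℝ) : ℂ) -
      (((Vz z)⁻¹ : ℝ) : ℂ) * ∑ n ∈ Ps e (HN G N) X' z, w n‖ ≤ n0 * (Vz z)⁻¹ := by
  classical
  have hV := inv_pos.2 (Vz_pos z)
  set V := (Vz z)⁻¹ with hVd
  -- both sums over `Icc 1 x`
  have e2 : (V : ℂ) * ∑ n ∈ Ps e (HN G N) X' z, w n = ∑ n ∈ Icc 1 x, (if ar e n then w n else 0) *
      (((if n ≤ X' ∧ ∀ q ∈ pz z, ¬ (q : ℤ) ∣ (N : ℤ) - G.eval (n : ℤ) then V else 0 : ℝ)) : ℂ) := by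
    rw [mul_sum]
    unfold Ps
    rw [← sum_filter_add_sum_filter_not (Icc 1 x) (fun n => n ≤ X')]
    have h1 : (Icc 1 x).filter (fun n => n ≤ X') = Icc 1 X' := by
      ext n
      rw [mem_filter, mem_Icc, mem_Icc]
      omega
    have h2 : ∑ n ∈ (Icc 1 x).filter (fun n => ¬ n ≤ X'), (if ar e n then w n else 0) *
      (((if n ≤ X' ∧ ∀ q ∈ pz z, ¬ (q : ℤ) ∣ (N : ℤ) - G.eval (n : ℤ) then V else 0 : ℝ)) : ℂ) = 0 := by
      apply sum_eq_zero
      intro n hn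
      rw [mem_filter] at hn
      rw [if_neg (fun h : (n ≤ X' ∧ _) => hn.2 h.1), Complex.ofReal_zero, mul_zero]
    rw [h1, h2, add_zero, sum_filter]
    apply sum_congr rfl
    intro n hn
    rw [mem_Icc] at hn
    simp only [HN_eval]
    by_cases h3 : ar e n
    · by_cases h4 : ∀ q ∈ pz z, ¬ (q : ℤ) ∣ (N : ℤ) - G.eval (n : ℤ)
      · rw [if_pos ⟨h3, h4⟩, if_pos h3, if_pos ⟨hn.2, h4⟩, mul_comm]
      · rw [if_neg (fun h => h4 h.2), if_neg (fun h : (n ≤ X' ∧ _) => h4 h.2), Complex.ofReal_zero, mul_zero]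
    · rw [if_neg (fun h => h3 h.1), if_neg h3, zero_mul]
  rw [e2, ← sum_sub_distrib]
  have hterm : ∀ n ∈ Icc 1 x, ‖(if ar e n then w n else 0) * ((lamzI z ((N : ℤ) - G.eval (n : ℤ)) : ℝ) : ℂ) -
      (if ar e n then w n else 0) *
      (((if n ≤ X' ∧ ∀ q ∈ pz z, ¬ (q : ℤ) ∣ (N : ℤ) - G.eval (n : ℤ) then V else 0 : ℝ)) : ℂ)‖ ≤
      if n < n0 then V else 0 := by
    intro n hn
    rw [mem_Icc] at hn
    rw [← mul_sub, ← Complex.ofReal_sub, norm_mul, Complex.norm_real, Real.norm_eq_abs]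
    have hw1 : ‖(if ar e n then w n else 0)‖ ≤ 1 := by
      split_ifs
      · exact hw n
      · rw [norm_zero]; exact zero_le_one
    have hdv : ∀ q : ℕ, 1 ≤ (N : ℤ) - G.eval (n : ℤ) →
        (q ∣ ((N : ℤ) - G.eval (n : ℤ)).toNat ↔ (q : ℤ) ∣ (N : ℤ) - G.eval (n : ℤ)) := by
      intro q hpos
      rw [← Int.natCast_dvd_natCast, Int.toNat_of_nonneg (by omega)]
    have hlz : lamzI z ((N : ℤ) - G.eval (n : ℤ)) =
        if 1 ≤ (N : ℤ) - G.eval (n : ℤ) ∧ ∀ q ∈ pz z, ¬ (q : ℤ) ∣ (N : ℤ) - G.eval (n : ℤ) then V else 0 := by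
      unfold lamzI lamz
      by_cases h1 : 1 ≤ (N : ℤ) - G.eval (n : ℤ)
      · rw [if_pos h1]
        by_cases h2 : ∀ q ∈ pz z, ¬ (q : ℤ) ∣ (N : ℤ) - G.eval (n : ℤ)
        · have h3 : ∀ q ∈ pz z, ¬ q ∣ ((N : ℤ) - G.eval (n : ℤ)).toNat := by
            intro q hq
            rw [hdv q h1]
            exact h2 q hq
          rw [if_pos h3, if_pos ⟨h1, h2⟩]
        · have h3 : ¬ ∀ q ∈ pz z, ¬ q ∣ ((N : ℤ) - G.eval (n : ℤ)).toNat := by
            intro h3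
            apply h2
            intro q hq
            rw [← hdv q h1]
            exact h3 q hq
          rw [if_neg h3, if_neg (fun h => h2 h.2)]
      · rw [if_neg h1, if_neg (fun h => h1 h.1)]
    rw [hlz]
    have habs : |(if 1 ≤ (N : ℤ) - G.eval (n : ℤ) ∧ ∀ q ∈ pz z, ¬ (q : ℤ) ∣ (N : ℤ) - G.eval (n : ℤ) then V else 0) -
        (if n ≤ X' ∧ ∀ q ∈ pz z, ¬ (q : ℤ) ∣ (N : ℤ) - G.eval (n : ℤ) then V else 0)| ≤ if n < n0 then V else 0 := by
      by_cases hn0 : n < n0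
      · rw [if_pos hn0]
        have g1 : ∀ (Q : Prop) [Decidable Q], 0 ≤ (if Q then V else 0) ∧ (if Q then V else 0) ≤ V := by
          intro Q _
          split_ifs
          · exact ⟨hV.le, le_rfl⟩
          · exact ⟨le_rfl, hV.le⟩
        have g2 := g1 (1 ≤ (N : ℤ) - G.eval (n : ℤ) ∧ ∀ q ∈ pz z, ¬ (q : ℤ) ∣ (N : ℤ) - G.eval (n : ℤ))
        have g3 := g1 (n ≤ X' ∧ ∀ q ∈ pz z, ¬ (q : ℤ) ∣ (N : ℤ) - G.eval (n : ℤ))
        rw [abs_le]
        constructor <;> linarith [g2.1, g2.2, g3.1, g3.2]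
      · rw [if_neg hn0]
        have hAB := hseg n (mem_Icc.2 ⟨by omega, hn.2⟩)
        simp only [hAB]
        rw [sub_self, abs_zero]
    have hpos : 0 ≤ (if n < n0 then V else 0) := by split_ifs; exact hV.le; exact le_rfl
    calc _ ≤ 1 * (if n < n0 then V else 0) := mul_le_mul hw1 habs (abs_nonneg _) zero_le_one
      _ = _ := one_mul _
  refine (norm_sum_le_of_le _ hterm).trans ?_
  rw [← sum_filter, sum_const, nsmul_eq_mul]
  apply mul_le_mul_of_nonneg_right _ hV.le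
  have h1 : ((Icc 1 x).filter (fun n => n < n0)).card ≤ (Ico 1 n0).card := by
    apply card_le_card
    intro n hn
    rw [mem_filter, mem_Icc] at hn
    rw [mem_Ico]
    omega
  rw [Nat.card_Ico] at h1
  exact_mod_cast h1.trans (Nat.sub_le _ _)

/-- the sum with the logarithmic weight and its model -/
lemma LG_near (e : Bool) (G : ℤ[X]) (N x z X' n0 : ℕ) (hX : X' ≤ x) (hN : 1 ≤ n0)
    (hseg : ∀ n ∈ Icc n0 x, (1 ≤ (N : ℤ) - G.eval (n : ℤ) ↔ n ≤ X')) (w : ℕ → ℂ) (hw : ∀ n, ‖w n‖ ≤ 1) :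
    ‖LG e G N x w - (((Vz z)⁻¹ : ℝ) : ℂ) * ∑ n ∈ Ps e (HN G N) X' z, w n‖ ≤ ‖DC e G N x z w‖ + n0 * (Vz z)⁻¹ := by
  have h1 := sum_model e G N x z X' n0 hX hN hseg w hw
  have h2 : LG e G N x w = DC e G N x z w +
      ∑ n ∈ Icc 1 x, (if ar e n then w n else 0) * ((lamzI z ((N : ℤ) - G.eval (n : ℤ)) : ℝ) : ℂ) := by
    unfold DC
    rw [← sum_lamP, ← sum_add_distrib]
    apply sum_congr rfl
    intro n _
    push_cast
    ring
  rw [h2, add_sub_assoc]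
  exact (norm_add_le _ _).trans (add_le_add le_rfl h1)

/-- the `N` for which one of the weighted differences of a finite collection is large -/
theorem few_bad (e : Bool) (G : ℤ[X]) (hG : 1 ≤ G.natDegree) (hGl : 0 < G.leadingCoeff) (B : ℕ) (hB : 1 ≤ B) (U V κ : ℕ) :
    ∃ B0 : ℕ, ∀ E : ℕ, ∃ N0 : ℕ, ∀ x : ℕ, N0 ≤ x → ∀ M : ℕ, M ≤ B * x ^ G.natDegree → x ^ G.natDegree ≤ B * M →
    ∀ z : ℕ, Real.log x ^ B0 ≤ z → (z : ℝ) ≤ Real.log x ^ E → ∀ {ι : Type} (I : Finset ι) (w : ι → ℕ → ℂ),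
    (I.card : ℝ) ≤ Real.log x ^ κ → (∀ i ∈ I, ∀ b, ‖w i b‖ ≤ 1) →
    ∀ S : Finset ℕ, S ⊆ Icc 1 M → (∀ N ∈ S, ∃ i ∈ I, x / Real.log x ^ V < ‖DC e G N x z (w i)‖) →
    (S.card : ℝ) ≤ M / Real.log x ^ U := by
  classical
  obtain ⟨B0, h0⟩ := Pool.Agent.H373R2.T7.TB.l1_one G hG hGl B hB (U + V + κ + 1)
  refine ⟨B0, fun E => ?_⟩
  obtain ⟨N1, h1⟩ := h0 E
  obtain ⟨N2, h2⟩ := ev_L' 4
  refine ⟨max (max N1 N2) 3, fun x hx M hM1 hM2 z hz1 hz2 ι I w hI hw S hS hbad => ?_⟩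
  have a1 := h1 x (by omega) M hM1 hM2 z hz1 hz2
  have a2 := h2 x (by omega)
  set L := Real.log x with hL
  have hL0 : 0 < L := by linarith
  have hx0 : (0 : ℝ) < x := by exact_mod_cast (by omega : 0 < x)
  have hM0 : (0 : ℝ) ≤ M := Nat.cast_nonneg _
  -- the first moment for one weight
  have hone : ∀ i ∈ I, ∑ N ∈ Icc 1 M, ‖DC e G N x z (w i)‖ ≤ 2 * (x * M / L ^ (U + V + κ + 1)) := by
    intro i hi
    have hre := a1 (fun n => if ar e n then (w i n).re else 0) (fun n _ => by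
      split_ifs
      · exact ((Complex.abs_re_le_norm _).trans (hw i hi n)).trans (by linarith)
      · rw [abs_zero]; linarith)
    have him := a1 (fun n => if ar e n then (w i n).im else 0) (fun n _ => by
      split_ifs
      · exact ((Complex.abs_im_le_norm _).trans (hw i hi n)).trans (by linarith)
      · rw [abs_zero]; linarith)
    have hsum : ∀ N ∈ Icc 1 M, ‖DC e G N x z (w i)‖ ≤
        |∑ n ∈ Icc 1 x, (if ar e n then (w i n).re else 0) * (lamP ((N : ℤ) - G.eval (n : ℤ)) - lamzI z ((N : ℤ) - G.eval (n : ℤ)))| +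
        |∑ n ∈ Icc 1 x, (if ar e n then (w i n).im else 0) * (lamP ((N : ℤ) - G.eval (n : ℤ)) - lamzI z ((N : ℤ) - G.eval (n : ℤ)))| := by
      intro N _
      refine (Complex.norm_le_abs_re_add_abs_im _).trans (le_of_eq ?_)
      unfold DC
      rw [Complex.re_sum, Complex.im_sum]
      congr 2
      · apply sum_congr rfl
        intro n _
        rw [Complex.re_mul_ofReal]
        split_ifs
        · rfl
        · rw [Complex.zero_re]
      · apply sum_congr rfl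
        intro n _
        rw [Complex.im_mul_ofReal]
        split_ifs
        · rfl
        · rw [Complex.zero_im]
    refine (sum_le_sum hsum).trans ?_
    rw [sum_add_distrib]
    linarith
  have hpos : 0 < (x : ℝ) / L ^ V := by positivity
  -- Markov
  have hS2 : (S.card : ℝ) * (x / L ^ V) ≤ ∑ i ∈ I, 2 * (x * M / L ^ (U + V + κ + 1)) := by
    calc (S.card : ℝ) * (x / L ^ V) = ∑ N ∈ S, (x : ℝ) / L ^ V := by rw [sum_const, nsmul_eq_mul]
      _ ≤ ∑ N ∈ S, ∑ i ∈ I, ‖DC e G N x z (w i)‖ := by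
          apply sum_le_sum
          intro N hN
          obtain ⟨i, hi, hlt⟩ := hbad N hN
          exact hlt.le.trans (single_le_sum (f := fun i => ‖DC e G N x z (w i)‖) (fun _ _ => norm_nonneg _) hi)
      _ ≤ ∑ N ∈ Icc 1 M, ∑ i ∈ I, ‖DC e G N x z (w i)‖ := by
          apply sum_le_sum_of_subset_of_nonneg hS
          intro _ _ _
          exact sum_nonneg fun _ _ => norm_nonneg _
      _ = ∑ i ∈ I, ∑ N ∈ Icc 1 M, ‖DC e G N x z (w i)‖ := sum_comm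
      _ ≤ _ := sum_le_sum hone
  rw [sum_const, nsmul_eq_mul] at hS2
  have h3 : (I.card : ℝ) * (2 * (x * M / L ^ (U + V + κ + 1))) ≤ (M / L ^ U) * (x / L ^ V) := by
    calc (I.card : ℝ) * (2 * (x * M / L ^ (U + V + κ + 1))) ≤ L ^ κ * (L * (x * M / L ^ (U + V + κ + 1))) := by
          apply mul_le_mul hI _ (by positivity) (by positivity)
          apply mul_le_mul_of_nonneg_right (by linarith) (by positivity)
      _ = _ := by
          rw [show U + V + κ + 1 = U + V + (κ + 1) by ring, pow_add, pow_add, pow_add, pow_one]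
          field_simp
  exact le_of_mul_le_mul_right (hS2.trans h3) hpos

end Pool.Agent.K4H18.GV
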