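import Pool.Agent.K4H18.GV.G10
import Pool.Agent.K4H18.CH.H4

set_option autoImplicit false

/-! The characteristic function of the truncated additive functions over the arguments of a good `N`. -/

namespace Pool.Agent.K4H18.GV

open Finset Polynomial
open Pool.Agent.H373R2.T7 (pz mem_pz ev_L' Vz Vz_pos Vz_le_one lamP lamzI lamz lamP_nonneg lamzI_nonneg markov Vz_inv_small ev_loglog)
open Pool.Agent.H373R2.T7.TB (smC smC_sum smC_nonneg)
open Pool.Agent.H474R2.PG (rho PR Sg)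
open Pool.Agent.K4H18.EK (PP mem_PP YN mN Fex norm_Fex Fex_zero hh)

lemma size_ell (G : ℤ[X]) (hG : 1 ≤ G.natDegree) (B U2 : ℕ) (η : ℝ) (hη : 0 < η) : ∃ x0 : ℕ, ∀ x : ℕ, x0 ≤ x →
    ∀ N : ℕ, N ≤ B * x ^ G.natDegree →
    (∀ n ∈ Icc 1 x, 1 ≤ (N : ℤ) - G.eval (n : ℤ) → ell G N n ≤ (G.natDegree * Real.log x) * (1 + η)) ∧
    (∀ n ∈ Icc 1 x, (x : ℝ) ^ G.natDegree / Real.log x ^ U2 < (((N : ℤ) - G.eval (n : ℤ) : ℤ) : ℝ) →
      (G.natDegree * Real.log x) * (1 - η) ≤ ell G N n) := by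
  obtain ⟨CG, hCG⟩ := Pool.Agent.K4H18.CH.eval_bound G
  obtain ⟨n1, h1⟩ := ev_loglog U2 η hη
  obtain ⟨n2, h2⟩ := ev_L' (Real.log (B + CG + 1) / η + 1)
  refine ⟨max (max n1 n2) 3, fun x hx N hN => ?_⟩
  have a1 := h1 x (by omega)
  have a2 := h2 x (by omega)
  set d := G.natDegree with hd
  set L := Real.log x with hL
  have hd1 : (1 : ℝ) ≤ d := by exact_mod_cast hG
  have hx0 : (0 : ℝ) < x := by exact_mod_cast (by omega : 0 < x)
  have hlB : 0 ≤ Real.log (B + CG + 1) := Real.log_nonneg (by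
    have : (0 : ℝ) ≤ B := Nat.cast_nonneg _
    have : (0 : ℝ) ≤ CG := Nat.cast_nonneg _
    linarith)
  have hL1 : 1 ≤ L := by
    have : 0 ≤ Real.log (B + CG + 1) / η := by positivity
    linarith
  constructor
  · intro n hn hpos
    rw [mem_Icc] at hn
    have f1 := (abs_le.1 (hCG x (by omega) n hn.2)).1
    have f2 : (N : ℤ) ≤ B * (x : ℤ) ^ d := by exact_mod_cast hN
    have f3 : (N : ℤ) - G.eval (n : ℤ) ≤ (B + CG + 1) * (x : ℤ) ^ d := by
      have : (0 : ℤ) ≤ (x : ℤ) ^ d := by positivity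
      nlinarith
    have f4 : ((((N : ℤ) - G.eval (n : ℤ)).toNat : ℕ) : ℝ) ≤ (B + CG + 1) * (x : ℝ) ^ d := by
      have f5 : ((((N : ℤ) - G.eval (n : ℤ)).toNat : ℕ) : ℤ) ≤ (B + CG + 1) * (x : ℤ) ^ d := by
        rw [Int.toNat_of_nonneg (by omega)]
        exact f3
      exact_mod_cast f5
    have f6 : (0 : ℝ) < ((((N : ℤ) - G.eval (n : ℤ)).toNat : ℕ) : ℝ) := by
      have : 0 < ((N : ℤ) - G.eval (n : ℤ)).toNat := by omega
      exact_mod_cast this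
    have f7 := Real.log_le_log f6 f4
    rw [Real.log_mul (by positivity) (by positivity), Real.log_pow] at f7
    unfold ell
    have f8 : Real.log (B + CG + 1) ≤ η * L := by
      have : Real.log (B + CG + 1) / η ≤ L := by linarith
      rw [div_le_iff₀ hη] at this
      linarith
    have f9 : η * L ≤ d * L * η := by nlinarith [mul_pos hη (show (0:ℝ) < L by linarith)]
    nlinarith
  · intro n hn hlt
    have hT : 0 < (x : ℝ) ^ d / L ^ U2 := by positivity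
    have f6 : (((((N : ℤ) - G.eval (n : ℤ)).toNat : ℕ) : ℤ) : ℝ) = (((N : ℤ) - G.eval (n : ℤ) : ℤ) : ℝ) := by
      congr 1
      apply Int.toNat_of_nonneg
      have : (0 : ℝ) < (((N : ℤ) - G.eval (n : ℤ) : ℤ) : ℝ) := hT.trans hlt
      have h3 : 0 < (N : ℤ) - G.eval (n : ℤ) := by exact_mod_cast this
      omega
    unfold ell
    have f7 := Real.log_le_log hT hlt.le
    rw [← f6, Real.log_div (by positivity) (by positivity), Real.log_pow, Real.log_pow] at f7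
    push_cast at f7
    have f9 : η * L ≤ d * L * η := by nlinarith [mul_pos hη (show (0:ℝ) < L by linarith)]
    nlinarith

/-- from the logarithmic weight to the number -/
lemma unw (e : Bool) (G : ℤ[X]) (N x : ℕ) (Λ η T : ℝ) (hΛ : 0 ≤ Λ) (hη0 : 0 ≤ η) (hη : η ≤ 1)
    (hup : ∀ n ∈ Icc 1 x, 1 ≤ (N : ℤ) - G.eval (n : ℤ) → ell G N n ≤ Λ * (1 + η))
    (hlo : ∀ n ∈ Icc 1 x, T < (((N : ℤ) - G.eval (n : ℤ) : ℤ) : ℝ) → Λ * (1 - η) ≤ ell G N n)
    (w : ℕ → ℂ) (hw : ∀ n, ‖w n‖ ≤ 1) :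
    ‖((Λ : ℝ) : ℂ) * ∑ n ∈ Pn e G N x, w n - LG e G N x w‖ ≤ η * (Λ * (Pn e G N x).card) + Λ * smC G x T N := by
  classical
  unfold LG
  rw [mul_sum, ← sum_sub_distrib]
  have hterm : ∀ n ∈ Pn e G N x, ‖((Λ : ℝ) : ℂ) * w n - w n * ((ell G N n : ℝ) : ℂ)‖ ≤
      η * Λ + Λ * (if 1 ≤ (N : ℤ) - G.eval (n : ℤ) ∧ (((N : ℤ) - G.eval (n : ℤ) : ℤ) : ℝ) ≤ T then (1 : ℝ) else 0) := by
    intro n hn
    unfold Pn at hn
    rw [mem_filter] at hn
    have hpos : 1 ≤ (N : ℤ) - G.eval (n : ℤ) := by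
      have := hn.2.2.pos
      omega
    have e1 : ((Λ : ℝ) : ℂ) * w n - w n * ((ell G N n : ℝ) : ℂ) = w n * ((Λ - ell G N n : ℝ) : ℂ) := by
      push_cast; ring
    rw [e1, norm_mul, Complex.norm_real, Real.norm_eq_abs]
    have h1 := hup n hn.1 hpos
    have h0 : 0 ≤ ell G N n := Real.log_natCast_nonneg _
    have h2 : |Λ - ell G N n| ≤ η * Λ + Λ * (if 1 ≤ (N : ℤ) - G.eval (n : ℤ) ∧ (((N : ℤ) - G.eval (n : ℤ) : ℤ) : ℝ) ≤ T then (1 : ℝ) else 0) := by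
      have hηΛ : 0 ≤ η * Λ := by positivity
      split_ifs with hc
      · rw [abs_le]
        constructor <;> nlinarith
      · have h3 := hlo n hn.1 (by
          by_contra h4
          push Not at h4
          exact hc ⟨hpos, h4⟩)
        rw [abs_le]
        constructor <;> nlinarith
    calc ‖w n‖ * |Λ - ell G N n| ≤ 1 * |Λ - ell G N n| := mul_le_mul_of_nonneg_right (hw n) (abs_nonneg _)
      _ ≤ _ := by rw [one_mul]; exact h2
  refine (norm_sum_le_of_le _ hterm).trans ?_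
  rw [sum_add_distrib, sum_const, nsmul_eq_mul, ← mul_sum]
  apply add_le_add
  · apply le_of_eq; ring
  · apply mul_le_mul_of_nonneg_left _ hΛ
    unfold smC
    unfold Pn
    refine le_trans ?_ (sum_le_sum_of_subset_of_nonneg (filter_subset (fun n : ℕ => ar e n ∧ ((N : ℤ) - G.eval (n : ℤ)).toNat.Prime) (Icc 1 x)) ?_)
    · apply le_of_eq
      apply sum_congr rfl
      intro n _
      congr
    · intro n _ _
      split_ifs <;> norm_num

lemma eta_zero {k : ℕ} (e : Bool) (F : Fin k → ℤ[X]) (c : ℝ) (q : ℕ) : eta e F (fun i => (0 : Fin k → ℝ) i / c) q = 0 := by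
  rw [eta_eq]
  apply sum_eq_zero
  intro i _
  simp

lemma norm_prod_eta {k : ℕ} {e : Bool} {F : Fin k → ℤ[X]} {R D : ℕ} (hf : Facts e F R D) (θ : Fin k → ℝ) (z Y : ℕ) (hR : R ≤ z) :
    ‖∏ q ∈ PP z Y, (1 + eta e F θ q)‖ ≤ 1 := by
  rw [norm_prod]
  apply prod_le_one
  · intro q _
    exact norm_nonneg _
  · intro q hq
    have h := mem_PP.1 hq
    unfold eta
    exact norm_avg e h.2.2 _ (fun he => hh_zero he hf θ h.2.2 (by omega)) (fun b => norm_one_add_hh hf θ h.2.2 (by omega) b)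

/-- the hypotheses on `N` -/
structure GoodN (e : Bool) (G : ℤ[X]) (K0 B U2 x z N X' n0 : ℕ) : Prop where
  N1 : 1 ≤ N
  NB : N ≤ B * x ^ G.natDegree
  Xx : X' ≤ x
  Xlo : (x : ℝ) / Real.log x ^ 1 ≤ X'
  seg : ∀ n ∈ Icc n0 x, (1 ≤ (N : ℤ) - G.eval (n : ℤ) ↔ n ≤ X')
  roots : ∀ q ∈ pz z, rho (HN G N) q ≤ K0
  nf : NF e (HN G N) z
  small : smC G x ((x : ℝ) ^ G.natDegree / Real.log x ^ U2) N ≤ x / Real.log x ^ 8

/-- the sum with the logarithmic weight -/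
theorem LG_char {k : ℕ} (e : Bool) (G : ℤ[X]) (K0 B U2 n0 : ℕ) (hn0 : 1 ≤ n0) (F : Fin k → ℤ[X]) (R D : ℕ) (hf : Facts e F R D)
    (E : ℕ) (T0 ε : ℝ) (hT0 : 0 ≤ T0) (hε : 0 < ε) : ∃ N0 : ℕ, ∀ x : ℕ, N0 ≤ x → ∀ z : ℕ, R ≤ z → 3 ≤ z → (z : ℝ) ≤ Real.log x ^ E →
      ∀ N X' : ℕ, GoodN e G K0 B U2 x z N X' n0 → ∀ t : Fin k → ℝ, (∀ i, |t i| ≤ T0) →
      ‖DC e G N x z (Fex F x z t)‖ ≤ x / Real.log x ^ 8 →
      ‖LG e G N x (Fex F x z t) - ((Xn e (HN G N) X' z : ℝ) : ℂ) *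
        ∏ q ∈ PP z (YN x), (1 + eta e F (fun i => t i / √(Real.log (Real.log x))) q)‖ ≤ ε * Xn e (HN G N) X' z := by
  obtain ⟨N1, h1⟩ := Xn_low e K0 E
  obtain ⟨N2, h2⟩ := eval_char e K0 F R D hf E 1 1 8 T0 hT0
  obtain ⟨N3, h3⟩ := Vz_inv_small E
  obtain ⟨N4, h4⟩ := ev_L' (5 / ε + 1)
  obtain ⟨N5, h5⟩ := Pool.Agent.K4H18.EK.ev_pow 9 n0 1 one_pos
  refine ⟨max (max (max N1 N2) (max N3 N4)) (max N5 3), fun x hx z hzR hz3 hzE N X' hGN t ht hDC => ?_⟩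
  have hx3 : (3 : ℝ) ≤ x := by exact_mod_cast (by omega : 3 ≤ x)
  have hx0 : (0 : ℝ) < x := by linarith
  have hX1 : X' ≤ 1 * x := by rw [one_mul]; exact hGN.Xx
  have a1 := h1 x (by omega) z hz3 hzE X' hGN.Xlo hX1 (HN G N) hGN.roots hGN.nf
  have a2 := h2 x (by omega) z hz3 hzR hzE X' hGN.Xlo hX1 (HN G N) hGN.roots t ht
  have a3 := h3 x (by omega) z (by omega) hzE
  have a4 := h4 x (by omega)
  have a5 := h5 x (by omega)
  rw [Real.rpow_one] at a5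
  have a6 := LG_near e G N x z X' n0 hGN.Xx hn0 hGN.seg (Fex F x z t) (fun n => (norm_Fex F x z t n).le)
  set L := Real.log x with hL
  have h5ε : 0 < 5 / ε := by positivity
  have hL1 : 1 ≤ L := by linarith
  have hL0 : 0 < L := by linarith
  set P := ∏ q ∈ PP z (YN x), (1 + eta e F (fun i => t i / √(Real.log (Real.log x))) q) with hP
  set X := Xn e (HN G N) X' z with hX
  set V := (Vz z)⁻¹ with hV
  have hV0 : 0 < V := inv_pos.2 (Vz_pos z)
  have hX0 : 0 < X := lt_of_lt_of_le (by positivity) a1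
  -- `x / L ^ 5 ≤ X / L`
  have hxX : ∀ j : ℕ, (x : ℝ) / L ^ (4 + 1 + j) ≤ X / L := by
    intro j
    calc (x : ℝ) / L ^ (4 + 1 + j) ≤ x / L ^ (4 + 1) := by
          apply div_le_div_of_nonneg_left hx0.le (by positivity)
          exact pow_le_pow_right₀ hL1 (by omega)
      _ = (x / L ^ 4) / L := by rw [pow_succ L 4]; field_simp
      _ ≤ _ := div_le_div_of_nonneg_right a1 hL0.le
  have c1 : ‖DC e G N x z (Fex F x z t)‖ ≤ X / L := hDC.trans (hxX 3)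
  have c2 : (n0 : ℝ) * V ≤ X / L := by
    refine le_trans ?_ (hxX 3)
    rw [le_div_iff₀ (by positivity)]
    calc (n0 : ℝ) * V * L ^ (4 + 1 + 3) ≤ n0 * L * L ^ (4 + 1 + 3) := by gcongr
      _ = n0 * L ^ 9 := by ring
      _ ≤ x := a5
  have c3 : ‖(V : ℂ) * ∑ n ∈ Ps e (HN G N) X' z, Fex F x z t n - (X : ℂ) * P‖ ≤ 3 * (X / L) := by
    have e1 : (V : ℂ) * ∑ n ∈ Ps e (HN G N) X' z, Fex F x z t n - (X : ℂ) * P =
        (V : ℂ) * (∑ n ∈ Ps e (HN G N) X' z, Fex F x z t n - ((PI e X' * Wn e (HN G N) z : ℝ) : ℂ) * P) := by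
      rw [hX]
      unfold Xn
      rw [← hV]
      push_cast
      ring
    rw [e1, norm_mul, Complex.norm_real, Real.norm_eq_abs, abs_of_pos hV0]
    calc V * ‖∑ n ∈ Ps e (HN G N) X' z, Fex F x z t n - ((PI e X' * Wn e (HN G N) z : ℝ) : ℂ) * P‖
        ≤ V * (2 * (PI e X' * Wn e (HN G N) z) / L + x / L ^ 8) := mul_le_mul_of_nonneg_left a2 hV0.le
      _ = 2 * (X / L) + V * (x / L ^ 8) := by
          rw [hX]
          unfold Xn
          rw [← hV]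
          ring
      _ ≤ 2 * (X / L) + L * (x / L ^ 8) := by
          have : V * (x / L ^ 8) ≤ L * (x / L ^ 8) := mul_le_mul_of_nonneg_right a3 (by positivity)
          linarith
      _ = 2 * (X / L) + x / L ^ (4 + 1 + 2) := by
          congr 1
          rw [show (8 : ℕ) = 7 + 1 by norm_num, pow_succ L 7]
          field_simp
      _ ≤ _ := by
          have := hxX 2
          linarith
  have c4 : ‖LG e G N x (Fex F x z t) - (X : ℂ) * P‖ ≤ 5 * (X / L) := by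
    have e1 : LG e G N x (Fex F x z t) - (X : ℂ) * P = (LG e G N x (Fex F x z t) - (V : ℂ) * ∑ n ∈ Ps e (HN G N) X' z, Fex F x z t n) +
        ((V : ℂ) * ∑ n ∈ Ps e (HN G N) X' z, Fex F x z t n - (X : ℂ) * P) := by ring
    rw [e1]
    refine (norm_add_le _ _).trans ?_
    linarith
  refine c4.trans ?_
  rw [mul_div_assoc', div_le_iff₀ hL0]
  have h6 : 5 ≤ ε * L := by
    have : 5 / ε ≤ L := by linarith
    rw [div_le_iff₀ hε] at this
    linarith
  nlinarith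

end Pool.Agent.K4H18.GV
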