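import Pool.Agent.K4H18.GV.G11

set_option autoImplicit false

/-! From the logarithmic weight to the number of arguments. -/

namespace Pool.Agent.K4H18.GV

open Finset Polynomial
open Pool.Agent.H373R2.T7 (pz mem_pz ev_L' Vz Vz_pos Vz_le_one lamP lamzI lamz lamP_nonneg lamzI_nonneg markov Vz_inv_small ev_loglog)
open Pool.Agent.H373R2.T7.TB (smC smC_sum smC_nonneg)
open Pool.Agent.H474R2.PG (rho PR Sg)
open Pool.Agent.K4H18.EK (PP mem_PP YN mN Fex norm_Fex Fex_zero hh wf wf_nonneg wG norm_wG ev_lam)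

theorem det_char {k : ℕ} (e : Bool) (G : ℤ[X]) (hG : 1 ≤ G.natDegree) (K0 B U2 n0 : ℕ) (hn0 : 1 ≤ n0) (F : Fin k → ℤ[X]) (R D : ℕ)
    (hf : Facts e F R D)
    (E : ℕ) (T0 ε : ℝ) (hT0 : 0 ≤ T0) (hε : 0 < ε) (hε1 : ε ≤ 1 / 8) : ∃ N0 : ℕ, ∀ x : ℕ, N0 ≤ x → ∀ z : ℕ, R ≤ z → 3 ≤ z →
      (z : ℝ) ≤ Real.log x ^ E → ∀ N X' : ℕ, GoodN e G K0 B U2 x z N X' n0 → ‖DC e G N x z (fun _ => 1)‖ ≤ x / Real.log x ^ 8 →
      (x : ℝ) / Real.log x ^ 4 ≤ Xn e (HN G N) X' z ∧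
      Xn e (HN G N) X' z ≤ 2 * ((G.natDegree * Real.log x) * (Pn e G N x).card) ∧
      (G.natDegree * Real.log x) * (Pn e G N x).card ≤ 2 * Xn e (HN G N) X' z ∧
      ∀ t : Fin k → ℝ, (∀ i, |t i| ≤ T0) →
      ‖DC e G N x z (Fex F x z t)‖ ≤ x / Real.log x ^ 8 →
      ‖∑ p ∈ Pn e G N x, Fex F x z t p - ((Pn e G N x).card : ℂ) *
        ∏ q ∈ PP z (YN x), (1 + eta e F (fun i => t i / √(Real.log (Real.log x))) q)‖ ≤ 12 * ε * (Pn e G N x).card := by
  obtain ⟨N1, h1⟩ := LG_char e G K0 B U2 n0 hn0 F R D hf E T0 ε hT0 hε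
  obtain ⟨N2, h2⟩ := size_ell G hG B U2 ε hε
  obtain ⟨N3, h3⟩ := ev_L' (G.natDegree / ε + 1)
  obtain ⟨N4, h4⟩ := Xn_low e K0 E
  refine ⟨max (max N1 N2) (max (max N3 N4) 3), fun x hx z hzR hz3 hzE N X' hGN hD1 => ?_⟩
  have hx3 : (3 : ℝ) ≤ x := by exact_mod_cast (by omega : 3 ≤ x)
  have hx0 : (0 : ℝ) < x := by linarith
  have a1 := h1 x (by omega) z hzR hz3 hzE N X' hGN
  obtain ⟨b1, b2⟩ := h2 x (by omega) N hGN.NB
  have a3 := h3 x (by omega)
  have hX1 : X' ≤ 1 * x := by rw [one_mul]; exact hGN.Xx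
  have a4 := h4 x (by omega) z hz3 hzE X' hGN.Xlo hX1 (HN G N) hGN.roots hGN.nf
  have hsm := hGN.small
  set L := Real.log x with hL
  set X := Xn e (HN G N) X' z with hX
  have hd1 : (1 : ℝ) ≤ G.natDegree := by exact_mod_cast hG
  have hdε : 0 < (G.natDegree : ℝ) / ε := by positivity
  have hL1 : 1 ≤ L := by linarith
  have hL0 : 0 < L := by linarith
  have hX0 : 0 < X := lt_of_lt_of_le (by positivity) a4
  set Λ : ℝ := G.natDegree * L with hΛ
  have hΛ0 : 0 < Λ := by positivity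
  set g : ℝ := ((Pn e G N x).card : ℝ) with hg
  have hg0 : 0 ≤ g := Nat.cast_nonneg _
  have hunw := fun (w : ℕ → ℂ) (hw : ∀ n, ‖w n‖ ≤ 1) => unw e G N x Λ ε ((x : ℝ) ^ G.natDegree / L ^ U2) hΛ0.le hε.le (by linarith) b1 b2 w hw
  have hsm2 : Λ * smC G x ((x : ℝ) ^ G.natDegree / L ^ U2) N ≤ ε * X := by
    calc Λ * smC G x ((x : ℝ) ^ G.natDegree / L ^ U2) N ≤ Λ * (x / L ^ 8) := mul_le_mul_of_nonneg_left hsm hΛ0.le
      _ = G.natDegree * (x / L ^ 7) := by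
          rw [hΛ, show (8 : ℕ) = 7 + 1 by norm_num, pow_succ L 7]
          field_simp
      _ ≤ G.natDegree * (X / L) := by
          apply mul_le_mul_of_nonneg_left _ (by positivity)
          calc (x : ℝ) / L ^ 7 ≤ x / L ^ (4 + 1) := by
                apply div_le_div_of_nonneg_left hx0.le (by positivity)
                exact pow_le_pow_right₀ hL1 (by omega)
            _ = (x / L ^ 4) / L := by rw [pow_succ L 4]; field_simp
            _ ≤ _ := div_le_div_of_nonneg_right a4 hL0.le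
      _ ≤ ε * X := by
          rw [mul_div_assoc', div_le_iff₀ hL0]
          have : (G.natDegree : ℝ) / ε ≤ L := by linarith
          rw [div_le_iff₀ hε] at this
          nlinarith
  have hone : |Λ * g - X| ≤ ε * (Λ * g) + 2 * (ε * X) := by
    have e1 := hunw (fun _ => 1) (fun _ => by rw [norm_one])
    have e2 := a1 0 (fun i => by simpa using hT0) (by rw [Fex_zero]; exact hD1)
    have e3 : ∏ q ∈ PP z (YN x), (1 + eta e F (fun i => (0 : Fin k → ℝ) i / √(Real.log L)) q) = 1 := by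
      apply prod_eq_one
      intro q _
      rw [eta_zero, add_zero]
    rw [e3, Fex_zero, mul_one] at e2
    have e4 : ((Λ : ℝ) : ℂ) * ∑ n ∈ Pn e G N x, (1 : ℂ) = ((Λ * g : ℝ) : ℂ) := by
      rw [sum_const, nsmul_eq_mul, mul_one, hg]
      push_cast
      rfl
    rw [e4] at e1
    have e5 : ‖((Λ * g : ℝ) : ℂ) - (X : ℂ)‖ ≤ (ε * (Λ * g) + ε * X) + ε * X := by
      have e6 : ((Λ * g : ℝ) : ℂ) - (X : ℂ) = (((Λ * g : ℝ) : ℂ) - LG e G N x (fun _ => 1)) + (LG e G N x (fun _ => 1) - (X : ℂ)) := by ring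
      rw [e6]
      exact (norm_add_le _ _).trans (add_le_add (e1.trans (add_le_add le_rfl hsm2)) e2)
    rw [← Complex.ofReal_sub, Complex.norm_real, Real.norm_eq_abs] at e5
    linarith
  have hΛg0 : 0 ≤ Λ * g := by positivity
  obtain ⟨o1, o2⟩ := abs_le.1 hone
  have r1 : X ≤ 2 * (Λ * g) := by nlinarith
  have r2 : Λ * g ≤ 2 * X := by nlinarith
  refine ⟨a4, r1, r2, fun t ht hDt => ?_⟩
  have e1 := hunw (Fex F x z t) (fun n => (norm_Fex F x z t n).le)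
  have e2 := a1 t ht hDt
  set P := ∏ q ∈ PP z (YN x), (1 + eta e F (fun i => t i / √(Real.log L)) q) with hP
  have hP1 : ‖P‖ ≤ 1 := norm_prod_eta hf _ z (YN x) hzR
  have e3 : ‖((Λ : ℝ) : ℂ) * (∑ p ∈ Pn e G N x, Fex F x z t p - (g : ℂ) * P)‖ ≤ Λ * (12 * ε * g) := by
    have e4 : ((Λ : ℝ) : ℂ) * (∑ p ∈ Pn e G N x, Fex F x z t p - (g : ℂ) * P) =
        (((Λ : ℝ) : ℂ) * ∑ p ∈ Pn e G N x, Fex F x z t p - LG e G N x (Fex F x z t)) +
        (LG e G N x (Fex F x z t) - (X : ℂ) * P) - (((Λ * g - X : ℝ) : ℂ)) * P := by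
      push_cast
      ring
    rw [e4]
    refine (norm_sub_le _ _).trans ?_
    have e5 : ‖(((Λ * g - X : ℝ) : ℂ)) * P‖ ≤ ε * (Λ * g) + 2 * (ε * X) := by
      rw [norm_mul, Complex.norm_real, Real.norm_eq_abs]
      calc |Λ * g - X| * ‖P‖ ≤ |Λ * g - X| * 1 := mul_le_mul_of_nonneg_left hP1 (abs_nonneg _)
        _ ≤ _ := by rw [mul_one]; exact hone
    have e6 := (norm_add_le (((Λ : ℝ) : ℂ) * ∑ p ∈ Pn e G N x, Fex F x z t p - LG e G N x (Fex F x z t)) (LG e G N x (Fex F x z t) - (X : ℂ) * P)).trans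
      (add_le_add (e1.trans (add_le_add le_rfl hsm2)) e2)
    have e7 : ε * X ≤ ε * (2 * (Λ * g)) := mul_le_mul_of_nonneg_left r1 hε.le
    have e8 : 0 ≤ ε * (Λ * g) := by positivity
    calc _ ≤ (ε * (Λ * g) + ε * X + ε * X) + (ε * (Λ * g) + 2 * (ε * X)) := add_le_add e6 e5
      _ ≤ _ := by nlinarith
  rw [norm_mul, Complex.norm_real, Real.norm_eq_abs, abs_of_pos hΛ0] at e3
  have e4 : ((Pn e G N x).card : ℂ) = (g : ℂ) := by
    rw [hg]
    push_cast
    rfl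
  rw [e4]
  exact le_of_mul_le_mul_left e3 hΛ0

theorem det_wf {k : ℕ} (e : Bool) (G : ℤ[X]) (hG : 1 ≤ G.natDegree) (K0 B U2 n0 : ℕ) (hn0 : 1 ≤ n0) (F : Fin k → ℤ[X]) (R D : ℕ)
    (hf : Facts e F R D) (E : ℕ) : ∃ (C : ℝ) (N0 : ℕ), 0 ≤ C ∧ ∀ x : ℕ, N0 ≤ x → ∀ z : ℕ, R ≤ z → 3 ≤ z →
      (z : ℝ) ≤ Real.log x ^ E → ∀ N X' : ℕ, GoodN e G K0 B U2 x z N X' n0 → ‖DC e G N x z (fun _ => 1)‖ ≤ x / Real.log x ^ 8 →
      ‖DC e G N x z (wG F x z)‖ ≤ x / Real.log x ^ 8 →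
      ∑ p ∈ Pn e G N x, min (wf F x z p) (Real.log x ^ 2) ≤ C * (1 + Real.log (Real.log (Real.log x))) * (Pn e G N x).card := by
  classical
  obtain ⟨C1, N1, hC1, h1⟩ := wf_bound e K0 F R D hf E 1 1 8
  obtain ⟨N2, h2⟩ := det_char e G hG K0 B U2 n0 hn0 F R D hf E 0 (1 / 8) le_rfl (by norm_num) le_rfl
  obtain ⟨N3, h3⟩ := Vz_inv_small E
  obtain ⟨N4, h4⟩ := ev_L' 3
  obtain ⟨N5, h5⟩ := ev_lam 0 1 one_pos
  obtain ⟨N6, h6⟩ := size_ell G hG B U2 (1 / 2) (by norm_num)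
  obtain ⟨N7, h7⟩ := Pool.Agent.K4H18.EK.ev_pow 9 n0 1 one_pos
  refine ⟨4 * C1 + 16 + 4 * G.natDegree, max (max (max N1 N2) (max N3 N4)) (max (max N5 N6) (max N7 3)), by positivity,
    fun x hx z hzR hz3 hzE N X' hGN hD1 hDw => ?_⟩
  have hx3 : (3 : ℝ) ≤ x := by exact_mod_cast (by omega : 3 ≤ x)
  have hx0 : (0 : ℝ) < x := by linarith
  have hX1 : X' ≤ 1 * x := by rw [one_mul]; exact hGN.Xx
  have hwf := h1 x (by omega) z hz3 hzR hzE X' hGN.Xlo hX1 (HN G N) hGN.roots hGN.nf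
  obtain ⟨c1, c2, c3, -⟩ := h2 x (by omega) z hzR hz3 hzE N X' hGN hD1
  have hVs := h3 x (by omega) z (by omega) hzE
  have hL3 := h4 x (by omega)
  obtain ⟨-, a1, -⟩ := h5 x (by omega)
  obtain ⟨b1, b2⟩ := h6 x (by omega) N hGN.NB
  have a7 := h7 x (by omega)
  rw [Real.rpow_one] at a7
  have hsm := hGN.small
  set L := Real.log x with hL
  have hL0 : 0 < L := by linarith
  have hL1 : 1 ≤ L := by linarith
  set X := Xn e (HN G N) X' z with hX
  set ll := Real.log (Real.log L) with hll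
  have hll0 : 0 ≤ ll := Real.log_nonneg a1
  have hX0 : 0 < X := lt_of_lt_of_le (by positivity) c1
  set V := (Vz z)⁻¹ with hV
  have hV0 : 0 < V := inv_pos.2 (Vz_pos z)
  have hd1 : (1 : ℝ) ≤ G.natDegree := by exact_mod_cast hG
  set Λ : ℝ := G.natDegree * L with hΛ
  have hΛ0 : 0 < Λ := by positivity
  set w : ℕ → ℝ := fun p => min (wf F x z p) (L ^ 2) with hw
  have hw0 : ∀ p, 0 ≤ w p := fun p => le_min (wf_nonneg F x z p) (by positivity)
  have hwL : ∀ p, w p ≤ L ^ 2 := fun p => min_le_right _ _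
  have hN3' : 3 ≤ x := by omega
  have hnw : ∀ n, ‖wG F x z n‖ ≤ 1 := fun n => norm_wG F x z n hN3'
  -- the logarithmic sum
  have e1 : ∑ p ∈ Pn e G N x, w p * ell G N p = L ^ 2 * (LG e G N x (wG F x z)).re := by
    unfold LG wG
    rw [Complex.re_sum, mul_sum]
    apply sum_congr rfl
    intro p _
    rw [← Complex.ofReal_mul, Complex.ofReal_re]
    change w p * ell G N p = L ^ 2 * (w p / L ^ 2 * ell G N p)
    field_simp
  have e2 := LG_near e G N x z X' n0 hGN.Xx hn0 hGN.seg (wG F x z) hnw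
  have e3 : (LG e G N x (wG F x z)).re ≤ V * ∑ p ∈ Ps e (HN G N) X' z, w p / L ^ 2 + x / L ^ 8 + n0 * V := by
    have f2 : (((V : ℝ) : ℂ) * ∑ p ∈ Ps e (HN G N) X' z, wG F x z p).re = V * ∑ p ∈ Ps e (HN G N) X' z, w p / L ^ 2 := by
      unfold wG
      rw [← Complex.ofReal_sum, ← Complex.ofReal_mul, Complex.ofReal_re]
    have f3 := (abs_le.1 ((Complex.abs_re_le_norm _).trans e2)).2
    rw [Complex.sub_re, f2] at f3
    linarith
  have hn0V : n0 * V ≤ x / L ^ 8 := by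
    rw [le_div_iff₀ (by positivity)]
    calc (n0 : ℝ) * V * L ^ 8 ≤ n0 * L * L ^ 8 := by gcongr
      _ = n0 * L ^ 9 := by ring
      _ ≤ x := a7
  have hxX : ∀ j : ℕ, (x : ℝ) / L ^ (4 + j) ≤ X := by
    intro j
    refine le_trans ?_ c1
    apply div_le_div_of_nonneg_left hx0.le (by positivity)
    exact pow_le_pow_right₀ hL1 (by omega)
  have e4 : V * ∑ p ∈ Ps e (HN G N) X' z, w p ≤ C1 * (1 + ll) * X + X := by
    calc V * ∑ p ∈ Ps e (HN G N) X' z, w p ≤ V * ∑ p ∈ Ps e (HN G N) X' z, wf F x z p := by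
          apply mul_le_mul_of_nonneg_left _ hV0.le
          exact sum_le_sum fun p _ => min_le_left _ _
      _ ≤ V * (C1 * (1 + ll) * (PI e X' * Wn e (HN G N) z) + x / L ^ 8) := mul_le_mul_of_nonneg_left hwf hV0.le
      _ = C1 * (1 + ll) * X + V * (x / L ^ 8) := by rw [hX]; unfold Xn; rw [← hV]; ring
      _ ≤ C1 * (1 + ll) * X + L * (x / L ^ 8) := by
          apply add_le_add le_rfl
          exact mul_le_mul_of_nonneg_right hVs (by positivity)
      _ = C1 * (1 + ll) * X + x / L ^ (4 + 3) := by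
          congr 1
          rw [show (8 : ℕ) = (4 + 3) + 1 by norm_num, pow_succ L (4 + 3)]
          field_simp
      _ ≤ _ := add_le_add le_rfl (hxX 3)
  have e5 : ∑ p ∈ Pn e G N x, w p * ell G N p ≤ (C1 + 3) * (1 + ll) * X := by
    rw [e1]
    have f1 : L ^ 2 * (LG e G N x (wG F x z)).re ≤ V * ∑ p ∈ Ps e (HN G N) X' z, w p + x / L ^ (4 + 2) + x / L ^ (4 + 2) := by
      have f2 := mul_le_mul_of_nonneg_left (e3.trans (add_le_add le_rfl hn0V)) (show 0 ≤ L ^ 2 by positivity)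
      have f3 : L ^ 2 * (V * ∑ p ∈ Ps e (HN G N) X' z, w p / L ^ 2 + x / L ^ 8 + x / L ^ 8) =
          V * ∑ p ∈ Ps e (HN G N) X' z, w p + x / L ^ (4 + 2) + x / L ^ (4 + 2) := by
        rw [← sum_div, show (8 : ℕ) = (4 + 2) + 2 by norm_num, pow_add L (4 + 2) 2]
        field_simp
      rw [f3] at f2
      exact f2
    have f7 := hxX 2
    have f8 : 0 ≤ ll * X := by positivity
    nlinarith
  -- removing the logarithm
  have e6 : Λ * ∑ p ∈ Pn e G N x, w p ≤ 2 * ∑ p ∈ Pn e G N x, w p * ell G N p +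
      Λ * L ^ 2 * smC G x ((x : ℝ) ^ G.natDegree / L ^ U2) N := by
    have f1 : ∀ p ∈ Pn e G N x, Λ * w p ≤ 2 * (w p * ell G N p) + Λ * L ^ 2 *
        (if 1 ≤ (N : ℤ) - G.eval (p : ℤ) ∧ (((N : ℤ) - G.eval (p : ℤ) : ℤ) : ℝ) ≤ (x : ℝ) ^ G.natDegree / L ^ U2 then (1 : ℝ) else 0) := by
      intro p hp
      unfold Pn at hp
      rw [mem_filter] at hp
      have hpos : 1 ≤ (N : ℤ) - G.eval (p : ℤ) := by
        have := hp.2.2.pos
        omega
      have g2 : 0 ≤ ell G N p := Real.log_natCast_nonneg _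
      split_ifs with hc
      · have g3 : Λ * w p ≤ Λ * L ^ 2 := mul_le_mul_of_nonneg_left (hwL p) hΛ0.le
        have g4 := mul_nonneg (hw0 p) g2
        linarith
      · have g3 := b2 p hp.1 (by
          by_contra h4
          push Not at h4
          exact hc ⟨hpos, h4⟩)
        rw [mul_zero, add_zero]
        have g4 : Λ ≤ 2 * ell G N p := by linarith
        calc Λ * w p ≤ (2 * ell G N p) * w p := mul_le_mul_of_nonneg_right g4 (hw0 p)
          _ = _ := by ring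
    rw [mul_sum]
    refine (sum_le_sum f1).trans ?_
    rw [sum_add_distrib, ← mul_sum, ← mul_sum]
    apply add_le_add le_rfl
    apply mul_le_mul_of_nonneg_left _ (by positivity)
    unfold smC Pn
    refine le_trans ?_ (sum_le_sum_of_subset_of_nonneg (filter_subset (fun n : ℕ => ar e n ∧ ((N : ℤ) - G.eval (n : ℤ)).toNat.Prime) (Icc 1 x)) ?_)
    · apply le_of_eq
      apply sum_congr rfl
      intro n _
      congr
    · intro n _ _
      split_ifs <;> norm_num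
  have e7 : Λ * L ^ 2 * smC G x ((x : ℝ) ^ G.natDegree / L ^ U2) N ≤ G.natDegree * X := by
    calc Λ * L ^ 2 * smC G x ((x : ℝ) ^ G.natDegree / L ^ U2) N ≤ Λ * L ^ 2 * (x / L ^ 8) := mul_le_mul_of_nonneg_left hsm (by positivity)
      _ = G.natDegree * (x / L ^ (4 + 1)) := by
          rw [hΛ, show (8 : ℕ) = (4 + 1) + 3 by norm_num, pow_add L (4 + 1) 3]
          field_simp
      _ ≤ _ := mul_le_mul_of_nonneg_left (hxX 1) (by positivity)
  have e8 : Λ * ∑ p ∈ Pn e G N x, w p ≤ Λ * ((4 * C1 + 16 + 4 * G.natDegree) * (1 + ll) * (Pn e G N x).card) := by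
    have hdX : 0 ≤ (G.natDegree : ℝ) * X := by positivity
    calc Λ * ∑ p ∈ Pn e G N x, w p ≤ 2 * ((C1 + 3) * (1 + ll) * X) + G.natDegree * X :=
          e6.trans (add_le_add (mul_le_mul_of_nonneg_left e5 (by norm_num)) e7)
      _ ≤ (2 * C1 + 8 + 2 * G.natDegree) * (1 + ll) * X := by
          have f8 : 0 ≤ ll * X := by positivity
          have f9 : 0 ≤ ll * (G.natDegree * X) := by positivity
          nlinarith
      _ ≤ (2 * C1 + 8 + 2 * G.natDegree) * (1 + ll) * (2 * (Λ * (Pn e G N x).card)) :=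
          mul_le_mul_of_nonneg_left c2 (by positivity)
      _ = _ := by ring
  exact le_of_mul_le_mul_left e8 hΛ0

end Pool.Agent.K4H18.GV
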