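import Pool.Agent.K4H18.GV.G12

set_option autoImplicit false

/-! The characteristic function of the standardised numbers of prime factors over the arguments of a good `N`. -/

namespace Pool.Agent.K4H18.GV

open Finset Polynomial
open Pool.Agent.H373R2.T7 (pz mem_pz Vz Vz_pos Vz_inv_small ev_L')
open Pool.Agent.K4H18.EK (PP mem_PP YN mN Fex norm_Fex Fex_zero hh wf wf_nonneg wG norm_wG ev_lam ZZ lam_near z_le_Y om om_fam
  few_zeros cntP Y8 gN fq Fqs fq_dense exp_dist gauss_dist norm_exp_I)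

/-- one prime -/
lemma one_prime' {k : ℕ} (F : Fin k → ℤ[X]) (E W B : ℕ) (T0 : ℝ) (hT0 : 0 ≤ T0) : ∃ (K : ℝ) (N0 : ℕ), 0 ≤ K ∧ ∀ N : ℕ, N0 ≤ N →
    ∀ z : ℕ, (z : ℝ) ≤ Real.log N ^ E → ∀ n : ℕ, (N : ℝ) / Real.log N ^ W ≤ n → n ≤ B * N →
    ∀ p : ℕ, 1 ≤ p → p ≤ B * N → (∀ i, (F i).eval (p : ℤ) ≠ 0) →
    ∀ t t' : Fin k → ℝ, (∀ i, |t i| ≤ T0) → (∀ i, |t i - t' i| ≤ 1 / Real.log N) →
      |ZZ F n t p - ∑ i, t' i / √(Real.log (Real.log N)) * (cntP (F i) (PP z (YN N)) p - Real.log (Real.log N))| ≤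
        K * (1 + min (wf F N z p) (Real.log N ^ 2)) / √(Real.log (Real.log N)) := by
  obtain ⟨N1, h1⟩ := lam_near W B
  obtain ⟨N2, h2⟩ := z_le_Y E
  obtain ⟨c, N3, hc, h3⟩ := om_fam F B
  obtain ⟨N4, h4⟩ := ev_lam 1 1 one_pos
  obtain ⟨N5, h5⟩ := ev_L' (k * c + 1)
  set M : ℝ := W + B with hM
  have hM0 : 0 ≤ M := by positivity
  have hc0 : (0 : ℝ) ≤ c := Nat.cast_nonneg _
  have hk0 : (0 : ℝ) ≤ k := Nat.cast_nonneg _
  -- the constant for one polynomial
  set K1 : ℝ := T0 * (4 * M + 4 * (c + 1) * M) + (c + 1) + (T0 + 1) * (c + 1) with hK1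
  have hK10 : 0 ≤ K1 := by positivity
  refine ⟨k * K1 + K1, max (max N1 N2) (max (max N3 N4) (max N5 3)), by positivity,
    fun N hN z hzE n hnN hnB p hp1 hpn hp t t' ht ht' => ?_⟩
  obtain ⟨l1, l2, l3⟩ := h1 N (by omega) n hnN hnB
  have hzY := h2 N (by omega) z hzE
  have hom := h3 N (by omega) z hzY p hp1 hpn
  obtain ⟨-, a1, -⟩ := h4 N (by omega)
  have a5 := h5 N (by omega)
  have hN3 : (3 : ℝ) ≤ N := by exact_mod_cast (by omega : 3 ≤ N)
  have hN0 : (0 : ℝ) < N := by linarith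
  set L := Real.log N with hL
  set lam := Real.log L with hlam
  set ln := Real.log (Real.log n) with hln
  set σ := √lam with hσ
  set τ := √ln with hτ
  have hL1 : 1 ≤ L := by
    have : 0 ≤ (k : ℝ) * c := by positivity
    linarith
  have hL0 : 0 < L := by linarith
  have hlam0 : 0 < lam := by linarith
  have hln0 : 0 < ln := by linarith
  have hσ1 : 1 ≤ σ := by rw [hσ, Real.one_le_sqrt]; exact a1
  have hτ1 : 1 ≤ τ := by rw [hτ, Real.one_le_sqrt]; exact l1
  have hσ0 : 0 < σ := by linarith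
  have hτ0 : 0 < τ := by linarith
  have hσ2 : σ * σ = lam := Real.mul_self_sqrt hlam0.le
  have hτ2 : τ * τ = ln := Real.mul_self_sqrt hln0.le
  have hστ : σ ≤ 2 * τ := by
    rw [hσ]
    apply Real.sqrt_le_iff.2
    exact ⟨by positivity, by rw [mul_pow, sq τ, hτ2]; linarith⟩
  have hlamL : lam ≤ L := by
    have := Real.log_le_sub_one_of_pos hL0
    linarith
  -- the difference of the standardisations
  have hd : |lam - ln| ≤ 2 * M * lam / L := by rw [abs_sub_comm]; exact l3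
  -- the weights
  have hwf : wf F N z p ≤ L ^ 2 := by
    have h6 : wf F N z p ≤ ∑ _i : Fin k, c * L := by
      unfold wf
      apply sum_le_sum
      intro i _
      obtain ⟨-, e2, -, e4⟩ := hom i (hp i)
      exact e2.trans e4
    rw [sum_const, card_univ, Fintype.card_fin, nsmul_eq_mul] at h6
    calc wf F N z p ≤ k * (c * L) := h6
      _ = (k * c) * L := by ring
      _ ≤ L * L := mul_le_mul_of_nonneg_right (by linarith) hL0.le
      _ = L ^ 2 := by ring
  rw [min_eq_left hwf]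
  -- one term
  have hterm : ∀ i, |t i * ((om (F i) p - ln) / τ) - t' i / σ * (cntP (F i) (PP z (YN N)) p - lam)| ≤
      (K1 + K1 * ((cntP (F i) (pz z) p : ℝ) + cntP (F i) (PP (YN N) (Y8 N)) p)) / σ := by
    intro i
    obtain ⟨e1, e2, e3, e4⟩ := hom i (hp i)
    set w := om (F i) p with hw
    set v : ℝ := (cntP (F i) (PP z (YN N)) p : ℝ) with hv
    set r : ℝ := (cntP (F i) (pz z) p : ℝ) + cntP (F i) (PP (YN N) (Y8 N)) p with hr
    have hr0 : 0 ≤ r := by positivity
    have hw0 : 0 ≤ w := by rw [hw]; unfold om; positivity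
    have hwlam : |w - lam| ≤ (c + 1) * L := by
      rw [abs_le]
      constructor
      · nlinarith
      · nlinarith
    have hident : t i * ((w - ln) / τ) - t' i / σ * (v - lam) =
        t i * ((lam - ln) / τ + (w - lam) * (1 / τ - 1 / σ)) + (t i - t' i) * (w - lam) / σ + t' i * (w - v) / σ := by
      field_simp
      ring
    rw [hident]
    -- the three parts
    have f1 : |(lam - ln) / τ| ≤ 4 * M / σ := by
      rw [abs_div, abs_of_pos hτ0]
      have g1 : |lam - ln| ≤ 2 * M := by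
        refine hd.trans ?_
        rw [div_le_iff₀ hL0]
        exact mul_le_mul_of_nonneg_left hlamL (by positivity)
      rw [div_le_div_iff₀ hτ0 hσ0]
      calc |lam - ln| * σ ≤ (2 * M) * (2 * τ) := mul_le_mul g1 hστ hσ0.le (by positivity)
        _ = _ := by ring
    have f2 : |(w - lam) * (1 / τ - 1 / σ)| ≤ 4 * (c + 1) * M / σ := by
      have g1 : 1 / τ - 1 / σ = (lam - ln) / (τ * σ * (σ + τ)) := by
        have : lam - ln = (σ + τ) * (σ - τ) := by rw [← hσ2, ← hτ2]; ring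
        rw [this]
        field_simp
      rw [g1, abs_mul, abs_div, abs_of_pos (show 0 < τ * σ * (σ + τ) by positivity)]
      have g2 : |w - lam| * |lam - ln| ≤ (c + 1) * L * (2 * M * lam / L) := mul_le_mul hwlam hd (abs_nonneg _) (by positivity)
      have g3 : (c + 1) * L * (2 * M * lam / L) = 2 * (c + 1) * M * lam := by field_simp
      rw [g3] at g2
      rw [← mul_div_assoc, div_le_div_iff₀ (by positivity) hσ0]
      calc |w - lam| * |lam - ln| * σ ≤ (2 * (c + 1) * M * lam) * σ := mul_le_mul_of_nonneg_right g2 hσ0.le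
        _ ≤ (2 * (c + 1) * M * lam) * (2 * τ) := mul_le_mul_of_nonneg_left hστ (by positivity)
        _ = 4 * (c + 1) * M * (τ * (σ * σ)) := by rw [hσ2]; ring
        _ ≤ 4 * (c + 1) * M * (τ * σ * (σ + τ)) := by
            apply mul_le_mul_of_nonneg_left _ (by positivity)
            have : 0 ≤ τ * σ * τ := by positivity
            nlinarith
    have f3 : |t i * ((lam - ln) / τ + (w - lam) * (1 / τ - 1 / σ))| ≤ T0 * (4 * M + 4 * (c + 1) * M) / σ := by
      rw [abs_mul]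
      have g1 : |(lam - ln) / τ + (w - lam) * (1 / τ - 1 / σ)| ≤ (4 * M + 4 * (c + 1) * M) / σ := by
        refine (abs_add_le _ _).trans ?_
        rw [add_div]
        exact add_le_add f1 f2
      rw [mul_div_assoc]
      exact mul_le_mul (ht i) g1 (abs_nonneg _) hT0
    have f4 : |(t i - t' i) * (w - lam) / σ| ≤ (c + 1) / σ := by
      rw [abs_div, abs_of_pos hσ0, abs_mul]
      apply div_le_div_of_nonneg_right _ hσ0.le
      calc |t i - t' i| * |w - lam| ≤ (1 / L) * ((c + 1) * L) := mul_le_mul (ht' i) hwlam (abs_nonneg _) (by positivity)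
        _ = c + 1 := by field_simp
    have f5 : |t' i * (w - v) / σ| ≤ (T0 + 1) * (r + c) / σ := by
      rw [abs_div, abs_of_pos hσ0, abs_mul]
      apply div_le_div_of_nonneg_right _ hσ0.le
      have g1 : |t' i| ≤ T0 + 1 := by
        have g2 : |t' i| ≤ |t i| + |t i - t' i| := by
          have := abs_sub_abs_le_abs_sub (t' i) (t i)
          rw [abs_sub_comm (t' i)] at this
          linarith
        have g3 : 1 / L ≤ 1 := by rw [div_le_one hL0]; exact hL1
        have := ht i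
        have := ht' i
        linarith
      have g2 : |w - v| ≤ r + c := by
        rw [abs_of_nonneg (by linarith)]
        linarith
      exact mul_le_mul g1 g2 (abs_nonneg _) (by positivity)
    have f6 := (abs_add_le _ _).trans (add_le_add ((abs_add_le _ _).trans (add_le_add f3 f4)) f5)
    refine f6.trans ?_
    rw [← add_div, ← add_div]
    apply div_le_div_of_nonneg_right _ hσ0.le
    have g1 : (T0 + 1) * (r + c) ≤ (T0 + 1) * (c + 1) + K1 * r := by
      have g2 : (T0 + 1) * r ≤ K1 * r := by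
        apply mul_le_mul_of_nonneg_right _ hr0
        rw [hK1]
        have g3 : 0 ≤ T0 * (4 * M + 4 * (c + 1) * M) := by positivity
        have g4 : 0 ≤ (T0 + 1) * c := by positivity
        nlinarith
      nlinarith
    linarith
  unfold ZZ
  rw [← sum_sub_distrib]
  refine (abs_sum_le_sum_abs _ _).trans ((sum_le_sum fun i _ => hterm i).trans ?_)
  rw [← sum_div]
  apply div_le_div_of_nonneg_right _ hσ0.le
  rw [sum_add_distrib, sum_const, card_univ, Fintype.card_fin, nsmul_eq_mul, ← mul_sum]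
  have hw0 := wf_nonneg F N z p
  have e : ∑ i, ((cntP (F i) (pz z) p : ℝ) + cntP (F i) (PP (YN N) (Y8 N)) p) = wf F N z p := rfl
  rw [e]
  have : 0 ≤ k * K1 * wf F N z p := by positivity
  nlinarith

/-- the analytic conditions on a number `N` -/
def AG {k : ℕ} (e : Bool) (G : ℤ[X]) (F : Fin k → ℤ[X]) (x z N : ℕ) : Prop :=
  (∀ u ∈ Fqs k x, ‖DC e G N x z (Fex F x z (fq x u))‖ ≤ x / Real.log x ^ 8) ∧
  ‖DC e G N x z (wG F x z)‖ ≤ x / Real.log x ^ 8

theorem det_gauss {k : ℕ} (e : Bool) (G : ℤ[X]) (hG : 1 ≤ G.natDegree) (K0 B U2 n0 : ℕ) (hn0 : 1 ≤ n0) (F : Fin k → ℤ[X])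
    (hF : Fam e F) (R D : ℕ) (hf : Facts e F R D) (E : ℕ) (T0 ε : ℝ) (hT0 : 0 ≤ T0)
    (hε : 0 < ε) (hε1 : ε ≤ 1 / 8) : ∃ N0 : ℕ, ∀ x : ℕ, N0 ≤ x → ∀ z : ℕ, R ≤ z → 3 ≤ z → (z : ℝ) ≤ Real.log x ^ E →
      ∀ N X' : ℕ, GoodN e G K0 B U2 x z N X' n0 → ∀ n : ℕ, (x : ℝ) / Real.log x ^ 1 ≤ n → n ≤ 1 * x → AG e G F x z N →
      0 < (Pn e G N x).card ∧ ∀ t : Fin k → ℝ, (∀ i, |t i| ≤ T0) →
      ‖∑ p ∈ Pn e G N x, Complex.exp (Complex.I * (ZZ F n t p : ℂ)) -
        ((Pn e G N x).card : ℂ) * ((Real.exp (-∑ i, t i ^ 2 / 2) : ℝ) : ℂ)‖ ≤ 20 * ε * (Pn e G N x).card := by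
  classical
  obtain ⟨N1, h1⟩ := det_char e G hG K0 B U2 n0 hn0 F R D hf E (T0 + 1) ε (by linarith) hε hε1
  obtain ⟨N2, h2⟩ := model_limit e F hF R D hf E (T0 + 1) ε (by linarith) hε
  obtain ⟨C3, N3, hC3, h3⟩ := det_wf e G hG K0 B U2 n0 hn0 F R D hf E
  obtain ⟨K, N4, hK, h4⟩ := one_prime' F E 1 1 T0 hT0
  obtain ⟨N5, h5⟩ := fq_dense (k := k) T0
  obtain ⟨c0, h6⟩ := few_zeros F (fun i => (hF.irr i).ne_zero)
  obtain ⟨N7, h7⟩ := Pool.Agent.K4H18.EK.ev_pow 5 (2 * G.natDegree * (2 * c0 / ε + 1)) 1 one_pos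
  obtain ⟨N8, h8⟩ := ev_lam (K * (1 + C3)) ε hε
  obtain ⟨N9, h9⟩ := ev_L' (k * (T0 + 1) / ε + 3)
  refine ⟨max (max (max N1 N2) (max N3 N4)) (max (max (max N5 3) (max N7 N8)) N9),
    fun x hx z hzR hz3' hzE N X' hGN n hnN hnB hAG => ?_⟩
  have hx3 : (3 : ℝ) ≤ x := by exact_mod_cast (by omega : 3 ≤ x)
  have hx0 : (0 : ℝ) < x := by linarith
  have b7 := h7 x (by omega)
  rw [Real.rpow_one] at b7
  obtain ⟨a0, a1, a2⟩ := h8 x (by omega)
  have a9 := h9 x (by omega)
  set L := Real.log x with hL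
  set lam := Real.log L with hlam
  set σ := √lam with hσ
  have hkT : 0 ≤ k * (T0 + 1) / ε := by positivity
  have hL3 : 3 ≤ L := by linarith
  have hL0 : 0 < L := by linarith
  have hσ1 : 1 ≤ σ := by rw [hσ, Real.one_le_sqrt]; exact a1
  have hσ0 : 0 < σ := by linarith
  have hlam0 : 0 < lam := by linarith
  have hσ2 : σ * σ = lam := Real.mul_self_sqrt hlam0.le
  have hd1 : (1 : ℝ) ≤ G.natDegree := by exact_mod_cast hG
  -- the conditions
  have hu0 : (0 : Fin k → ℤ) ∈ Fqs k x := by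
    unfold Fqs
    rw [Fintype.mem_piFinset]
    intro i
    rw [mem_Icc]
    constructor
    · have : (0 : ℤ) ≤ (gN x : ℤ) ^ 3 := by positivity
      simp only [Pi.zero_apply]
      linarith
    · positivity
  have hD1 : ‖DC e G N x z (fun _ => 1)‖ ≤ x / L ^ 8 := by
    have h := hAG.1 0 hu0
    have e0 : fq x (0 : Fin k → ℤ) = 0 := by
      funext i
      unfold fq
      simp
    rwa [e0, Fex_zero] at h
  obtain ⟨c1, c2, -, c4⟩ := h1 x (by omega) z hzR hz3' hzE N X' hGN hD1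
  -- the number of arguments is large
  have hglarge : 2 * c0 / ε + 1 ≤ ((Pn e G N x).card : ℝ) := by
    have f1 : (x : ℝ) ≤ 2 * (G.natDegree * L * (Pn e G N x).card) * L ^ 4 := by
      have := c1.trans c2
      rwa [div_le_iff₀ (by positivity)] at this
    have f2 : 2 * G.natDegree * (2 * c0 / ε + 1) * L ^ 5 ≤ (2 * G.natDegree * L ^ 5) * (Pn e G N x).card := by
      calc 2 * G.natDegree * (2 * c0 / ε + 1) * L ^ 5 ≤ x := b7
        _ ≤ _ := f1
        _ = _ := by ring
    have f3 : (2 * G.natDegree * L ^ 5) * (2 * c0 / ε + 1) ≤ (2 * G.natDegree * L ^ 5) * (Pn e G N x).card := by linarith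
    exact le_of_mul_le_mul_left f3 (by positivity)
  have hcε : 0 ≤ 2 * c0 / ε := by positivity
  have hg0 : (0 : ℝ) < ((Pn e G N x).card : ℝ) := by linarith
  have hg0' : 0 < (Pn e G N x).card := by exact_mod_cast hg0
  refine ⟨hg0', fun t ht => ?_⟩
  obtain ⟨u, hu, hut⟩ := h5 x (by omega) t ht
  set t' := fq x u with ht'
  have ht1 : ∀ i, |t' i| ≤ T0 + 1 := by
    intro i
    have g3 : 1 / L ≤ 1 := by rw [div_le_one hL0]; linarith
    have g1 := ht i
    have g2 := hut i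
    rw [abs_le] at g1 g2 ⊢
    constructor <;> linarith
  have r1 := c4 t' ht1 (hAG.1 u hu)
  have r2 := h2 x (by omega) z hz3' hzR hzE t' ht1
  have r3 := h3 x (by omega) z hzR hz3' hzE N X' hGN hD1 hAG.2
  have r5 := gauss_dist t t' T0 (1 / L) hT0 (by positivity) (by rw [div_le_one hL0]; linarith) ht hut
  -- notation
  set P := ∏ q ∈ PP z (YN x), (1 + eta e F (fun i => t' i / σ) q) with hP
  set e1 := Complex.exp (-(Complex.I * ((∑ i, t' i * σ : ℝ) : ℂ))) with he1
  set Q := ((Real.exp (-∑ i, t i ^ 2 / 2) : ℝ) : ℂ) with hQ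
  set Q' := ((Real.exp (-∑ i, t' i ^ 2 / 2) : ℝ) : ℂ) with hQ'
  have hne1 : ‖e1‖ = 1 := by
    rw [he1, Complex.norm_exp]
    simp
  -- one prime
  have q1 : ∀ p ∈ Pn e G N x, ‖Complex.exp (Complex.I * (ZZ F n t p : ℂ)) - e1 * Fex F x z t' p‖ ≤
      (if ∃ i, (F i).eval (p : ℤ) = 0 then 2 else 0) + K * (1 + min (wf F x z p) (L ^ 2)) / σ := by
    intro p hp
    unfold Pn at hp
    rw [mem_filter, mem_Icc] at hp
    have hwf0 := wf_nonneg F x z p
    have hmin : 0 ≤ min (wf F x z p) (L ^ 2) := le_min hwf0 (by positivity)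
    have hpos : 0 ≤ K * (1 + min (wf F x z p) (L ^ 2)) / σ := by positivity
    split_ifs with hz
    · have : ‖Complex.exp (Complex.I * (ZZ F n t p : ℂ)) - e1 * Fex F x z t' p‖ ≤ 2 := by
        refine (norm_sub_le _ _).trans ?_
        rw [norm_exp_I, norm_mul, hne1, norm_Fex]
        norm_num
      linarith
    · push Not at hz
      rw [zero_add]
      have h := h4 x (by omega) z hzE n hnN hnB p hp.1.1 (by rw [one_mul]; exact hp.1.2) hz t t' ht hut
      refine le_trans ?_ h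
      have e0 : e1 * Fex F x z t' p =
          Complex.exp (Complex.I * ((∑ i, t' i / σ * (cntP (F i) (PP z (YN x)) p - lam) : ℝ) : ℂ)) := by
        rw [he1]
        unfold Fex
        rw [← Complex.exp_add]
        congr 1
        have e2 : (∑ i, t' i / σ * ((cntP (F i) (PP z (YN x)) p : ℝ) - lam)) =
            (∑ i, t' i / σ * (cntP (F i) (PP z (YN x)) p : ℝ)) - ∑ i, t' i * σ := by
          rw [← sum_sub_distrib]
          apply sum_congr rfl
          intro i _
          rw [← hσ2]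
          field_simp
        rw [e2]
        push_cast
        ring
      rw [e0]
      exact exp_dist _ _
  have q2 : ‖∑ p ∈ Pn e G N x, Complex.exp (Complex.I * (ZZ F n t p : ℂ)) - e1 * ∑ p ∈ Pn e G N x, Fex F x z t' p‖ ≤ 2 * c0 + ε * (Pn e G N x).card := by
    rw [mul_sum, ← sum_sub_distrib]
    refine (norm_sum_le _ _).trans ((sum_le_sum q1).trans ?_)
    rw [sum_add_distrib]
    apply add_le_add
    · rw [← sum_filter, sum_const, nsmul_eq_mul]
      have h := h6 (Pn e G N x)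
      have h' : (((Pn e G N x).filter (fun p : ℕ => ∃ i, (F i).eval (p : ℤ) = 0)).card : ℝ) ≤ c0 := by exact_mod_cast h
      linarith
    · rw [← sum_div, ← mul_sum, sum_add_distrib, sum_const, nsmul_eq_mul, mul_one]
      have f1 : K * (((Pn e G N x).card : ℝ) + ∑ p ∈ Pn e G N x, min (wf F x z p) (L ^ 2)) / σ ≤ (K * (1 + C3)) * (1 + Real.log lam) / σ * (Pn e G N x).card := by
        rw [div_mul_eq_mul_div]
        apply div_le_div_of_nonneg_right _ hσ0.le
        have hll : 0 ≤ Real.log lam := Real.log_nonneg a1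
        have f2 : ((Pn e G N x).card : ℝ) + ∑ p ∈ Pn e G N x, min (wf F x z p) (L ^ 2) ≤ (1 + C3) * (1 + Real.log lam) * (Pn e G N x).card := by
          have f3 : 0 ≤ Real.log lam * (Pn e G N x).card := by positivity
          nlinarith
        calc K * (((Pn e G N x).card : ℝ) + ∑ p ∈ Pn e G N x, min (wf F x z p) (L ^ 2)) ≤ K * ((1 + C3) * (1 + Real.log lam) * (Pn e G N x).card) :=
              mul_le_mul_of_nonneg_left f2 hK
          _ = _ := by ring
      refine f1.trans ?_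
      exact mul_le_mul_of_nonneg_right a2 hg0.le
  -- the total
  have q3 : ‖e1 * (∑ p ∈ Pn e G N x, Fex F x z t' p) - ((Pn e G N x).card : ℂ) * (e1 * P)‖ ≤ 12 * ε * (Pn e G N x).card := by
    have e0 : e1 * (∑ p ∈ Pn e G N x, Fex F x z t' p) - ((Pn e G N x).card : ℂ) * (e1 * P) = e1 * ((∑ p ∈ Pn e G N x, Fex F x z t' p) - ((Pn e G N x).card : ℂ) * P) := by ring
    rw [e0, norm_mul, hne1, one_mul]
    exact r1
  have q4 : ‖((Pn e G N x).card : ℂ) * (e1 * P) - ((Pn e G N x).card : ℂ) * Q'‖ ≤ (Pn e G N x).card * ε := by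
    rw [← mul_sub, norm_mul, Complex.norm_natCast]
    exact mul_le_mul_of_nonneg_left r2 hg0.le
  have q5 : ‖((Pn e G N x).card : ℂ) * Q' - ((Pn e G N x).card : ℂ) * Q‖ ≤ (Pn e G N x).card * ε := by
    rw [← mul_sub, norm_mul, Complex.norm_natCast]
    apply mul_le_mul_of_nonneg_left _ hg0.le
    rw [hQ, hQ', ← Complex.ofReal_sub, Complex.norm_real, Real.norm_eq_abs, abs_sub_comm]
    refine r5.trans ?_
    rw [mul_one_div, div_le_iff₀ hL0]
    have f1 : k * (T0 + 1) / ε ≤ L := by linarith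
    rw [div_le_iff₀ hε] at f1
    linarith
  have q6 : 2 * (c0 : ℝ) ≤ ε * (Pn e G N x).card := by
    have f1 : 2 * c0 / ε ≤ (Pn e G N x).card := by linarith
    rw [div_le_iff₀ hε] at f1
    linarith
  have e0 : ∑ p ∈ Pn e G N x, Complex.exp (Complex.I * (ZZ F n t p : ℂ)) - ((Pn e G N x).card : ℂ) * Q =
      (∑ p ∈ Pn e G N x, Complex.exp (Complex.I * (ZZ F n t p : ℂ)) - e1 * ∑ p ∈ Pn e G N x, Fex F x z t' p) +
      (e1 * (∑ p ∈ Pn e G N x, Fex F x z t' p) - ((Pn e G N x).card : ℂ) * (e1 * P)) +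
      (((Pn e G N x).card : ℂ) * (e1 * P) - ((Pn e G N x).card : ℂ) * Q') + (((Pn e G N x).card : ℂ) * Q' - ((Pn e G N x).card : ℂ) * Q) := by ring
  rw [e0]
  have q7 := (norm_add_le _ _).trans (add_le_add ((norm_add_le _ _).trans (add_le_add ((norm_add_le _ _).trans (add_le_add q2 q3)) q4)) q5)
  refine q7.trans ?_
  have hεg : 0 ≤ ε * (Pn e G N x).card := by positivity
  linarith

end Pool.Agent.K4H18.GV
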