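import Pool.Agent.K4H18.GV.G13
import Pool.Agent.K4H18.EK.A22
import Pool.Agent.K4H18.CH.H10

set_option autoImplicit false

/-! The joint Gaussian law over the arguments, for almost all `N`. -/

namespace Pool.Agent.K4H18.GV

open Finset Polynomial
open Pool.Agent.H373R2.T7 (pz mem_pz Vz Vz_pos Vz_inv_small ev_L' markov)
open Pool.Agent.H373R2.T7.TB (smC smC_sum smC_nonneg seg_one)
open Pool.Agent.H373R2.T7.SHN (X1)
open Pool.Agent.H474R2.PG (rho PR Sg)
open Pool.Agent.K4H18.EK (PP mem_PP YN mN Fex norm_Fex Fex_zero hh wf wf_nonneg wG norm_wG ev_lam ZZ lam_near z_le_Y om om_fam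
  few_zeros cntP Y8 gN fq Fqs fq_dense exp_dist gauss_dist norm_exp_I Ph bc levy_uniform card_Fqs)

/-- the Gaussian law at `N` -/
def Gs {k : ℕ} (e : Bool) (G : ℤ[X]) (F : Fin k → ℤ[X]) (ε : ℝ) (x N : ℕ) : Prop :=
  X1 G N ≤ x ∧ 0 < (Pn e G N x).card ∧ 1 ≤ Real.log (Real.log (X1 G N)) ∧ ∀ t : Fin k → ℝ,
    |bc (Pn e G N x) (fun p i => (om (F i) p - Real.log (Real.log (X1 G N))) / √(Real.log (Real.log (X1 G N)))) t -
      (Pn e G N x).card * ∏ i, Ph (t i)| ≤ ε * (Pn e G N x).card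

/-- no fixed divisor -/
def NoFx (e : Bool) (G : ℤ[X]) (N : ℕ) : Prop :=
  ∀ q : ℕ, q.Prime → ∃ n : ℤ, (e = true → ¬ (q : ℤ) ∣ n) ∧ ¬ (q : ℤ) ∣ (N : ℤ) - G.eval n

lemma nf_of (e : Bool) (G : ℤ[X]) (N z : ℕ) (h : NoFx e G N) : NF e (HN G N) z := by
  intro q hq
  obtain ⟨hqz, hqp⟩ := mem_pz.1 hq
  obtain ⟨n, hn1, hn2⟩ := h q hqp
  have hq0 : (0 : ℤ) < q := by exact_mod_cast hqp.pos
  have h0 : 0 ≤ n % q := Int.emod_nonneg _ hq0.ne'
  have h1 : n % q < q := Int.emod_lt_of_pos _ hq0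
  have hb : (((n % q).toNat : ℕ) : ℤ) = n % q := Int.toNat_of_nonneg h0
  refine ⟨(n % q).toNat, mem_range.2 (by omega), fun he hb0 => ?_, fun hd => ?_⟩
  · apply hn1 he
    apply Int.dvd_of_emod_eq_zero
    omega
  · rw [hb] at hd
    apply hn2
    have h2 : (q : ℤ) ∣ n - n % q := Int.dvd_self_sub_emod
    have h3 : (q : ℤ) ∣ (HN G N).eval n - (HN G N).eval (n % q) := h2.trans (sub_dvd_eval_sub _ _ _)
    have h4 := dvd_add h3 hd
    rw [sub_add_cancel, HN_eval] at h4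
    exact h4

lemma roots_of (e : Bool) (G : ℤ[X]) (N z : ℕ) (h : NoFx e G N) : ∀ q ∈ pz z, rho (HN G N) q ≤ G.natDegree := by
  intro q hq
  obtain ⟨hqz, hqp⟩ := mem_pz.1 hq
  obtain ⟨n, -, hn2⟩ := h q hqp
  have h1 := Pool.Agent.H373R2.T7.PB.roots_nz (HN G N) q hqp ⟨n, by rw [HN_eval]; exact hn2⟩
  refine le_trans h1 ?_
  unfold HN
  refine (natDegree_sub_le _ _).trans ?_
  rw [natDegree_C]
  omega

open Classical in
theorem gauss_x {k : ℕ} (e : Bool) (G : ℤ[X]) (hG : 1 ≤ G.natDegree) (hGl : 0 < G.leadingCoeff) (F : Fin k → ℤ[X])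
    (hF : Fam e F) (B U : ℕ) (κ : ℝ) (hB : 1 ≤ B) (hκ : 0 < κ) (ε : ℝ) (hε : 0 < ε) :
    ∃ x0 : ℕ, ∀ x : ℕ, x0 ≤ x → ∀ M : ℕ, M ≤ B * x ^ G.natDegree → x ^ G.natDegree ≤ B * M →
    (∀ n : ℕ, x < n → (M : ℤ) ≤ G.eval (n : ℤ)) →
    (((Icc 1 M).filter (fun N : ℕ => ¬ (κ * x ≤ (X1 G N : ℝ) → NoFx e G N → Gs e G F ε x N))).card : ℝ) ≤
      M / Real.log x ^ U := by
  obtain ⟨R, D, hf⟩ := exists_facts e F hF
  obtain ⟨T0, δ, hT0, hδ, hlevy⟩ := levy_uniform k ε hε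
  set ε' : ℝ := min (1 / 8) (δ / 20) with hε'
  have hε'0 : 0 < ε' := by
    rw [hε', lt_min_iff]
    exact ⟨by norm_num, by positivity⟩
  have hε'1 : ε' ≤ 1 / 8 := min_le_left _ _
  have hε'3 : 20 * ε' ≤ δ := by
    have : ε' ≤ δ / 20 := min_le_right _ _
    linarith
  obtain ⟨n0, hn0, hseg⟩ := seg_one G hG hGl
  obtain ⟨B0, hB0⟩ := few_bad e G hG hGl B hB (U + 2) 8 (4 * k + 1)
  set B1 := max B0 3 with hB1
  obtain ⟨N3, h3⟩ := hB0 (B1 + 1)
  obtain ⟨N4, h4⟩ := det_gauss e G hG G.natDegree B (8 + (U + 2)) n0 hn0 F hF R D hf (B1 + 1) T0 ε' hT0 hε'0 hε'1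
  obtain ⟨N5, h5⟩ := card_Fqs k
  obtain ⟨N6, h6⟩ := ev_L' (R + B + 4 + 2 / κ)
  obtain ⟨N7, h7⟩ := lam_near 1 1
  refine ⟨max (max N3 N4) (max (max N5 N6) (max (max N7 3) ⌈2 * n0 / κ⌉₊)), fun x hx M hM1 hM2 hMn => ?_⟩
  have hx3 : (3 : ℝ) ≤ x := by exact_mod_cast (by omega : 3 ≤ x)
  have hx0 : (0 : ℝ) < x := by linarith
  have a6 := h6 x (by omega)
  have a8 : ⌈2 * n0 / κ⌉₊ ≤ x := by omega
  set L := Real.log x with hL
  have hR0 : (0 : ℝ) ≤ R := Nat.cast_nonneg _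
  have hBr : (1 : ℝ) ≤ B := by exact_mod_cast hB
  have hκ2 : 0 < 2 / κ := by positivity
  have hL4 : 4 ≤ L := by linarith
  have hL1 : 1 ≤ L := by linarith
  have hL0 : 0 < L := by linarith
  have hM0 : (0 : ℝ) ≤ M := Nat.cast_nonneg _
  have hn0x : 2 * (n0 : ℝ) ≤ κ * x := by
    have := (Nat.le_ceil (2 * (n0 : ℝ) / κ)).trans (by exact_mod_cast a8 : ((⌈2 * n0 / κ⌉₊ : ℕ) : ℝ) ≤ x)
    rwa [div_le_iff₀ hκ, mul_comm (x : ℝ)] at this
  -- the parameter `z`
  set z := ⌈L ^ B1⌉₊ with hz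
  have hzlo : L ^ B1 ≤ z := Nat.le_ceil _
  have hL1B : 1 ≤ L ^ B1 := one_le_pow₀ hL1
  have hzhi : (z : ℝ) ≤ L ^ (B1 + 1) := by
    have := Nat.ceil_lt_add_one (show 0 ≤ L ^ B1 by positivity)
    calc (z : ℝ) ≤ L ^ B1 + 1 := this.le
      _ ≤ L ^ B1 + L ^ B1 := by linarith
      _ = 2 * L ^ B1 := by ring
      _ ≤ L * L ^ B1 := mul_le_mul_of_nonneg_right (by linarith) (by positivity)
      _ = L ^ (B1 + 1) := by ring
  have hzB0 : L ^ B0 ≤ z := (pow_le_pow_right₀ hL1 (le_max_left _ _)).trans hzlo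
  have hz3' : L ^ 3 ≤ z := (pow_le_pow_right₀ hL1 (le_max_right _ _)).trans hzlo
  have hLz : L ≤ z := (le_self_pow₀ hL1 (by norm_num)).trans hz3'
  have hzR : R ≤ z := by
    have : (R : ℝ) ≤ z := by linarith
    exact_mod_cast this
  have hz3 : 3 ≤ z := by
    have : (3 : ℝ) ≤ z := by linarith
    exact_mod_cast this
  -- the exceptional set
  set S := (Icc 1 M).filter (fun N : ℕ => ¬ (κ * x ≤ (X1 G N : ℝ) → NoFx e G N → Gs e G F ε x N)) with hS
  have hSM : S ⊆ Icc 1 M := filter_subset _ _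
  set S2 := (Icc 1 M).filter (fun N => x / L ^ 8 < smC G x ((x : ℝ) ^ G.natDegree / L ^ (8 + (U + 2))) N) with hS2
  set S3 := S.filter (fun N => ¬ AG e G F x z N) with hS3
  have hcover : S ⊆ S2 ∪ S3 := by
    intro N hN
    rw [mem_union, hS2, hS3, mem_filter, mem_filter]
    by_contra hcon
    rw [not_or] at hcon
    obtain ⟨g2, g3⟩ := hcon
    have hNM := hSM hN
    have g2' : smC G x ((x : ℝ) ^ G.natDegree / L ^ (8 + (U + 2))) N ≤ x / L ^ 8 := by
      by_contra hlt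
      exact g2 ⟨hNM, not_le.1 hlt⟩
    have g3' : AG e G F x z N := by
      by_contra hlt
      exact g3 ⟨hN, hlt⟩
    have hN' := hN
    rw [hS, mem_filter] at hN'
    apply hN'.2
    intro hX1 hfix
    rw [mem_Icc] at hNM
    -- the segment
    obtain ⟨X', hX'x, hX'⟩ := hseg N hNM.1 x
    have hout : ∀ n : ℕ, 0 < (N : ℤ) - G.eval (n : ℤ) → n ≤ x := by
      intro n b2
      by_contra hc
      have b4 := hMn n (not_le.1 hc)
      have b5 : (N : ℤ) ≤ M := by exact_mod_cast hNM.2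
      omega
    have hX1X' : X1 G N ≤ n0 + X' := by
      have hsub : {n : ℕ | 1 ≤ n ∧ 0 < (N : ℤ) - G.eval (n : ℤ)} ⊆ ((Icc 1 (n0 + X') : Finset ℕ) : Set ℕ) := by
        rintro n ⟨b1, b2⟩
        rw [mem_coe, mem_Icc]
        refine ⟨b1, ?_⟩
        have b3 : n ≤ x := hout n b2
        rcases Nat.lt_or_ge n n0 with b4 | b4
        · omega
        · have := (hX' n (mem_Icc.2 ⟨b4, b3⟩)).1 (by omega)
          omega
      have b1 := Set.ncard_le_ncard hsub (Finset.finite_toSet _)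
      rw [Set.ncard_coe_finset, Nat.card_Icc] at b1
      unfold X1
      omega
    have hX1x : X1 G N ≤ x := by
      have hsub : {n : ℕ | 1 ≤ n ∧ 0 < (N : ℤ) - G.eval (n : ℤ)} ⊆ ((Icc 1 x : Finset ℕ) : Set ℕ) := by
        rintro n ⟨b1, b2⟩
        rw [mem_coe, mem_Icc]
        exact ⟨b1, hout n b2⟩
      have b1 := Set.ncard_le_ncard hsub (Finset.finite_toSet _)
      rw [Set.ncard_coe_finset, Nat.card_Icc] at b1
      unfold X1
      omega
    have hX1r : (X1 G N : ℝ) ≤ n0 + X' := by exact_mod_cast hX1X'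
    have hxL : (x : ℝ) / L ^ 1 ≤ κ * x / 2 := by
      rw [pow_one, div_le_iff₀ hL0]
      have b1 : 2 / κ ≤ L := by linarith
      rw [div_le_iff₀ hκ] at b1
      nlinarith
    have hXlo : (x : ℝ) / L ^ 1 ≤ X' := by linarith
    have hX1lo : (x : ℝ) / L ^ 1 ≤ (X1 G N : ℝ) := by
      have : 0 < κ * x := by positivity
      linarith
    have hGN : GoodN e G G.natDegree B (8 + (U + 2)) x z N X' n0 :=
      { N1 := hNM.1
        NB := hNM.2.trans hM1
        Xx := hX'x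
        Xlo := hXlo
        seg := hX'
        roots := roots_of e G N z hfix
        nf := nf_of e G N z hfix
        small := g2' }
    obtain ⟨c1, c2⟩ := h4 x (by omega) z hzR hz3 hzhi N X' hGN (X1 G N) hX1lo (by omega) g3'
    obtain ⟨l1, l2, l3⟩ := h7 x (by omega) (X1 G N) hX1lo (by omega)
    refine ⟨hX1x, c1, l1, fun t => ?_⟩
    exact hlevy (Pn e G N x) (fun p i => (om (F i) p - Real.log (Real.log (X1 G N))) / √(Real.log (Real.log (X1 G N))))
      (card_pos.1 c1) (fun u hu => (c2 u hu).trans (mul_le_mul_of_nonneg_right hε'3 (Nat.cast_nonneg _))) t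
  have r2 : (S2.card : ℝ) ≤ B * M / L ^ (U + 2) := by
    apply markov _ _ (fun N _ => smC_nonneg G x _ N) _ _ (by positivity)
    refine (smC_sum G x M _ (by positivity)).trans ?_
    have hxM : (x : ℝ) ^ G.natDegree ≤ B * M := by exact_mod_cast hM2
    have f1 : (x : ℝ) * ((x : ℝ) ^ G.natDegree / L ^ (8 + (U + 2))) = (x : ℝ) / L ^ 8 * ((x : ℝ) ^ G.natDegree / L ^ (U + 2)) := by
      rw [pow_add]
      field_simp
    rw [f1]
    gcongr
  have r3 : (S3.card : ℝ) ≤ M / L ^ (U + 2) := by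
    refine h3 x (by omega) M hM1 hM2 z hzB0 hzhi (ι := Option (Fin k → ℤ)) (Finset.insertNone (Fqs k x))
      (fun o => match o with
        | none => wG F x z
        | some u => Fex F x z (fq x u)) ?_ ?_ S3 ((filter_subset _ _).trans hSM) ?_
    · rw [Finset.card_insertNone]
      push_cast
      exact h5 x (by omega)
    · intro o _ b
      cases o with
      | none => exact norm_wG F x z b (by omega)
      | some u => exact (norm_Fex F x z _ b).le
    · intro N hN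
      rw [hS3, mem_filter] at hN
      have h8 := hN.2
      unfold AG at h8
      rw [not_and_or] at h8
      rcases h8 with h8 | h8
      · rw [not_forall] at h8
        obtain ⟨u, h9⟩ := h8
        rw [Classical.not_imp, not_le] at h9
        exact ⟨some u, by rw [Finset.some_mem_insertNone]; exact h9.1, h9.2⟩
      · rw [not_le] at h8
        exact ⟨none, Finset.none_mem_insertNone, h8⟩
  have r4 : (S.card : ℝ) ≤ (B + 1) * M / L ^ (U + 2) := by
    have f1 := card_le_card hcover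
    have f2 := card_union_le S2 S3
    have f4 : (S.card : ℝ) ≤ S2.card + S3.card := by exact_mod_cast f1.trans f2
    have f5 : (B + 1) * M / L ^ (U + 2) = B * M / L ^ (U + 2) + M / L ^ (U + 2) := by ring
    linarith
  refine r4.trans ?_
  rw [pow_add, div_le_div_iff₀ (by positivity) (by positivity)]
  have h9 : (B + 1 : ℝ) ≤ L ^ 2 := by nlinarith
  calc (B + 1) * (M : ℝ) * L ^ U ≤ L ^ 2 * M * L ^ U := by gcongr
    _ = _ := by ring

end Pool.Agent.K4H18.GV
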