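import Pool.Agent.K4H18.GV.G14

set_option autoImplicit false

/-! The joint Gaussian law over the arguments, for almost all `N`: final form. -/

namespace Pool.Agent.K4H18.GV

open Finset Polynomial
open Pool.Agent.H373R2.T7.SHN (X1)
open Pool.Agent.K4H18.CH (block_x blocks)
open Pool.Agent.K4H18.EK (om Ph bc)

/-- the arguments: the natural numbers (`e = false`) or primes (`e = true`) `n ≥ 1` for which `N - G(n)` is a prime -/
def Ar (e : Bool) (G : ℤ[X]) (N : ℕ) : Set ℕ := {n : ℕ | 1 ≤ n ∧ ar e n ∧ ((N : ℤ) - G.eval (n : ℤ)).toNat.Prime}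

/-- the arguments with few prime factors of the values -/
def Bl {k : ℕ} (e : Bool) (G : ℤ[X]) (F : Fin k → ℤ[X]) (N : ℕ) (t : Fin k → ℝ) : Set ℕ :=
  {n : ℕ | n ∈ Ar e G N ∧ ∀ i, om (F i) n ≤ Real.log (Real.log (X1 G N)) + t i * √(Real.log (Real.log (X1 G N)))}

/-- the conclusion -/
def Fin1 {k : ℕ} (e : Bool) (G : ℤ[X]) (F : Fin k → ℤ[X]) (ε : ℝ) (N : ℕ) : Prop :=
  0 < (Ar e G N).ncard ∧ ∀ t : Fin k → ℝ,
    |((Bl e G F N t).ncard : ℝ) - (Ar e G N).ncard * ∏ i, Ph (t i)| ≤ ε * (Ar e G N).ncard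

lemma Ar_eq (e : Bool) (G : ℤ[X]) (N x : ℕ) (h : ∀ n : ℕ, x < n → (N : ℤ) ≤ G.eval (n : ℤ)) :
    Ar e G N = ((Pn e G N x : Finset ℕ) : Set ℕ) := by
  ext n
  unfold Ar Pn
  rw [Set.mem_setOf_eq, mem_coe, mem_filter, mem_Icc]
  constructor
  · rintro ⟨h1, h2, h3⟩
    refine ⟨⟨h1, ?_⟩, h2, h3⟩
    by_contra hc
    have h4 := h n (not_le.1 hc)
    rw [Int.toNat_of_nonpos (by omega)] at h3
    exact Nat.not_prime_zero h3
  · rintro ⟨⟨h1, -⟩, h2, h3⟩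
    exact ⟨h1, h2, h3⟩

lemma fin1_of {k : ℕ} (e : Bool) (G : ℤ[X]) (F : Fin k → ℤ[X]) (ε : ℝ) (N x : ℕ)
    (h : ∀ n : ℕ, x < n → (N : ℤ) ≤ G.eval (n : ℤ)) (hg : Gs e G F ε x N) : Fin1 e G F ε N := by
  classical
  obtain ⟨-, h1, h2, h3⟩ := hg
  have hA := Ar_eq e G N x h
  have hAc : (Ar e G N).ncard = (Pn e G N x).card := by
    rw [hA, Set.ncard_coe_finset]
  refine ⟨by rw [hAc]; exact h1, fun t => ?_⟩
  have h4 := h3 t
  have hσ : 0 < √(Real.log (Real.log (X1 G N))) := Real.sqrt_pos.2 (by linarith)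
  have hB : Bl e G F N t = (((Pn e G N x).filter (fun n => ∀ i, (om (F i) n - Real.log (Real.log (X1 G N))) /
      √(Real.log (Real.log (X1 G N))) ≤ t i) : Finset ℕ) : Set ℕ) := by
    ext n
    unfold Bl
    rw [Set.mem_setOf_eq, hA, mem_coe, mem_coe, mem_filter]
    refine and_congr_right fun _ => forall_congr' fun i => ?_
    rw [div_le_iff₀ hσ]
    constructor <;> intro h5 <;> linarith
  have hBc : ((Bl e G F N t).ncard : ℝ) = bc (Pn e G N x) (fun p i => (om (F i) p - Real.log (Real.log (X1 G N))) /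
      √(Real.log (Real.log (X1 G N)))) t := by
    rw [hB, Set.ncard_coe_finset]
    unfold bc
    congr
  rw [hBc, hAc]
  exact h4

open Classical in
theorem almost_gauss {k : ℕ} (e : Bool) (G : ℤ[X]) (hG : 1 ≤ G.natDegree) (hGl : 0 < G.leadingCoeff) (F : Fin k → ℤ[X])
    (hF : Fam e F) (U : ℕ) (ε : ℝ) (hε : 0 < ε) : ∃ M0 : ℕ, ∀ M : ℕ, M0 ≤ M →
    (((Icc 1 M).filter (fun N : ℕ => ¬ (NoFx e G N → Fin1 e G F ε N))).card : ℝ) ≤ M / Real.log M ^ U := by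
  obtain ⟨B, κ, k1, hB, hκ, hκ1, hblock⟩ := block_x G hG hGl
  obtain ⟨x1, h1⟩ := gauss_x e G hG hGl F hF B (U + 2) κ hB hκ ε hε
  have hb := blocks (fun N : ℕ => (NoFx e G N → Fin1 e G F ε N)) U
  suffices hs : ∃ k0 : ℕ, ∀ m : ℕ, k0 ≤ m → (((Ico (2 ^ m) (2 ^ (m + 1))).filter (fun N : ℕ => ¬ (NoFx e G N →
      Fin1 e G F ε N))).card : ℝ) ≤ 2 ^ m / (m : ℝ) ^ (U + 1) by
    have hb2 := hb (by
      obtain ⟨k0, hk0⟩ := hs
      refine ⟨k0, fun k hk => ?_⟩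
      convert hk0 k hk)
    obtain ⟨M0, hM0⟩ := hb2
    refine ⟨M0, fun M hM => ?_⟩
    convert hM0 M hM
  set d := G.natDegree with hd
  refine ⟨max (max k1 (2 * d * (x1 + 2))) (max (2 * (2 * d) ^ (U + 2)) 3), fun m hm => ?_⟩
  obtain ⟨x, b1, b2, b3, b4, b5, b6⟩ := hblock m (by omega)
  have hd0 : 0 < d := hG
  have hdr : (1 : ℝ) ≤ d := by exact_mod_cast hG
  have hk0 : (3 : ℝ) ≤ m := by exact_mod_cast (by omega : 3 ≤ m)
  set L := Real.log x with hL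
  have hkL : (m : ℝ) / (2 * d) ≤ L := by
    rw [div_le_iff₀ (by positivity)]
    linarith
  have hL0 : 0 < L := lt_of_lt_of_le (by positivity) hkL
  have hx1 : (1 : ℝ) < x := by
    by_contra hcon
    have := Real.log_nonpos (Nat.cast_nonneg x) (not_lt.1 hcon)
    linarith
  have hxL : L ≤ x := (Real.log_le_sub_one_of_pos (by linarith)).trans (by linarith)
  have hxx : x1 + 2 ≤ x := by
    have e1 : 2 * d * (x1 + 2) ≤ m := by omega
    have e2 : ((2 * d * (x1 + 2) : ℕ) : ℝ) ≤ m := by exact_mod_cast e1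
    push_cast at e2
    have e3 : ((x1 : ℝ) + 2) ≤ (m : ℝ) / (2 * d) := by
      rw [le_div_iff₀ (by positivity)]
      linarith
    have e4 : ((x1 + 2 : ℕ) : ℝ) ≤ x := by
      push_cast
      linarith
    exact_mod_cast e4
  have g1 := h1 x (by omega) (2 ^ (m + 1)) b1 b2 b3
  have hsub : (Ico (2 ^ m) (2 ^ (m + 1))).filter (fun N : ℕ => ¬ (NoFx e G N → Fin1 e G F ε N)) ⊆
      (Icc 1 (2 ^ (m + 1))).filter (fun N => ¬ (κ * x ≤ (X1 G N : ℝ) → NoFx e G N → Gs e G F ε x N)) := by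
    intro N hN
    rw [mem_filter] at hN ⊢
    obtain ⟨hNk, hcon⟩ := hN
    have hNk' := mem_Ico.1 hNk
    have hN1 : 1 ≤ N := le_trans (Nat.one_le_two_pow) hNk'.1
    refine ⟨mem_Icc.2 ⟨hN1, hNk'.2.le⟩, fun hgood => hcon ?_⟩
    intro hfix
    refine fin1_of e G F ε N x (fun n hn => ?_) (hgood (b4 N hNk'.1) hfix)
    have b7 := b3 n hn
    have b8 : (N : ℤ) ≤ ((2 ^ (m + 1) : ℕ) : ℤ) := by exact_mod_cast hNk'.2.le
    omega
  refine (Nat.cast_le.2 (card_le_card hsub)).trans (g1.trans ?_)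
  -- the numbers
  push_cast
  have e1 : (2 * (2 * (d : ℝ)) ^ (U + 2)) ≤ m := by
    have : ((2 * (2 * d) ^ (U + 2) : ℕ) : ℝ) ≤ m := by exact_mod_cast (by omega : 2 * (2 * d) ^ (U + 2) ≤ m)
    push_cast at this
    exact this
  have hkpos : (0 : ℝ) < m := by linarith
  calc (2 : ℝ) ^ (m + 1) / L ^ (U + 2) ≤ (2 : ℝ) ^ (m + 1) / ((m : ℝ) / (2 * d)) ^ (U + 2) := by gcongr
    _ = (2 * (2 * (d : ℝ)) ^ (U + 2)) * (2 ^ m / (m : ℝ) ^ (U + 1)) / m := by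
        rw [div_pow, pow_succ (m : ℝ) (U + 1), pow_succ (2 : ℝ) m]
        field_simp
    _ ≤ m * (2 ^ m / (m : ℝ) ^ (U + 1)) / m := by gcongr
    _ = _ := by field_simp

end Pool.Agent.K4H18.GV
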