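import Pool.Agent.K4H18.GV.G1

set_option autoImplicit false

/-! Products of local functions over the sieved arguments. -/

namespace Pool.Agent.K4H18.GV

open Finset Polynomial Pool.Agent.H373R2.T7
open Pool.Agent.H474R2.PG (rho)
open Pool.Agent.K4H18.EK (crt_sum esy trunc_prod sum_levels)

/-- the sieve error -/
noncomputable def Err (e : Bool) (H : ℤ[X]) (K0 n z r : ℕ) (M : ℕ → ℝ) (d : ℕ) : ℝ :=
  ∑ j ∈ range (r + 1), ∑ S ∈ (pz z).powersetCard j, (K0 : ℝ) ^ S.card * (M (d * ∏ q ∈ S, q) + 1) +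
      2 * (PI e n / (tot e d : ℝ)) * es (gd e H) (pz z) r

/-- the arguments `p ≤ n` such that `H(p)` has no prime factor `≤ z` -/
def Ps (e : Bool) (H : ℤ[X]) (n z : ℕ) : Finset ℕ :=
  (Icc 1 n).filter (fun p : ℕ => ar e p ∧ ∀ q ∈ pz z, ¬ (q : ℤ) ∣ H.eval (p : ℤ))

/-- the product of the local densities -/
noncomputable def Wn (e : Bool) (H : ℤ[X]) (z : ℕ) : ℝ := ∏ q ∈ pz z, (1 - gd e H q)

lemma Wn_nonneg (e : Bool) (H : ℤ[X]) (z : ℕ) : 0 ≤ Wn e H z :=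
  prod_nonneg fun q hq => by have := gd_le e H (mem_pz.1 hq).2; linarith

lemma Wn_le_one (e : Bool) (H : ℤ[X]) (z : ℕ) : Wn e H z ≤ 1 :=
  prod_le_one (fun q hq => by have := gd_le e H (mem_pz.1 hq).2; linarith)
    (fun q hq => by have := gd_nonneg e H (mem_pz.1 hq).2; linarith)

lemma es_gd_nonneg (e : Bool) (H : ℤ[X]) (z r : ℕ) : 0 ≤ es (gd e H) (pz z) r :=
  es_nonneg (fun p hp => gd_nonneg e H (mem_pz.1 hp).2) r

lemma Err_nonneg (e : Bool) (H : ℤ[X]) (K0 n z r d : ℕ) (M : ℕ → ℝ) (hM : ∀ q, 0 ≤ M q) : 0 ≤ Err e H K0 n z r M d := by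
  unfold Err
  have h1 := PI_nonneg e n
  have h2 := es_gd_nonneg e H z r
  have h3 : 0 ≤ ∑ j ∈ range (r + 1), ∑ S ∈ (pz z).powersetCard j, (K0 : ℝ) ^ S.card * (M (d * ∏ q ∈ S, q) + 1) :=
    sum_nonneg fun _ _ => sum_nonneg fun S _ => by
      have := hM (d * ∏ q ∈ S, q)
      positivity
  positivity

theorem loc_sum (e : Bool) (H : ℤ[X]) (K0 n z r D : ℕ) (hK : ∀ q ∈ pz z, rho H q ≤ K0) (S : Finset ℕ)
    (hS : ∀ q ∈ S, q.Prime ∧ z < q)
    (hD : (∏ q ∈ S, q) * (z + 1) ^ r ≤ D) (M : ℕ → ℝ) (hM : Maj e n D M) (h : ℕ → ℕ → ℂ)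
    (h0 : e = true → ∀ q ∈ S, h q 0 = 0) :
    ‖∑ p ∈ Ps e H n z, ∏ q ∈ S, h q (p % q) -
      ((PI e n * Wn e H z : ℝ) : ℂ) * ∏ q ∈ S, ((∑ b ∈ range q, h q b) / ((q : ℂ) - e.toNat))‖ ≤
      (∏ q ∈ S, ∑ b ∈ range q, ‖h q b‖) * Err e H K0 n z r M (∏ q ∈ S, q) := by
  classical
  set d := ∏ q ∈ S, q with hd
  have hSp : ∀ q ∈ S, q.Prime := fun q hq => (hS q hq).1
  have hd1 : 1 ≤ d := Nat.pos_of_ne_zero (prod_ne_zero_iff.2 fun q hq => (hSp q hq).ne_zero)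
  have hqd : ∀ q ∈ S, q ∣ d := fun q hq => dvd_prod_of_mem _ hq
  have hpd : ∀ q ∈ pz z, ¬ q ∣ d := by
    intro q hq hqd'
    obtain ⟨q', hq', hdv⟩ := (Prime.dvd_finset_prod_iff (mem_pz.1 hq).2.prime _).1 hqd'
    have := (Nat.prime_dvd_prime_iff_eq (mem_pz.1 hq).2 (hSp q' hq')).1 hdv
    have h1 := (hS q' hq').2
    have h2 := (mem_pz.1 hq).1
    omega
  set G : ℕ → ℂ := fun c => ∏ q ∈ S, h q (c % q) with hG
  have e1 : ∑ p ∈ Ps e H n z, ∏ q ∈ S, h q (p % q) = ∑ c ∈ range d, G c * (cn e H n d c (pz z) : ℂ) := by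
    rw [← sum_fiberwise_of_maps_to (t := range d) (g := fun p => p % d)
      (fun p _ => mem_range.2 (Nat.mod_lt _ hd1))]
    apply sum_congr rfl
    intro c hc
    rw [mem_range] at hc
    have e2 : ∀ p ∈ (Ps e H n z).filter (fun p => p % d = c), ∏ q ∈ S, h q (p % q) = G c := by
      intro p hp
      rw [mem_filter] at hp
      rw [hG]
      simp only
      apply prod_congr rfl
      intro q hq
      rw [← hp.2, Nat.mod_mod_of_dvd p (hqd q hq)]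
    rw [sum_congr rfl e2, sum_const, nsmul_eq_mul, mul_comm]
    congr 1
    unfold cn Ps
    rw [filter_filter]
    norm_cast
    congr 1
    apply filter_congr
    intro p _
    unfold Nat.ModEq
    rw [Nat.mod_eq_of_lt hc]
    tauto
  have e3 : ((PI e n * Wn e H z : ℝ) : ℂ) * ∏ q ∈ S, ((∑ b ∈ range q, h q b) / ((q : ℂ) - e.toNat)) =
      ∑ c ∈ range d, G c * (((PI e n / (tot e d : ℝ)) * Wn e H z : ℝ) : ℂ) := by
    rw [← sum_mul, prod_div_distrib, ← crt_sum h S hSp, ← hd]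
    have h4 : ((tot e d : ℝ) : ℂ) = ∏ q ∈ S, ((q : ℂ) - e.toNat) := by
      rw [hd, tot_prod e S hSp]
      push_cast
      rfl
    rw [← h4]
    push_cast
    ring
  rw [e1, e3, ← sum_sub_distrib]
  have e5 : ∏ q ∈ S, ∑ b ∈ range q, ‖h q b‖ = ∑ c ∈ range d, ‖G c‖ := by
    rw [← crt_sum (fun q b => ‖h q b‖) S hSp]
    apply sum_congr rfl
    intro c _
    rw [hG, norm_prod]
  rw [e5, sum_mul]
  refine (norm_sum_le _ _).trans (sum_le_sum fun c hc => ?_)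
  rw [← mul_sub, norm_mul]
  by_cases hcop : e = true → c.Coprime d
  · apply mul_le_mul_of_nonneg_left _ (norm_nonneg _)
    have e6 : ((cn e H n d c (pz z) : ℝ) : ℂ) - (((PI e n / (tot e d : ℝ)) * Wn e H z : ℝ) : ℂ) =
        ((cn e H n d c (pz z) - (PI e n / (tot e d : ℝ)) * Wn e H z : ℝ) : ℂ) := by push_cast; ring
    rw [e6, Complex.norm_real, Real.norm_eq_abs]
    exact sieve1 e H K0 n z r d c D hd1 hcop (pz z) (Subset.refl _) hK hpd hD M hM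
  · push Not at hcop
    obtain ⟨he, hcop⟩ := hcop
    have hG0 : G c = 0 := by
      obtain ⟨p, hp, hpc, hpd'⟩ := Nat.Prime.not_coprime_iff_dvd.1 hcop
      obtain ⟨q, hq, hdv⟩ := (Prime.dvd_finset_prod_iff hp.prime _).1 hpd'
      have hpq := (Nat.prime_dvd_prime_iff_eq hp (hSp q hq)).1 hdv
      rw [hG]
      apply prod_eq_zero hq
      rw [← hpq, Nat.mod_eq_zero_of_dvd hpc, hpq]
      exact h0 he q hq
    rw [hG0, norm_zero, zero_mul, zero_mul]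

/-- the norm of the average -/
lemma norm_sub (e : Bool) {q : ℕ} (hq : q.Prime) : ‖(q : ℂ) - e.toNat‖ = (q : ℝ) - e.toNat := by
  have e1 : (q : ℂ) - e.toNat = (((q : ℝ) - e.toNat : ℝ) : ℂ) := by push_cast; rfl
  rw [e1, Complex.norm_real, Real.norm_eq_abs, abs_of_nonneg (by have := sub_pos' e hq; linarith)]

lemma norm_avg (e : Bool) {q : ℕ} (hq : q.Prime) (h : ℕ → ℂ) (h0 : e = true → h 0 = 0) (h1 : ∀ b, ‖1 + h b‖ ≤ 1) :
    ‖1 + (∑ b ∈ range q, h b) / ((q : ℂ) - e.toNat)‖ ≤ 1 := by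
  have hq0 : (0 : ℝ) < (q : ℝ) - e.toNat := by have := sub_pos' e hq; linarith
  have hqc : ((q : ℂ) - e.toNat) ≠ 0 := by
    intro h
    have := norm_sub e hq
    rw [h, norm_zero] at this
    linarith
  have e1 : 1 + (∑ b ∈ range q, h b) / ((q : ℂ) - e.toNat) =
      (∑ b ∈ (range q).filter (fun b : ℕ => e = true → b ≠ 0), (1 + h b)) / ((q : ℂ) - e.toNat) := by
    have e2 : ∑ b ∈ (range q).filter (fun b : ℕ => e = true → b ≠ 0), h b = ∑ b ∈ range q, h b := by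
      apply sum_subset (filter_subset _ _)
      intro b hb hb'
      rw [mem_filter] at hb'
      push Not at hb'
      obtain ⟨he, hb0⟩ := hb' hb
      rw [hb0]
      exact h0 he
    rw [sum_add_distrib, e2, sum_const, card_cl e hq, nsmul_eq_mul, mul_one, add_div]
    congr 1
    have e3 : ((q - e.toNat : ℕ) : ℂ) = (q : ℂ) - e.toNat := by
      have := sub_cast e hq
      exact_mod_cast congrArg (fun x : ℝ => (x : ℂ)) this
    rw [e3, div_self hqc]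
  rw [e1, norm_div, norm_sub e hq, div_le_one hq0]
  refine (norm_sum_le _ _).trans ((sum_le_sum fun b _ => h1 b).trans ?_)
  rw [sum_const, card_cl e hq, nsmul_eq_mul, mul_one, sub_cast e hq]

/-- the expansion of the product -/
theorem expand (e : Bool) (H : ℤ[X]) (K0 n z r m D : ℕ) (hK : ∀ q ∈ pz z, rho H q ≤ K0) (P : Finset ℕ)
    (hP : ∀ q ∈ P, q.Prime ∧ z < q)
    (hD : ∀ S ⊆ P, S.card ≤ m → (∏ q ∈ S, q) * (z + 1) ^ r ≤ D) (M : ℕ → ℝ) (hM : Maj e n D M) (h : ℕ → ℕ → ℂ)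
    (h0 : e = true → ∀ q ∈ P, h q 0 = 0) (h1 : ∀ q ∈ P, ∀ b, ‖1 + h q b‖ ≤ 1) :
    ‖∑ p ∈ Ps e H n z, ∏ q ∈ P, (1 + h q (p % q)) -
      ((PI e n * Wn e H z : ℝ) : ℂ) * ∏ q ∈ P, (1 + (∑ b ∈ range q, h q b) / ((q : ℂ) - e.toNat))‖ ≤
      2 * (PI e n * Wn e H z) * esy (fun q => (∑ b ∈ range q, ‖h q b‖) / ((q : ℝ) - e.toNat)) P m +
      ∑ j ∈ range (m + 1), ∑ S ∈ P.powersetCard j, (∏ q ∈ S, ∑ b ∈ range q, ‖h q b‖) * Err e H K0 n z r M (∏ q ∈ S, q) := by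
  classical
  have hX : 0 ≤ PI e n * Wn e H z := mul_nonneg (PI_nonneg e n) (Wn_nonneg e H z)
  set η : ℕ → ℂ := fun q => (∑ b ∈ range q, h q b) / ((q : ℂ) - e.toNat) with hη
  set a : ℕ → ℝ := fun q => (∑ b ∈ range q, ‖h q b‖) / ((q : ℝ) - e.toNat) with ha
  have hηa : ∀ q ∈ P, ‖η q‖ ≤ a q := by
    intro q hq
    rw [hη, ha]
    simp only
    rw [norm_div, norm_sub e (hP q hq).1]
    apply div_le_div_of_nonneg_right (norm_sum_le _ _)
    have := sub_pos' e (hP q hq).1; linarith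
  have h2 : ∀ q ∈ P, ‖1 + η q‖ ≤ 1 := by
    intro q hq
    exact norm_avg e (hP q hq).1 (h q) (fun he => h0 he q hq) (h1 q hq)
  -- the truncation of the product over primes
  have t1 : ‖∑ p ∈ Ps e H n z, ∏ q ∈ P, (1 + h q (p % q)) -
      ∑ p ∈ Ps e H n z, ∑ j ∈ range m, esy (fun q => h q (p % q)) P j‖ ≤
      ∑ p ∈ Ps e H n z, esy (fun q => ‖h q (p % q)‖) P m := by
    rw [← sum_sub_distrib]
    refine (norm_sum_le _ _).trans (sum_le_sum fun p _ => ?_)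
    exact trunc_prod (fun q => h q (p % q)) P (fun q hq => h1 q hq _) m
  have t2 : ∑ p ∈ Ps e H n z, esy (fun q => ‖h q (p % q)‖) P m ≤
      (PI e n * Wn e H z) * esy a P m +
        ∑ S ∈ P.powersetCard m, (∏ q ∈ S, ∑ b ∈ range q, ‖h q b‖) * Err e H K0 n z r M (∏ q ∈ S, q) := by
    unfold esy
    rw [sum_comm, mul_sum, ← sum_add_distrib]
    apply sum_le_sum
    intro S hS
    rw [mem_powersetCard] at hS
    have key := loc_sum e H K0 n z r D hK S (fun q hq => hP q (hS.1 hq)) (hD S hS.1 hS.2.le) M hM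
      (fun q b => ((‖h q b‖ : ℝ) : ℂ)) (fun he q hq => by rw [h0 he q (hS.1 hq), norm_zero, Complex.ofReal_zero])
    have e1 : ∑ p ∈ Ps e H n z, ∏ q ∈ S, ((‖h q (p % q)‖ : ℝ) : ℂ) = ((∑ p ∈ Ps e H n z, ∏ q ∈ S, ‖h q (p % q)‖ : ℝ) : ℂ) := by
      push_cast; rfl
    have e2 : ((PI e n * Wn e H z : ℝ) : ℂ) * ∏ q ∈ S, ((∑ b ∈ range q, ((‖h q b‖ : ℝ) : ℂ)) / ((q : ℂ) - e.toNat)) =
        (((PI e n * Wn e H z) * ∏ q ∈ S, a q : ℝ) : ℂ) := by
      rw [ha]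
      push_cast
      rfl
    have e3 : ∀ q, ∑ b ∈ range q, ‖((‖h q b‖ : ℝ) : ℂ)‖ = ∑ b ∈ range q, ‖h q b‖ := by
      intro q
      apply sum_congr rfl
      intro b _
      rw [Complex.norm_real, norm_norm]
    rw [e1, e2, ← Complex.ofReal_sub, Complex.norm_real, Real.norm_eq_abs] at key
    simp only [e3] at key
    have := (abs_le.1 key).2
    linarith
  -- the truncation of the model
  have t3 : ‖∏ q ∈ P, (1 + η q) - ∑ j ∈ range m, esy η P j‖ ≤ esy a P m := by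
    refine (trunc_prod η P h2 m).trans ?_
    unfold esy
    apply sum_le_sum
    intro S hS
    rw [mem_powersetCard] at hS
    exact Finset.prod_le_prod (fun _ _ => norm_nonneg _) (fun q hq => hηa q (hS.1 hq))
  -- the comparison of the truncated sums
  have t4 : ‖∑ p ∈ Ps e H n z, ∑ j ∈ range m, esy (fun q => h q (p % q)) P j -
      ((PI e n * Wn e H z : ℝ) : ℂ) * ∑ j ∈ range m, esy η P j‖ ≤
      ∑ j ∈ range m, ∑ S ∈ P.powersetCard j, (∏ q ∈ S, ∑ b ∈ range q, ‖h q b‖) * Err e H K0 n z r M (∏ q ∈ S, q) := by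
    rw [sum_comm, mul_sum, ← sum_sub_distrib]
    refine (norm_sum_le _ _).trans (sum_le_sum fun j hj => ?_)
    unfold esy
    rw [sum_comm, mul_sum, ← sum_sub_distrib]
    refine (norm_sum_le _ _).trans (sum_le_sum fun S hS => ?_)
    rw [mem_powersetCard] at hS
    rw [mem_range] at hj
    exact loc_sum e H K0 n z r D hK S (fun q hq => hP q (hS.1 hq)) (hD S hS.1 (by omega)) M hM h (fun he q hq => h0 he q (hS.1 hq))
  have e0 : ∑ p ∈ Ps e H n z, ∏ q ∈ P, (1 + h q (p % q)) - ((PI e n * Wn e H z : ℝ) : ℂ) * ∏ q ∈ P, (1 + η q) =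
      (∑ p ∈ Ps e H n z, ∏ q ∈ P, (1 + h q (p % q)) - ∑ p ∈ Ps e H n z, ∑ j ∈ range m, esy (fun q => h q (p % q)) P j) +
      (∑ p ∈ Ps e H n z, ∑ j ∈ range m, esy (fun q => h q (p % q)) P j -
        ((PI e n * Wn e H z : ℝ) : ℂ) * ∑ j ∈ range m, esy η P j) -
      ((PI e n * Wn e H z : ℝ) : ℂ) * (∏ q ∈ P, (1 + η q) - ∑ j ∈ range m, esy η P j) := by ring
  rw [e0]
  have t5 : ‖((PI e n * Wn e H z : ℝ) : ℂ) * (∏ q ∈ P, (1 + η q) - ∑ j ∈ range m, esy η P j)‖ ≤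
      (PI e n * Wn e H z) * esy a P m := by
    rw [norm_mul, Complex.norm_real, Real.norm_eq_abs, abs_of_nonneg hX]
    exact mul_le_mul_of_nonneg_left t3 hX
  refine (norm_sub_le _ _).trans ?_
  refine (add_le_add ((norm_add_le _ _).trans (add_le_add (t1.trans t2) t4)) t5).trans ?_
  rw [sum_range_succ]
  linarith

end Pool.Agent.K4H18.GV
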