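import Pool.Agent.K4H18.GV.G2

set_option autoImplicit false

/-! The total error of the expansion. -/

namespace Pool.Agent.K4H18.GV

open Finset Polynomial Pool.Agent.H373R2.T7
open Pool.Agent.H474R2.PG (rho)
open Pool.Agent.K4H18.EK (sum_levels)

/-- pairs of small sets of primes and squarefree moduli -/
lemma pair_sum2 (z r m D : ℕ) (P : Finset ℕ) (hP : ∀ q ∈ P, q.Prime ∧ z < q)
    (hD : ∀ S ⊆ P, S.card ≤ m → (∏ q ∈ S, q) * (z + 1) ^ r ≤ D) (M : ℕ → ℝ) (hM : ∀ q, 0 ≤ M q) (K : ℝ) (hK : 1 ≤ K) :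
    ∑ j ∈ range (m + 1), ∑ S ∈ P.powersetCard j, K ^ S.card *
      ∑ i ∈ range (r + 1), ∑ S' ∈ (pz z).powersetCard i, K ^ S'.card * M ((∏ q ∈ S, q) * ∏ q ∈ S', q) ≤
    ∑ q ∈ Icc 1 D, K ^ q.primeFactors.card * M q := by
  classical
  simp only [sum_levels, mul_sum]
  rw [← sum_product']
  set I := (P.powerset.filter (fun S => S.card ≤ m)) ×ˢ ((pz z).powerset.filter (fun S => S.card ≤ r)) with hI
  have hmem : ∀ x ∈ I, (x.1 ⊆ P ∧ x.1.card ≤ m) ∧ (x.2 ⊆ pz z ∧ x.2.card ≤ r) := by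
    intro x hx
    rw [hI, mem_product, mem_filter, mem_filter, mem_powerset, mem_powerset] at hx
    exact hx
  have hdisj : ∀ x ∈ I, Disjoint x.1 x.2 := by
    intro x hx
    rw [disjoint_left]
    intro q hq hq'
    have h1 := (hP q ((hmem x hx).1.1 hq)).2
    have h2 := (mem_pz.1 ((hmem x hx).2.1 hq')).1
    omega
  have hpr : ∀ x ∈ I, ∀ q ∈ x.1 ∪ x.2, q.Prime := by
    intro x hx q hq
    rw [mem_union] at hq
    rcases hq with hq | hq
    · exact (hP q ((hmem x hx).1.1 hq)).1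
    · exact (mem_pz.1 ((hmem x hx).2.1 hq)).2
  have hprod : ∀ x ∈ I, (∏ q ∈ x.1, q) * ∏ q ∈ x.2, q = ∏ q ∈ x.1 ∪ x.2, q := by
    intro x hx
    rw [prod_union (hdisj x hx)]
  have hpf : ∀ x ∈ I, ((∏ q ∈ x.1, q) * ∏ q ∈ x.2, q).primeFactors = x.1 ∪ x.2 := by
    intro x hx
    rw [hprod x hx]
    exact Nat.primeFactors_prod (hpr x hx)
  have h1 : ∑ x ∈ I, K ^ x.1.card * (K ^ x.2.card * M ((∏ q ∈ x.1, q) * ∏ q ∈ x.2, q)) ≤
      ∑ x ∈ I, K ^ ((∏ q ∈ x.1, q) * ∏ q ∈ x.2, q).primeFactors.card * M ((∏ q ∈ x.1, q) * ∏ q ∈ x.2, q) := by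
    apply sum_le_sum
    intro x hx
    rw [← mul_assoc, ← pow_add, hpf x hx, card_union_of_disjoint (hdisj x hx)]
  refine h1.trans ?_
  have h2 : ∑ x ∈ I, K ^ ((∏ q ∈ x.1, q) * ∏ q ∈ x.2, q).primeFactors.card * M ((∏ q ∈ x.1, q) * ∏ q ∈ x.2, q) =
      ∑ q ∈ I.image (fun x => (∏ q ∈ x.1, q) * ∏ q ∈ x.2, q), K ^ q.primeFactors.card * M q := by
    rw [sum_image]
    intro x hx y hy hxy
    have hx' := hpf x hx
    have hy' := hpf y hy
    simp only at hxy
    rw [hxy, hy'] at hx'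
    have key : ∀ q, q ∈ y.1 ∪ y.2 ↔ q ∈ x.1 ∪ x.2 := fun q => by rw [hx']
    have a1 : x.1 = y.1 := by
      ext q
      constructor
      · intro hq
        have h3 := (hP q ((hmem x hx).1.1 hq)).2
        have h4 := (key q).2 (mem_union_left _ hq)
        rw [mem_union] at h4
        rcases h4 with h4 | h4
        · exact h4
        · have := (mem_pz.1 ((hmem y hy).2.1 h4)).1
          omega
      · intro hq
        have h3 := (hP q ((hmem y hy).1.1 hq)).2
        have h4 := (key q).1 (mem_union_left _ hq)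
        rw [mem_union] at h4
        rcases h4 with h4 | h4
        · exact h4
        · have := (mem_pz.1 ((hmem x hx).2.1 h4)).1
          omega
    have a2 : x.2 = y.2 := by
      ext q
      constructor
      · intro hq
        have h3 := (mem_pz.1 ((hmem x hx).2.1 hq)).1
        have h4 := (key q).2 (mem_union_right _ hq)
        rw [mem_union] at h4
        rcases h4 with h4 | h4
        · have := (hP q ((hmem y hy).1.1 h4)).2
          omega
        · exact h4
      · intro hq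
        have h3 := (mem_pz.1 ((hmem y hy).2.1 hq)).1
        have h4 := (key q).1 (mem_union_right _ hq)
        rw [mem_union] at h4
        rcases h4 with h4 | h4
        · have := (hP q ((hmem x hx).1.1 h4)).2
          omega
        · exact h4
    exact Prod.ext a1 a2
  rw [h2]
  apply sum_le_sum_of_subset_of_nonneg
  · intro d hd
    rw [mem_image] at hd
    obtain ⟨x, hx, rfl⟩ := hd
    rw [mem_Icc]
    have hne : (∏ q ∈ x.1, q) * ∏ q ∈ x.2, q ≠ 0 := by
      rw [hprod x hx]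
      exact prod_ne_zero_iff.2 fun q hq => (hpr x hx q hq).ne_zero
    refine ⟨Nat.pos_of_ne_zero hne, ?_⟩
    refine le_trans ?_ (hD x.1 (hmem x hx).1.1 (hmem x hx).1.2)
    exact Nat.mul_le_mul_left _ (prod_le_pow x.2 z r (hmem x hx).2.1 (hmem x hx).2.2)
  · intro q _ _
    exact mul_nonneg (by positivity) (hM q)


theorem err_sum (e : Bool) (H : ℤ[X]) (K0 n z r m D : ℕ) (P : Finset ℕ) (hP : ∀ q ∈ P, q.Prime ∧ z < q)
    (hD : ∀ S ⊆ P, S.card ≤ m → (∏ q ∈ S, q) * (z + 1) ^ r ≤ D) (M : ℕ → ℝ) (hM : ∀ q, 0 ≤ M q) (K : ℝ) (hK : 1 ≤ K)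
    (hK0 : (K0 : ℝ) ≤ K) (A : ℕ → ℝ) (hA : ∀ q ∈ P, 0 ≤ A q ∧ A q ≤ K) :
    ∑ j ∈ range (m + 1), ∑ S ∈ P.powersetCard j, (∏ q ∈ S, A q) * Err e H K0 n z r M (∏ q ∈ S, q) ≤
      ∑ q ∈ Icc 1 D, K ^ q.primeFactors.card * M q + (K * ((P.card : ℝ) + 1)) ^ m * (K * ((z : ℝ) + 1)) ^ r +
      2 * PI e n * es (gd e H) (pz z) r * Real.exp (K * ∑ q ∈ P, 1 / ((q : ℝ) - 1)) := by
  classical
  have hKp : 0 < K := by linarith
  have hprodK : ∀ S ⊆ P, ∏ q ∈ S, A q ≤ K ^ S.card := by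
    intro S hS
    rw [← prod_const]
    exact Finset.prod_le_prod (fun q hq => (hA q (hS hq)).1) (fun q hq => (hA q (hS hq)).2)
  have hprod0 : ∀ S ⊆ P, 0 ≤ ∏ q ∈ S, A q := fun S hS => prod_nonneg fun q hq => (hA q (hS hq)).1
  have hes := es_gd_nonneg e H z r
  have hpi := PI_nonneg e n
  have hKr0 : ∀ S' : Finset ℕ, (K0 : ℝ) ^ S'.card ≤ K ^ S'.card := fun S' =>
    pow_le_pow_left₀ (Nat.cast_nonneg _) hK0 _
  -- splitting
  have h1 : ∑ j ∈ range (m + 1), ∑ S ∈ P.powersetCard j, (∏ q ∈ S, A q) * Err e H K0 n z r M (∏ q ∈ S, q) ≤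
      ∑ j ∈ range (m + 1), ∑ S ∈ P.powersetCard j, K ^ S.card *
        ∑ i ∈ range (r + 1), ∑ S' ∈ (pz z).powersetCard i, K ^ S'.card * M ((∏ q ∈ S, q) * ∏ q ∈ S', q) +
      ∑ j ∈ range (m + 1), ∑ S ∈ P.powersetCard j, K ^ m * (K * ((z : ℝ) + 1)) ^ r +
      ∑ j ∈ range (m + 1), ∑ S ∈ P.powersetCard j, (2 * PI e n * es (gd e H) (pz z) r) *
        ∏ q ∈ S, (K * (1 / ((q : ℝ) - 1))) := by
    rw [← sum_add_distrib, ← sum_add_distrib]
    apply sum_le_sum
    intro j hj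
    rw [← sum_add_distrib, ← sum_add_distrib]
    apply sum_le_sum
    intro S hS
    rw [mem_powersetCard] at hS
    rw [mem_range] at hj
    have hSp : ∀ q ∈ S, q.Prime := fun q hq => (hP q (hS.1 hq)).1
    unfold Err
    rw [mul_add]
    have b1 : (∏ q ∈ S, A q) * ∑ i ∈ range (r + 1), ∑ S' ∈ (pz z).powersetCard i, (K0 : ℝ) ^ S'.card * (M ((∏ q ∈ S, q) * ∏ q ∈ S', q) + 1) ≤
        K ^ S.card * ∑ i ∈ range (r + 1), ∑ S' ∈ (pz z).powersetCard i, K ^ S'.card * M ((∏ q ∈ S, q) * ∏ q ∈ S', q) +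
        K ^ m * (K * ((z : ℝ) + 1)) ^ r := by
      have c1 : ∑ i ∈ range (r + 1), ∑ S' ∈ (pz z).powersetCard i, (K0 : ℝ) ^ S'.card * (M ((∏ q ∈ S, q) * ∏ q ∈ S', q) + 1) ≤
          ∑ i ∈ range (r + 1), ∑ S' ∈ (pz z).powersetCard i, K ^ S'.card * M ((∏ q ∈ S, q) * ∏ q ∈ S', q) +
          K ^ r * ((∑ i ∈ range (r + 1), ((pz z).powersetCard i).card : ℕ) : ℝ) := by
        push_cast
        rw [mul_sum, ← sum_add_distrib]
        apply sum_le_sum
        intro i hi
        rw [mem_range] at hi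
        rw [mul_comm (K ^ r), ← nsmul_eq_mul, ← sum_const, ← sum_add_distrib]
        apply sum_le_sum
        intro S' hS'
        rw [mem_powersetCard] at hS'
        have d1 : K ^ S'.card ≤ K ^ r := pow_le_pow_right₀ hK (by omega)
        have d2 := hKr0 S'
        have d3 := hM ((∏ q ∈ S, q) * ∏ q ∈ S', q)
        nlinarith [mul_le_mul_of_nonneg_right d2 d3]
      have c2 := card_small (pz z) r
      have c3 : (((pz z).card : ℝ) + 1) ^ r ≤ ((z : ℝ) + 1) ^ r := by
        have : ((pz z).card : ℝ) ≤ z := by exact_mod_cast card_pz_le z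
        gcongr
      have c4 : 0 ≤ ∑ i ∈ range (r + 1), ∑ S' ∈ (pz z).powersetCard i, K ^ S'.card * M ((∏ q ∈ S, q) * ∏ q ∈ S', q) :=
        sum_nonneg fun _ _ => sum_nonneg fun _ _ => mul_nonneg (by positivity) (hM _)
      refine (mul_le_mul_of_nonneg_left c1 (hprod0 S hS.1)).trans ?_
      rw [mul_add]
      apply add_le_add
      · exact mul_le_mul_of_nonneg_right (hprodK S hS.1) c4
      · rw [mul_pow K]
        apply mul_le_mul _ _ (by positivity) (by positivity)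
        · refine (hprodK S hS.1).trans ?_
          exact pow_le_pow_right₀ hK (by omega)
        · exact mul_le_mul_of_nonneg_left (c2.trans c3) (by positivity)
    have b2 : (∏ q ∈ S, A q) * (2 * (PI e n / (tot e (∏ q ∈ S, q) : ℝ)) * es (gd e H) (pz z) r) ≤
        (2 * PI e n * es (gd e H) (pz z) r) * ∏ q ∈ S, (K * (1 / ((q : ℝ) - 1))) := by
      have c2 : ∏ q ∈ S, (K * (1 / ((q : ℝ) - 1))) = K ^ S.card / ∏ q ∈ S, ((q : ℝ) - 1) := by
        rw [prod_mul_distrib, prod_const, prod_div_distrib, prod_const_one, mul_one_div]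
      rw [tot_prod e S hSp, c2]
      have c3 : 0 < ∏ q ∈ S, ((q : ℝ) - 1) := by
        apply prod_pos
        intro q hq
        have : (2 : ℝ) ≤ q := by exact_mod_cast (hSp q hq).two_le
        linarith
      have c4 : ∏ q ∈ S, ((q : ℝ) - 1) ≤ ∏ q ∈ S, ((q : ℝ) - e.toNat) := by
        apply Finset.prod_le_prod
        · intro q hq
          have : (2 : ℝ) ≤ q := by exact_mod_cast (hSp q hq).two_le
          linarith
        · intro q _
          have h1 : (e.toNat : ℝ) ≤ 1 := by exact_mod_cast Bool.toNat_le e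
          linarith
      calc (∏ q ∈ S, A q) * (2 * (PI e n / ∏ q ∈ S, ((q : ℝ) - e.toNat)) * es (gd e H) (pz z) r)
          = (2 * PI e n * es (gd e H) (pz z) r) * ((∏ q ∈ S, A q) / ∏ q ∈ S, ((q : ℝ) - e.toNat)) := by ring
        _ ≤ _ := by
            apply mul_le_mul_of_nonneg_left _ (by positivity)
            exact div_le_div₀ (by positivity) (hprodK S hS.1) c3 c4
    linarith
  refine h1.trans ?_
  refine add_le_add (add_le_add (pair_sum2 z r m D P hP hD M hM K hK) ?_) ?_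
  · have c2 := card_small P m
    have e1 : ∑ j ∈ range (m + 1), ∑ S ∈ P.powersetCard j, K ^ m * (K * ((z : ℝ) + 1)) ^ r =
        ((∑ i ∈ range (m + 1), (P.powersetCard i).card : ℕ) : ℝ) * (K ^ m * (K * ((z : ℝ) + 1)) ^ r) := by
      push_cast
      rw [sum_mul]
      apply sum_congr rfl
      intro i _
      rw [sum_const, nsmul_eq_mul]
    rw [e1]
    calc ((∑ i ∈ range (m + 1), (P.powersetCard i).card : ℕ) : ℝ) * (K ^ m * (K * ((z : ℝ) + 1)) ^ r)
        ≤ ((P.card : ℝ) + 1) ^ m * (K ^ m * (K * ((z : ℝ) + 1)) ^ r) := mul_le_mul_of_nonneg_right c2 (by positivity)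
      _ = _ := by rw [mul_pow K ((P.card : ℝ) + 1)]; ring
  · rw [sum_levels, ← mul_sum]
    apply mul_le_mul_of_nonneg_left _ (by positivity)
    calc ∑ S ∈ P.powerset.filter (fun S => S.card ≤ m), ∏ q ∈ S, (K * (1 / ((q : ℝ) - 1)))
        ≤ ∑ S ∈ P.powerset, ∏ q ∈ S, (K * (1 / ((q : ℝ) - 1))) := by
          apply sum_le_sum_of_subset_of_nonneg (filter_subset _ _)
          intro S hS _
          rw [mem_powerset] at hS
          apply prod_nonneg
          intro q hq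
          have : (2 : ℝ) ≤ q := by exact_mod_cast (hP q (hS hq)).1.two_le
          have h3 : 0 ≤ 1 / ((q : ℝ) - 1) := by apply div_nonneg zero_le_one; linarith
          positivity
      _ = ∏ q ∈ P, (1 + K * (1 / ((q : ℝ) - 1))) := (prod_one_add P).symm
      _ ≤ _ := by
          rw [mul_sum, Real.exp_sum]
          apply Finset.prod_le_prod
          · intro q hq
            have : (2 : ℝ) ≤ q := by exact_mod_cast (hP q hq).1.two_le
            have h3 : 0 ≤ 1 / ((q : ℝ) - 1) := by apply div_nonneg zero_le_one; linarith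
            positivity
          · intro q hq
            have := Real.add_one_le_exp (K * (1 / ((q : ℝ) - 1)))
            linarith

end Pool.Agent.K4H18.GV
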