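import Pool.Agent.K4H18.GV.G3

set_option autoImplicit false

/-! The total error of the expansion, with parameters. -/

namespace Pool.Agent.K4H18.GV

open Finset Polynomial Pool.Agent.H373R2.T7
open Pool.Agent.H474R2.PG (rho)
open Pool.Agent.K4H18.EK (ev_pow sizes)

/-- the level -/
noncomputable def Dl (N : ℕ) : ℕ := ⌊(N : ℝ) ^ (1 / 4 : ℝ)⌋₊

theorem maj_true (K : ℕ) (hK : 1 ≤ K) (W B U : ℕ) : ∃ N0 : ℕ, ∀ N : ℕ, N0 ≤ N → ∀ n : ℕ, (N : ℝ) / Real.log N ^ W ≤ n → n ≤ B * N →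
    ∃ M : ℕ → ℝ, Maj true n (Dl N) M ∧ ∑ q ∈ Icc 1 (Dl N), (K : ℝ) ^ q.primeFactors.card * M q ≤ N / Real.log N ^ U / 4 := by
  obtain ⟨BB, x0, hBV⟩ := Pool.Agent.H96R2.EQP.weighted (K : ℝ) (by exact_mod_cast hK) (U + 1)
  obtain ⟨N2, hsz⟩ := sizes W B
  obtain ⟨N3, h3⟩ := ev_pow BB (2 ^ BB) (1 / 8) (by norm_num)
  obtain ⟨N4, h4⟩ := ev_L' (2 ^ (U + 1) * B * 4 + 8)
  refine ⟨max (max N2 N3) (max N4 (max (x0 ^ 2) 3)), fun N hN n hn hnB => ?_⟩
  obtain ⟨s1, s2, s3⟩ := hsz N (by omega) n hn hnB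
  have b3 := h3 N (by omega)
  have b4 := h4 N (by omega)
  have hx02 : x0 ^ 2 ≤ N := by omega
  have hN3 : (3 : ℝ) ≤ N := by exact_mod_cast (by omega : 3 ≤ N)
  have hN0 : (0 : ℝ) < N := by linarith
  have hN1 : (1 : ℝ) ≤ N := by linarith
  have hKr : (1 : ℝ) ≤ K := by exact_mod_cast hK
  have hBr : (0 : ℝ) ≤ B := Nat.cast_nonneg _
  set L := Real.log N with hLd
  have hL8 : 8 ≤ L := by
    have : 0 ≤ (2 : ℝ) ^ (U + 1) * B * 4 := by positivity
    linarith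
  have hL0 : 0 < L := by linarith
  have hx0n : x0 ≤ n := by
    have h7 : (x0 : ℝ) ≤ √(N : ℝ) := by
      apply Real.le_sqrt_of_sq_le
      exact_mod_cast hx02
    have h8 : √(N : ℝ) ≤ (N : ℝ) ^ (7 / 8 : ℝ) := by
      rw [Real.sqrt_eq_rpow]
      exact Real.rpow_le_rpow_of_exponent_le hN1 (by norm_num)
    have h9 : (x0 : ℝ) ≤ n := h7.trans (h8.trans s1)
    exact_mod_cast h9
  obtain ⟨M, hM0, hM1, hM2⟩ := hBV n hx0n
  have hn0 : (0 : ℝ) < n := lt_of_lt_of_le (by positivity) s1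
  have hlogn0 : 0 < Real.log n := by linarith
  have hDle : ((Dl N : ℕ) : ℝ) ≤ (N : ℝ) ^ (1 / 4 : ℝ) := Nat.floor_le (by positivity)
  have hDn : Dl N ≤ n := by
    have : ((Dl N : ℕ) : ℝ) ≤ n := by
      refine hDle.trans (le_trans ?_ s1)
      exact Real.rpow_le_rpow_of_exponent_le hN1 (by norm_num)
    exact_mod_cast this
  refine ⟨M, ⟨hM0, fun q a hq ha hqD => ?_⟩, ?_⟩
  · have h7 : (q : ℝ) ≤ (N : ℝ) ^ (1 / 4 : ℝ) := le_trans (by exact_mod_cast hqD) hDle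
    have h8 : (q : ℝ) ^ 2 ≤ (N : ℝ) ^ (1 / 2 : ℝ) := by
      calc (q : ℝ) ^ 2 ≤ ((N : ℝ) ^ (1 / 4 : ℝ)) ^ 2 := pow_le_pow_left₀ (Nat.cast_nonneg _) h7 2
        _ = (N : ℝ) ^ (1 / 2 : ℝ) := by rw [← Real.rpow_natCast, ← Real.rpow_mul hN0.le]; norm_num
    have h9 : Real.log n ^ BB ≤ (N : ℝ) ^ (1 / 8 : ℝ) := by
      calc Real.log n ^ BB ≤ (2 * L) ^ BB := pow_le_pow_left₀ hlogn0.le s3 BB
        _ = 2 ^ BB * L ^ BB := by rw [mul_pow]
        _ ≤ _ := b3
    have h10 : Real.log n ^ BB * (q : ℝ) ^ 2 < n := by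
      calc Real.log n ^ BB * (q : ℝ) ^ 2 ≤ (N : ℝ) ^ (1 / 8 : ℝ) * (N : ℝ) ^ (1 / 2 : ℝ) :=
            mul_le_mul h9 h8 (by positivity) (by positivity)
        _ = (N : ℝ) ^ (5 / 8 : ℝ) := by rw [← Real.rpow_add hN0]; norm_num
        _ < (N : ℝ) ^ (7 / 8 : ℝ) := Real.rpow_lt_rpow_of_exponent_lt (by linarith) (by norm_num)
        _ ≤ n := s1
    have h11 := hM1 q a hq (ha rfl) h10 (hqD.trans hDn)
    unfold PI tot AP
    rw [if_pos rfl, if_pos rfl]
    unfold H343E.piAP at h11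
    have h12 : ((Icc 1 n).filter (fun p => ar true p ∧ p ≡ a [MOD q])) = (Icc 1 n).filter (fun p => p.Prime ∧ p ≡ a [MOD q]) := by
      apply filter_congr
      intro p _
      unfold ar
      simp
    rw [h12]
    exact h11
  · have c1 : ∑ q ∈ Icc 1 (Dl N), (K : ℝ) ^ q.primeFactors.card * M q ≤ ∑ q ∈ Icc 1 n, (K : ℝ) ^ q.primeFactors.card * M q := by
      apply sum_le_sum_of_subset_of_nonneg
      · exact Icc_subset_Icc_right hDn
      · intro q _ _
        exact mul_nonneg (by positivity) (hM0 q)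
    refine c1.trans (hM2.trans ?_)
    have c2 : (n : ℝ) ≤ B * N := by exact_mod_cast hnB
    have c3 : (L / 2) ^ (U + 1) ≤ Real.log n ^ (U + 1) := pow_le_pow_left₀ (by positivity) s2 _
    calc (n : ℝ) / Real.log n ^ (U + 1) ≤ (B * N) / (L / 2) ^ (U + 1) := by
          apply div_le_div₀ (by positivity) c2 (by positivity) c3
      _ = (2 ^ (U + 1) * B / L) * (N / L ^ U) := by
          rw [div_pow, pow_succ L U]
          field_simp
      _ ≤ (1 / 4) * (N / L ^ U) := by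
          apply mul_le_mul_of_nonneg_right _ (by positivity)
          rw [div_le_div_iff₀ hL0 (by norm_num), one_mul]
          linarith
      _ = _ := by ring

theorem maj_false (K : ℕ) (hK : 1 ≤ K) (W B U : ℕ) : ∃ N0 : ℕ, ∀ N : ℕ, N0 ≤ N → ∀ n : ℕ, (N : ℝ) / Real.log N ^ W ≤ n → n ≤ B * N →
    ∃ M : ℕ → ℝ, Maj false n (Dl N) M ∧ ∑ q ∈ Icc 1 (Dl N), (K : ℝ) ^ q.primeFactors.card * M q ≤ N / Real.log N ^ U / 4 := by
  have hKr : (1 : ℝ) ≤ K := by exact_mod_cast hK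
  obtain ⟨k, hk⟩ := Pool.Agent.H398R2.BV.sum_pow_omega_div_totient (K : ℝ) hKr
  obtain ⟨N1, h1⟩ := ev_pow (2 ^ k + U) (4 * 2 ^ (2 ^ k)) (1 / 2) (by norm_num)
  obtain ⟨N4, h4⟩ := ev_L' 1
  refine ⟨max (max N1 N4) 3, fun N hN n _ _ => ?_⟩
  have b1 := h1 N (by omega)
  have b4 := h4 N (by omega)
  have hN3 : (3 : ℝ) ≤ N := by exact_mod_cast (by omega : 3 ≤ N)
  have hN0 : (0 : ℝ) < N := by linarith
  have hN1 : (1 : ℝ) ≤ N := by linarith
  have hDle : ((Dl N : ℕ) : ℝ) ≤ (N : ℝ) ^ (1 / 4 : ℝ) := Nat.floor_le (by positivity)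
  refine ⟨fun _ => 1, ⟨fun _ => zero_le_one, fun q a hq _ _ => ?_⟩, ?_⟩
  · unfold PI tot AP
    rw [if_neg (by simp), if_neg (by simp)]
    have h12 : ((Icc 1 n).filter (fun p => ar false p ∧ p ≡ a [MOD q])) = (Icc 1 n).filter (fun p => p ≡ a [MOD q]) := by
      apply filter_congr
      intro p _
      unfold ar
      simp
    rw [h12]
    exact count_class n q a hq
  · set L := Real.log N with hL
    have c1 : ∑ q ∈ Icc 1 (Dl N), (K : ℝ) ^ q.primeFactors.card * 1 ≤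
        (Dl N : ℝ) * ∑ q ∈ Icc 1 (Dl N), (K : ℝ) ^ q.primeFactors.card / (Nat.totient q : ℝ) := by
      rw [mul_sum]
      apply sum_le_sum
      intro q hq
      rw [mem_Icc] at hq
      have h2 : (0 : ℝ) < Nat.totient q := by exact_mod_cast Nat.totient_pos.2 hq.1
      have h3 : (Nat.totient q : ℝ) ≤ Dl N := by exact_mod_cast (Nat.totient_le q).trans hq.2
      rw [mul_one, ← mul_div_assoc, le_div_iff₀ h2, mul_comm]
      exact mul_le_mul_of_nonneg_right h3 (by positivity)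
    have c2 := hk (Dl N)
    have c3 : 1 + Real.log (Dl N : ℝ) ≤ 2 * L := by
      rcases Nat.eq_zero_or_pos (Dl N) with h0 | h0
      · rw [h0, Nat.cast_zero, Real.log_zero]
        linarith
      · have h2 : (1 : ℝ) ≤ (Dl N : ℝ) := by exact_mod_cast h0
        have h3 := Real.log_le_log (by linarith) hDle
        rw [Real.log_rpow hN0] at h3
        linarith
    have c4 : (1 + Real.log (Dl N : ℝ)) ^ (2 ^ k) ≤ (2 * L) ^ (2 ^ k) := by
      apply pow_le_pow_left₀ _ c3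
      have : 0 ≤ Real.log (Dl N : ℝ) := Real.log_natCast_nonneg _
      linarith
    have hL0 : 0 < L := by linarith
    calc ∑ q ∈ Icc 1 (Dl N), (K : ℝ) ^ q.primeFactors.card * 1
        ≤ (N : ℝ) ^ (1 / 4 : ℝ) * (2 * L) ^ (2 ^ k) := by
          refine c1.trans ?_
          apply mul_le_mul hDle (c2.trans c4) (sum_nonneg fun _ _ => by positivity) (by positivity)
      _ ≤ (N : ℝ) ^ (1 / 2 : ℝ) * (2 * L) ^ (2 ^ k) := by
          apply mul_le_mul_of_nonneg_right _ (by positivity)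
          exact Real.rpow_le_rpow_of_exponent_le hN1 (by norm_num)
      _ ≤ _ := by
          rw [div_div, le_div_iff₀ (by positivity)]
          calc (N : ℝ) ^ (1 / 2 : ℝ) * (2 * L) ^ (2 ^ k) * (L ^ U * 4) =
                (N : ℝ) ^ (1 / 2 : ℝ) * (4 * 2 ^ (2 ^ k) * L ^ (2 ^ k + U)) := by
                rw [mul_pow, pow_add]
                ring
            _ ≤ (N : ℝ) ^ (1 / 2 : ℝ) * (N : ℝ) ^ (1 / 2 : ℝ) := mul_le_mul_of_nonneg_left b1 (by positivity)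
            _ = N := by rw [← Real.rpow_add hN0]; norm_num

theorem maj_ex (e : Bool) (K : ℕ) (hK : 1 ≤ K) (W B U : ℕ) : ∃ N0 : ℕ, ∀ N : ℕ, N0 ≤ N → ∀ n : ℕ, (N : ℝ) / Real.log N ^ W ≤ n → n ≤ B * N →
    ∃ M : ℕ → ℝ, Maj e n (Dl N) M ∧ ∑ q ∈ Icc 1 (Dl N), (K : ℝ) ^ q.primeFactors.card * M q ≤ N / Real.log N ^ U / 4 := by
  cases e
  · exact maj_false K hK W B U
  · exact maj_true K hK W B U

lemma PI_le (e : Bool) (n : ℕ) : PI e n ≤ n := by
  unfold PI
  split_ifs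
  · unfold H343E.pi1
    exact_mod_cast (card_filter_le _ _).trans (by simp)
  · exact le_rfl

/-- the parameters of the sieve for all `n` of size about `N` -/
theorem params (e : Bool) (K K0 : ℕ) (hK : 1 ≤ K) (hKK : K0 ≤ K) (E W B U : ℕ) : ∃ N0 : ℕ, ∀ N : ℕ, N0 ≤ N → ∀ z : ℕ, 1 ≤ z →
    (z : ℝ) ≤ Real.log N ^ E →
    ∀ n : ℕ, (N : ℝ) / Real.log N ^ W ≤ n → n ≤ B * N → ∃ (r D : ℕ) (M : ℕ → ℝ), Maj e n D M ∧
      ∀ H : ℤ[X], (∀ q ∈ pz z, rho H q ≤ K0) →
      (∑ q ∈ Icc 1 D, (K : ℝ) ^ q.primeFactors.card * M q ≤ N / Real.log N ^ U ∧ ((K : ℝ) * (z + 1)) ^ r ≤ (N : ℝ) ^ (1 / 16 : ℝ) ∧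
        (∀ T ⊆ pz z, es (gd e H) T r ≤ 1 / Real.log N ^ U) ∧ z * (z + 1) ^ r ≤ D) ∧
      ∀ (P : Finset ℕ) (m Y : ℕ), (∀ q ∈ P, q.Prime ∧ z < q) → P ⊆ Icc 1 Y → 1 ≤ Y → (m : ℝ) ≤ 2 * Real.log (Real.log N) + 2 →
        (Y : ℝ) ^ m ≤ (N : ℝ) ^ (1 / 8 : ℝ) → (Y : ℝ) ≤ N →
        (∀ S ⊆ P, S.card ≤ m → (∏ q ∈ S, q) * (z + 1) ^ r ≤ D) ∧
        ∀ A : ℕ → ℝ, (∀ q ∈ P, 0 ≤ A q ∧ A q ≤ K) →
          ∑ j ∈ range (m + 1), ∑ S ∈ P.powersetCard j, (∏ q ∈ S, A q) * Err e H K0 n z r M (∏ q ∈ S, q) ≤ N / Real.log N ^ U := by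
  obtain ⟨Cm, hCm⟩ := Pool.Agent.Helper256.KM.mertens_inv
  set Cm' : ℝ := max Cm 0 with hCm'
  set U2 : ℕ := U + 2 * K + 2 with hU2
  obtain ⟨N1, hchoice⟩ := choice (2 * K) E U2 (16 * (K + 1))
  obtain ⟨N8, hmaj⟩ := maj_ex e K hK W B U
  obtain ⟨N2, hsz⟩ := sizes W B
  obtain ⟨N4, h4⟩ := ev_L' (8 * B * Real.exp (2 * K * (Cm' + 1)) + 8)
  obtain ⟨N5, h5⟩ := ev_pow (U + 1) 1 (1 / 2) (by norm_num)
  -- `(2K)^m` is small
  obtain ⟨N6, h6⟩ := ev_pow (2 * (2 * K)) ((2 * K : ℝ) ^ 3) (1 / 16) (by norm_num)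
  obtain ⟨N7, h7z⟩ := ev_pow E 1 (1 / 16) (by norm_num)
  refine ⟨max (max (max N1 N2) (max N8 N4)) (max (max N5 N6) (max N7 3)), fun N hN z hz hzE n hn hnB => ?_⟩
  obtain ⟨r, hr1, hr2, -⟩ := hchoice N (by omega) z hzE
  obtain ⟨s1, s2, s3⟩ := hsz N (by omega) n hn hnB
  obtain ⟨M, hM, T1⟩ := hmaj N (by omega) n hn hnB
  have b4 := h4 N (by omega)
  have b5 := h5 N (by omega)
  have b6 := h6 N (by omega)
  have hN3 : (3 : ℝ) ≤ N := by exact_mod_cast (by omega : 3 ≤ N)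
  have hN0 : (0 : ℝ) < N := by linarith
  have hN1 : (1 : ℝ) ≤ N := by linarith
  have hKr : (1 : ℝ) ≤ K := by exact_mod_cast hK
  have hK0r : (K0 : ℝ) ≤ K := by exact_mod_cast hKK
  have hBr : (0 : ℝ) ≤ B := Nat.cast_nonneg _
  have hCm0 : 0 ≤ Cm' := le_max_right _ _
  set L := Real.log N with hLd
  have hexp0 : 0 < Real.exp (2 * K * (Cm' + 1)) := Real.exp_pos _
  have hL8 : 8 ≤ L := by
    have : 0 ≤ 8 * (B : ℝ) * Real.exp (2 * K * (Cm' + 1)) := by positivity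
    linarith
  have hL0 : 0 < L := by linarith
  have hL1 : 1 ≤ L := by linarith
  have hzr0 : ((K : ℝ) * (z + 1)) ^ r ≤ (N : ℝ) ^ (1 / 16 : ℝ) := by
    have h7 : (((z : ℝ) + 1) ^ r) ^ (16 * (K + 1)) ≤ N := hr2
    have h9 : (K : ℝ) * (z + 1) ≤ ((z : ℝ) + 1) ^ (K + 1) := by
      rw [pow_succ]
      apply mul_le_mul_of_nonneg_right _ (by positivity)
      have hz1 : (1 : ℝ) ≤ z := by exact_mod_cast hz
      have h10 : (K : ℝ) ≤ 2 ^ K := by exact_mod_cast (Nat.lt_two_pow_self (n := K)).le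
      refine h10.trans ?_
      apply pow_le_pow_left₀ (by norm_num)
      linarith
    have h10 : (((K : ℝ) * (z + 1)) ^ r) ^ 16 ≤ N := by
      refine le_trans ?_ h7
      calc (((K : ℝ) * (z + 1)) ^ r) ^ 16 ≤ ((((z : ℝ) + 1) ^ (K + 1)) ^ r) ^ 16 := by gcongr
        _ = _ := by rw [← pow_mul, ← pow_mul, ← pow_mul]; congr 1; ring
    have h8 := Real.rpow_le_rpow (by positivity) h10 (show (0 : ℝ) ≤ 1 / 16 by norm_num)
    rw [← Real.rpow_natCast ((((K : ℝ) * (z + 1)) ^ r)) 16, ← Real.rpow_mul (by positivity)] at h8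
    norm_num at h8
    norm_num
    exact h8
  have hzr : ((z : ℝ) + 1) ^ r ≤ (N : ℝ) ^ (1 / 16 : ℝ) := by
    refine le_trans ?_ hzr0
    apply pow_le_pow_left₀ (by positivity)
    nlinarith [(Nat.cast_nonneg z : (0 : ℝ) ≤ z)]
  refine ⟨r, Dl N, M, hM, fun H hH => ?_⟩
  have hes2 : ∀ T ⊆ pz z, es (gd e H) T r ≤ 1 / L ^ U2 := by
    intro T hT
    refine (es_le (fun p hp => gd_nonneg e H (mem_pz.1 (hT hp)).2) r).trans (le_trans ?_ hr1)
    apply Real.exp_le_exp.2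
    have h7 : ∑ p ∈ T, gd e H p ≤ (2 * K : ℕ) * (1 + Real.log z) := by
      calc ∑ p ∈ T, gd e H p ≤ ∑ p ∈ pz z, ((2 * K : ℕ) : ℝ) * (1 / (p : ℝ)) := by
            refine (sum_le_sum fun p hp => gd_le' e H (mem_pz.1 (hT hp)).2 K ((hH p (hT hp)).trans hKK)).trans ?_
            exact sum_le_sum_of_subset_of_nonneg hT fun p _ _ => by positivity
        _ = ((2 * K : ℕ) : ℝ) * ∑ p ∈ pz z, 1 / (p : ℝ) := by rw [mul_sum]
        _ ≤ _ := mul_le_mul_of_nonneg_left (sum_pz_le z) (by positivity)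
    linarith
  refine ⟨⟨?_, hzr0, ?_, ?_⟩, ?_⟩
  · have : 0 ≤ N / L ^ U := by positivity
    linarith
  · intro T hT
    refine (hes2 T hT).trans ?_
    apply one_div_le_one_div_of_le (by positivity)
    exact pow_le_pow_right₀ hL1 (by omega)
  · apply Nat.le_floor
    push_cast
    have b7 := h7z N (by omega)
    rw [one_mul] at b7
    calc (z : ℝ) * ((z : ℝ) + 1) ^ r ≤ (N : ℝ) ^ (1 / 16 : ℝ) * (N : ℝ) ^ (1 / 16 : ℝ) :=
          mul_le_mul (hzE.trans b7) hzr (by positivity) (by positivity)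
      _ = (N : ℝ) ^ (1 / 8 : ℝ) := by rw [← Real.rpow_add hN0]; norm_num
      _ ≤ (N : ℝ) ^ (1 / 4 : ℝ) := Real.rpow_le_rpow_of_exponent_le hN1 (by norm_num)
  intro P m Y hP hPY hY hm hYm hYN
  have hY1 : (1 : ℝ) ≤ Y := by exact_mod_cast hY
  have hDS : ∀ S ⊆ P, S.card ≤ m → (∏ q ∈ S, q) * (z + 1) ^ r ≤ Dl N := by
    intro S hS hSm
    apply Nat.le_floor
    push_cast
    have h7 : (∏ q ∈ S, (q : ℝ)) ≤ (Y : ℝ) ^ m := by
      calc (∏ q ∈ S, (q : ℝ)) ≤ ∏ _q ∈ S, (Y : ℝ) := by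
            apply Finset.prod_le_prod (fun _ _ => Nat.cast_nonneg _)
            intro q hq
            exact_mod_cast (mem_Icc.1 (hPY (hS hq))).2
        _ = (Y : ℝ) ^ S.card := by rw [prod_const]
        _ ≤ (Y : ℝ) ^ m := pow_le_pow_right₀ hY1 hSm
    calc (∏ q ∈ S, (q : ℝ)) * ((z : ℝ) + 1) ^ r ≤ (N : ℝ) ^ (1 / 8 : ℝ) * (N : ℝ) ^ (1 / 16 : ℝ) :=
          mul_le_mul (h7.trans hYm) hzr (by positivity) (by positivity)
      _ = (N : ℝ) ^ (3 / 16 : ℝ) := by rw [← Real.rpow_add hN0]; norm_num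
      _ ≤ (N : ℝ) ^ (1 / 4 : ℝ) := Real.rpow_le_rpow_of_exponent_le hN1 (by norm_num)
  refine ⟨hDS, fun A hA => ?_⟩
  have key := err_sum e H K0 n z r m (Dl N) P hP hDS M hM.1 K hKr hK0r A hA
  -- the second term
  have hN4 : (N : ℝ) ^ (1 / 4 : ℝ) ≤ N / L ^ U / 4 := by
    rw [div_div, le_div_iff₀ (by positivity)]
    rw [one_mul] at b5
    have c1 : L ^ U * 4 ≤ L ^ (U + 1) := by
      rw [pow_succ]
      exact mul_le_mul_of_nonneg_left (by linarith) (by positivity)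
    calc (N : ℝ) ^ (1 / 4 : ℝ) * (L ^ U * 4) ≤ (N : ℝ) ^ (1 / 2 : ℝ) * (N : ℝ) ^ (1 / 2 : ℝ) := by
          apply mul_le_mul (Real.rpow_le_rpow_of_exponent_le hN1 (by norm_num)) (c1.trans b5) (by positivity) (by positivity)
      _ = N := by rw [← Real.rpow_add hN0]; norm_num
  have hlL : 0 ≤ Real.log L := Real.log_nonneg hL1
  have T2 : ((K : ℝ) * ((P.card : ℝ) + 1)) ^ m * ((K : ℝ) * ((z : ℝ) + 1)) ^ r ≤ N / L ^ U / 4 := by
    have c1 : (P.card : ℝ) ≤ Y := by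
      have := card_le_card hPY
      rw [Nat.card_Icc] at this
      exact_mod_cast (by omega : P.card ≤ Y)
    have c2 : ((K : ℝ) * ((P.card : ℝ) + 1)) ^ m ≤ (2 * K : ℝ) ^ m * (Y : ℝ) ^ m := by
      rw [← mul_pow]
      apply pow_le_pow_left₀ (by positivity)
      nlinarith
    have c3 : (2 * K : ℝ) ^ m ≤ (N : ℝ) ^ (1 / 16 : ℝ) := by
      refine le_trans ?_ b6
      have d0 : (0 : ℝ) < 2 * K := by positivity
      have d1 : Real.log (2 * K) ≤ 2 * K := (Real.log_le_sub_one_of_pos d0).trans (by linarith)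
      have d2 : 0 ≤ Real.log (2 * K) := Real.log_nonneg (by linarith)
      have d3 : (2 * K : ℝ) ^ m = Real.exp (m * Real.log (2 * K)) := by
        rw [Real.exp_nat_mul, Real.exp_log d0]
      have d4 : (m : ℝ) * Real.log (2 * K) ≤ 2 * Real.log (2 * K) + (2 * (2 * K) : ℕ) * Real.log L := by
        calc (m : ℝ) * Real.log (2 * K) ≤ (2 * Real.log L + 2) * Real.log (2 * K) :=
              mul_le_mul_of_nonneg_right hm d2
          _ = 2 * Real.log (2 * K) + 2 * Real.log (2 * K) * Real.log L := by ring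
          _ ≤ _ := by
              push_cast
              have : 2 * Real.log (2 * K) * Real.log L ≤ 2 * (2 * K) * Real.log L :=
                mul_le_mul_of_nonneg_right (by linarith) hlL
              linarith
      rw [d3]
      refine (Real.exp_le_exp.2 d4).trans ?_
      rw [Real.exp_add, Real.exp_nat_mul, Real.exp_log hL0]
      apply mul_le_mul_of_nonneg_right _ (by positivity)
      have d5 : Real.exp (2 * Real.log (2 * K)) = (2 * K : ℝ) ^ 2 := by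
        have := Real.exp_nat_mul (Real.log (2 * K)) 2
        push_cast at this
        rw [this, Real.exp_log d0]
      rw [d5]
      exact pow_le_pow_right₀ (by linarith) (by norm_num)
    refine le_trans ?_ hN4
    calc ((K : ℝ) * ((P.card : ℝ) + 1)) ^ m * ((K : ℝ) * ((z : ℝ) + 1)) ^ r
        ≤ ((N : ℝ) ^ (1 / 16 : ℝ) * (N : ℝ) ^ (1 / 8 : ℝ)) * (N : ℝ) ^ (1 / 16 : ℝ) := by
          apply mul_le_mul (c2.trans (mul_le_mul c3 hYm (by positivity) (by positivity))) hzr0 (by positivity) (by positivity)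
      _ = (N : ℝ) ^ (1 / 4 : ℝ) := by rw [← Real.rpow_add hN0, ← Real.rpow_add hN0]; norm_num
  -- the third term
  have T3 : 2 * PI e n * es (gd e H) (pz z) r * Real.exp (K * ∑ q ∈ P, 1 / ((q : ℝ) - 1)) ≤ N / L ^ U / 4 := by
    have c1 : PI e n ≤ B * N := by
      have := PI_le e n
      have h7 : (n : ℝ) ≤ B * N := by exact_mod_cast hnB
      linarith
    have c2 : es (gd e H) (pz z) r ≤ 1 / L ^ U2 := hes2 _ (Subset.refl _)
    have c3 : ∑ q ∈ P, 1 / ((q : ℝ) - 1) ≤ 2 * (Real.log L + Cm' + 1) := by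
      calc ∑ q ∈ P, 1 / ((q : ℝ) - 1) ≤ ∑ q ∈ P, 2 * (1 / (q : ℝ)) := by
            apply sum_le_sum
            intro q hq
            have : (2 : ℝ) ≤ q := by exact_mod_cast (hP q hq).1.two_le
            rw [mul_one_div, div_le_div_iff₀ (by linarith) (by linarith)]; linarith
        _ ≤ ∑ q ∈ (Icc 1 Y).filter Nat.Prime, 2 * (1 / (q : ℝ)) := by
            apply sum_le_sum_of_subset_of_nonneg
            · intro q hq
              exact mem_filter.2 ⟨hPY hq, (hP q hq).1⟩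
            · intro q _ _
              positivity
        _ = 2 * ∑ q ∈ (Icc 1 Y).filter Nat.Prime, 1 / (q : ℝ) := by rw [mul_sum]
        _ ≤ 2 * (Real.log L + Cm' + 1) := by
            apply mul_le_mul_of_nonneg_left _ (by norm_num)
            rcases Nat.lt_or_ge Y 3 with h7 | h7
            · have h8 : ∑ q ∈ (Icc 1 Y).filter Nat.Prime, 1 / (q : ℝ) ≤ ∑ q ∈ ({2} : Finset ℕ), 1 / (q : ℝ) := by
                apply sum_le_sum_of_subset_of_nonneg
                · intro q hq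
                  rw [mem_filter, mem_Icc] at hq
                  have := hq.2.two_le
                  rw [mem_singleton]
                  omega
                · intro q _ _
                  positivity
              rw [sum_singleton] at h8
              norm_num at h8
              norm_num
              linarith
            · have h8 := (abs_le.1 (hCm Y h7)).2
              have h9 : Real.log (Real.log Y) ≤ Real.log L := by
                have h10 : (1 : ℝ) < Y := by exact_mod_cast (by omega : 1 < Y)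
                apply Real.log_le_log (Real.log_pos h10)
                exact Real.log_le_log (by linarith) hYN
              have h10 : Cm ≤ Cm' := le_max_left _ _
              linarith
    have c4 : Real.exp (K * ∑ q ∈ P, 1 / ((q : ℝ) - 1)) ≤ L ^ (2 * K) * Real.exp (2 * K * (Cm' + 1)) := by
      have h7 : (K : ℝ) * ∑ q ∈ P, 1 / ((q : ℝ) - 1) ≤ (2 * K : ℕ) * Real.log L + 2 * K * (Cm' + 1) := by
        have := mul_le_mul_of_nonneg_left c3 (show (0 : ℝ) ≤ K by linarith)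
        push_cast
        nlinarith
      refine (Real.exp_le_exp.2 h7).trans ?_
      rw [Real.exp_add, Real.exp_nat_mul, Real.exp_log hL0]
    have hes : 0 ≤ es (gd e H) (pz z) r := es_gd_nonneg e H z r
    have hpi := PI_nonneg e n
    calc 2 * PI e n * es (gd e H) (pz z) r * Real.exp (K * ∑ q ∈ P, 1 / ((q : ℝ) - 1))
        ≤ 2 * (B * N) * (1 / L ^ U2) * (L ^ (2 * K) * Real.exp (2 * K * (Cm' + 1))) := by
          apply mul_le_mul _ c4 (Real.exp_pos _).le (by positivity)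
          apply mul_le_mul (mul_le_mul_of_nonneg_left c1 (by norm_num)) c2 hes (by positivity)
      _ = (2 * B * Real.exp (2 * K * (Cm' + 1)) / L ^ 2) * (N / L ^ U) := by
          rw [hU2, show U + 2 * K + 2 = U + 2 + 2 * K by ring, pow_add L (U + 2), pow_add L U 2]
          field_simp
      _ ≤ (1 / 4) * (N / L ^ U) := by
          apply mul_le_mul_of_nonneg_right _ (by positivity)
          rw [div_le_div_iff₀ (by positivity) (by norm_num), one_mul]
          nlinarith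
      _ = _ := by ring
  have hfin : N / L ^ U / 4 + N / L ^ U / 4 + N / L ^ U / 4 ≤ N / L ^ U := by
    have : 0 ≤ N / L ^ U := by positivity
    linarith
  linarith

end Pool.Agent.K4H18.GV
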