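import Pool.Agent.K4H18.GV.G4

set_option autoImplicit false

/-! The characteristic function of the model: the limit. -/

namespace Pool.Agent.K4H18.GV

open Finset Polynomial
open Pool.Agent.H373R2.T7 (pz mem_pz)
open Pool.Agent.H474R2.PG (rho PR Sg)
open Pool.Agent.K4H18.EK (coprime_of_irr bezout_int eval_zero_ne hh norm_exp_I norm_exp_sub_one_le one_add_hh prod_hh sum_hh
  sum_norm_hh PP mem_PP YN mN ev_lam par_sizes SS SS_diff SS_est z_le_Y prod_exp exp_taylor sum_inv_sq_PP cntP)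

/-- irreducible polynomials of positive degree, pairwise not associated, and not associated to `X`
in the case of prime arguments -/
structure Fam {k : ℕ} (e : Bool) (F : Fin k → ℤ[X]) : Prop where
  irr : ∀ i, Irreducible (F i)
  deg : ∀ i, 0 < (F i).natDegree
  neX : e = true → ∀ i, ¬ Associated (F i) X
  nass : ∀ i j, i ≠ j → ¬ Associated (F i) (F j)

/-- the arithmetic facts about a family of polynomials -/
lemma poly_facts {k : ℕ} (e : Bool) (F : Fin k → ℤ[X]) (hF : Fam e F) : ∃ R D : ℕ, 1 ≤ D ∧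
    (∀ q : ℕ, q.Prime → R < q → (e = true → ∀ i, ¬ (q : ℤ) ∣ (F i).eval 0) ∧
      ∀ i j, i ≠ j → ∀ b : ℤ, ¬ ((q : ℤ) ∣ (F i).eval b ∧ (q : ℤ) ∣ (F j).eval b)) ∧
    ∀ q : ℕ, q.Prime → ∀ i, rho (F i) q ≤ D := by
  classical
  -- the resultants
  have h1 : ∀ i j, ∃ R : ℤ, R ≠ 0 ∧ (i ≠ j → ∃ u v : ℤ[X], u * F i + v * F j = C R) := by
    intro i j
    by_cases hij : i = j
    · exact ⟨1, one_ne_zero, fun h => absurd hij h⟩
    · obtain ⟨u, v, R, hR, h⟩ := bezout_int (coprime_of_irr (hF.irr i) (hF.irr j) (hF.deg i) (hF.deg j) (hF.nass i j hij))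
      exact ⟨R, hR, fun _ => ⟨u, v, h⟩⟩
  choose R hR0 hR using h1
  have h2 : ∀ i, ∃ B : ℕ, ∀ p : ℕ, p.Prime → B < p → rho (F i) p ≤ (F i).natDegree :=
    fun i => Pool.Agent.H474R2.PG.rho_le (F i) (hF.irr i).ne_zero
  choose B hB using h2
  have hsmall : ∀ (x : ℤ) (q : ℕ), x ≠ 0 → x.natAbs < q → ¬ (q : ℤ) ∣ x := by
    intro x q hx hxq hd
    have h1 := Int.natAbs_dvd_natAbs.mpr hd
    rw [Int.natAbs_natCast] at h1
    exact absurd (Nat.le_of_dvd (Int.natAbs_pos.mpr hx) h1) (by omega)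
  refine ⟨∑ i, ((F i).eval 0).natAbs + ∑ i, ∑ j, (R i j).natAbs, ∑ i, (B i + (F i).natDegree) + 1, by omega, ?_, ?_⟩
  · intro q hq hRq
    constructor
    · intro he i
      apply hsmall _ _ (eval_zero_ne (hF.irr i) (hF.neX he i))
      have := single_le_sum (f := fun i => ((F i).eval 0).natAbs) (s := univ) (fun _ _ => Nat.zero_le _) (mem_univ i)
      omega
    · intro i j hij b hb
      obtain ⟨u, v, huv⟩ := hR i j hij
      have h3 : (q : ℤ) ∣ R i j := by
        have := congrArg (Polynomial.eval b) huv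
        rw [eval_add, eval_mul, eval_mul, eval_C] at this
        rw [← this]
        exact dvd_add (hb.1.mul_left _) (hb.2.mul_left _)
      refine hsmall _ _ (hR0 i j) ?_ h3
      have a1 := single_le_sum (f := fun j => (R i j).natAbs) (s := univ) (fun _ _ => Nat.zero_le _) (mem_univ j)
      have a2 := single_le_sum (f := fun i => ∑ j, (R i j).natAbs) (s := univ) (fun _ _ => Nat.zero_le _) (mem_univ i)
      omega
  · intro q hq i
    have a1 := single_le_sum (f := fun i => (B i + (F i).natDegree)) (s := univ) (fun _ _ => Nat.zero_le _) (mem_univ i)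
    rcases Nat.lt_or_ge (B i) q with h | h
    · have := hB i q hq h
      omega
    · have := Pool.Agent.H474R2.PG.rho_le_self (F i) q
      omega


/-- the arithmetic facts about a family of polynomials with the constants `R`, `D` -/
structure Facts {k : ℕ} (e : Bool) (F : Fin k → ℤ[X]) (R D : ℕ) : Prop where
  D1 : 1 ≤ D
  zero : e = true → ∀ q : ℕ, q.Prime → R < q → ∀ i, ¬ (q : ℤ) ∣ (F i).eval 0
  disj : ∀ q : ℕ, q.Prime → R < q → ∀ i j, i ≠ j → ∀ b : ℤ, ¬ ((q : ℤ) ∣ (F i).eval b ∧ (q : ℤ) ∣ (F j).eval b)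
  rho_le : ∀ q : ℕ, q.Prime → ∀ i, rho (F i) q ≤ D

lemma exists_facts {k : ℕ} (e : Bool) (F : Fin k → ℤ[X]) (hF : Fam e F) : ∃ R D : ℕ, Facts e F R D := by
  obtain ⟨R, D, h1, h2, h3⟩ := poly_facts e F hF
  exact ⟨R, D, h1, fun he q hq hR => (h2 q hq hR).1 he, fun q hq hR => (h2 q hq hR).2, h3⟩

/-- the local mean -/
noncomputable def eta {k : ℕ} (e : Bool) (F : Fin k → ℤ[X]) (θ : Fin k → ℝ) (q : ℕ) : ℂ :=
  (∑ b ∈ range q, hh F θ q b) / ((q : ℂ) - e.toNat)

lemma hh_zero {k : ℕ} {e : Bool} (he : e = true) {F : Fin k → ℤ[X]} {R D : ℕ} (hf : Facts e F R D) (θ : Fin k → ℝ) {q : ℕ}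
    (hq : q.Prime) (hR : R < q) : hh F θ q 0 = 0 := by
  unfold hh
  apply sum_eq_zero
  intro i _
  rw [if_neg]
  exact_mod_cast hf.zero he q hq hR i

lemma norm_one_add_hh {k : ℕ} {e : Bool} {F : Fin k → ℤ[X]} {R D : ℕ} (hf : Facts e F R D) (θ : Fin k → ℝ) {q : ℕ} (hq : q.Prime)
    (hR : R < q) (b : ℕ) : ‖1 + hh F θ q b‖ ≤ 1 := by
  rw [one_add_hh F θ q b (fun i j hij => hf.disj q hq hR i j hij b), norm_exp_I]

lemma eta_eq {k : ℕ} (e : Bool) (F : Fin k → ℤ[X]) (θ : Fin k → ℝ) (q : ℕ) :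
    eta e F θ q = ∑ i, (Complex.exp (Complex.I * θ i) - 1) * (((rho (F i) q : ℝ) / ((q : ℝ) - e.toNat) : ℝ) : ℂ) := by
  unfold eta
  rw [sum_hh, sum_div]
  apply sum_congr rfl
  intro i _
  push_cast
  ring

lemma eta_norm {k : ℕ} {e : Bool} {F : Fin k → ℤ[X]} {R D : ℕ} (hf : Facts e F R D) (θ : Fin k → ℝ) {q : ℕ} (hq : q.Prime) :
    ‖eta e F θ q‖ ≤ (D * ∑ i, |θ i|) / ((q : ℝ) - 1) := by
  unfold eta
  have h2 : (2 : ℝ) ≤ q := by exact_mod_cast hq.two_le
  have h3 : (e.toNat : ℝ) ≤ 1 := by exact_mod_cast Bool.toNat_le e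
  have h4 : 0 ≤ ∑ i, |θ i| := sum_nonneg fun i _ => abs_nonneg _
  rw [norm_div, norm_sub e hq]
  apply div_le_div₀ (by positivity) _ (by linarith) (by linarith)
  exact (norm_sum_le _ _).trans (sum_norm_hh F θ q D (hf.rho_le q hq))

lemma eta_re {k : ℕ} (e : Bool) (F : Fin k → ℤ[X]) (θ : Fin k → ℝ) {q : ℕ} (hq : q.Prime) : (eta e F θ q).re ≤ 0 := by
  have h2 := sub_pos' e hq
  rw [eta_eq, Complex.re_sum]
  apply sum_nonpos
  intro i _
  rw [Complex.re_mul_ofReal]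
  apply mul_nonpos_of_nonpos_of_nonneg
  · rw [Complex.sub_re, Complex.one_re, mul_comm, Complex.exp_ofReal_mul_I_re]
    have := Real.cos_le_one (θ i)
    linarith
  · apply div_nonneg (Nat.cast_nonneg _); linarith

/-- the sum of the local means -/
noncomputable def SSe (e : Bool) (f : ℤ[X]) (P : Finset ℕ) : ℝ := ∑ q ∈ P, (rho f q : ℝ) / ((q : ℝ) - e.toNat)

theorem SSe_est (e : Bool) (f : ℤ[X]) (hf : Irreducible f) (hd : 0 < f.natDegree) (D : ℕ) (hD : ∀ q, q.Prime → rho f q ≤ D) (E : ℕ) :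
    ∃ (C : ℝ) (N0 : ℕ), 0 ≤ C ∧ ∀ N : ℕ, N0 ≤ N → ∀ z : ℕ, 3 ≤ z → (z : ℝ) ≤ Real.log N ^ E →
      |SSe e f (PP z (YN N)) - Real.log (Real.log N)| ≤ C * (1 + Real.log (Real.log (Real.log N))) := by
  obtain ⟨C, N0, hC, h⟩ := SS_est f hf hd D hD E
  obtain ⟨N1, h1⟩ := ev_lam 3 1 one_pos
  refine ⟨C + 8 * D, max N0 N1, by positivity, fun N hN z hz3 hz => ?_⟩
  have h2 := h N (by omega) z hz3 hz
  obtain ⟨-, a2, -⟩ := h1 N (by omega)
  have hll : 0 ≤ Real.log (Real.log (Real.log N)) := Real.log_nonneg a2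
  obtain ⟨d1, d2⟩ := SS_diff f (PP z (YN N)) D hD z (YN N) rfl
  have h3 : |SSe e f (PP z (YN N)) - SS f (PP z (YN N))| ≤ 8 * D := by
    cases e
    · have e1 : SSe false f (PP z (YN N)) = ∑ q ∈ PP z (YN N), (rho f q : ℝ) / (q : ℝ) := by
        unfold SSe
        simp
      rw [e1, abs_le]
      have : (0 : ℝ) ≤ 8 * D := by positivity
      constructor <;> linarith
    · have e1 : SSe true f (PP z (YN N)) = SS f (PP z (YN N)) := by
        unfold SSe SS
        simp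
      rw [e1, sub_self, abs_zero]
      positivity
  have h4 : |SSe e f (PP z (YN N)) - Real.log (Real.log N)| ≤ 8 * D + C * (1 + Real.log (Real.log (Real.log N))) := by
    have := abs_add_le (SSe e f (PP z (YN N)) - SS f (PP z (YN N))) (SS f (PP z (YN N)) - Real.log (Real.log N))
    rw [sub_add_sub_cancel] at this
    linarith
  have h5 : (0 : ℝ) ≤ 8 * D * Real.log (Real.log (Real.log N)) := by positivity
  nlinarith

theorem model_limit {k : ℕ} (e : Bool) (F : Fin k → ℤ[X]) (hF : Fam e F) (R D : ℕ) (hf : Facts e F R D) (E : ℕ) (T0 ε : ℝ) (hT0 : 0 ≤ T0)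
    (hε : 0 < ε) : ∃ N0 : ℕ, ∀ N : ℕ, N0 ≤ N → ∀ z : ℕ, 3 ≤ z → R ≤ z → (z : ℝ) ≤ Real.log N ^ E →
      ∀ t : Fin k → ℝ, (∀ i, |t i| ≤ T0) →
      ‖Complex.exp (-(Complex.I * ((∑ i, t i * √(Real.log (Real.log N)) : ℝ) : ℂ))) *
        ∏ q ∈ PP z (YN N), (1 + eta e F (fun i => t i / √(Real.log (Real.log N))) q) -
        ((Real.exp (-∑ i, t i ^ 2 / 2) : ℝ) : ℂ)‖ ≤ ε := by
  -- the Mertens sums
  have hS : ∀ i, ∃ (C : ℝ) (N0 : ℕ), 0 ≤ C ∧ ∀ N : ℕ, N0 ≤ N → ∀ z : ℕ, 3 ≤ z → (z : ℝ) ≤ Real.log N ^ E →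
      |SSe e (F i) (PP z (YN N)) - Real.log (Real.log N)| ≤ C * (1 + Real.log (Real.log (Real.log N))) :=
    fun i => SSe_est e (F i) (hF.irr i) (hF.deg i) D (fun q hq => hf.rho_le q hq i) E
  choose C0 M0 hC0 hM0 using hS
  set Cs : ℝ := ∑ i, C0 i with hCs
  have hCs0 : 0 ≤ Cs := sum_nonneg fun i _ => hC0 i
  have hCi : ∀ i, C0 i ≤ Cs := fun i => single_le_sum (fun j _ => hC0 j) (mem_univ i)
  set Ms : ℕ := ∑ i, M0 i with hMs
  have hMi : ∀ i, M0 i ≤ Ms := fun i => single_le_sum (f := M0) (fun j _ => Nat.zero_le _) (mem_univ i)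
  set CC : ℝ := 8 * (D * (k * T0)) ^ 2 + 2 * (k * (6 * T0 ^ 3 + 2 * T0 * Cs)) with hCC
  have hD0 : (0 : ℝ) ≤ D := Nat.cast_nonneg _
  have hk0 : (0 : ℝ) ≤ k := Nat.cast_nonneg _
  obtain ⟨N1, h1⟩ := ev_lam CC (min ε 1) (by positivity)
  obtain ⟨N2, h2⟩ := ev_lam (Cs + 1) (1) one_pos
  obtain ⟨N3, h3⟩ := ev_lam ((D * (k * T0)) ^ 2 + T0 ^ 2) (1) one_pos
  refine ⟨max (max Ms N1) (max N2 N3), fun N hN z hz3 hzR hzE t ht => ?_⟩
  obtain ⟨-, a1, a2⟩ := h1 N (by omega)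
  obtain ⟨-, -, a4⟩ := h2 N (by omega)
  obtain ⟨a5, -, -⟩ := h3 N (by omega)
  set lam := Real.log (Real.log N) with hlam
  set σ := √lam with hσ
  have hlam0 : 0 < lam := by linarith
  have hσ0 : 0 < σ := Real.sqrt_pos.2 hlam0
  have hσ2 : σ * σ = lam := Real.mul_self_sqrt hlam0.le
  have hσ1 : 1 ≤ σ := by rw [hσ, Real.one_le_sqrt]; exact a1
  have hσlam : σ ≤ lam := by nlinarith
  have hll : 0 ≤ Real.log lam := Real.log_nonneg a1
  set P := PP z (YN N) with hP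
  have hPp : ∀ q ∈ P, q.Prime ∧ R < q := fun q hq => ⟨(mem_PP.1 hq).2.2, lt_of_le_of_lt hzR (mem_PP.1 hq).1⟩
  set θ : Fin k → ℝ := fun i => t i / σ with hθ
  have hθi : ∀ i, |θ i| ≤ T0 / σ := by
    intro i
    rw [hθ]
    simp only
    rw [abs_div, abs_of_pos hσ0]
    exact div_le_div_of_nonneg_right (ht i) hσ0.le
  have hTσ : T0 / σ ≤ 1 := by
    rw [div_le_one hσ0]
    have : T0 ^ 2 ≤ lam := by nlinarith [sq_nonneg (D * (k * T0))]
    exact Real.le_sqrt_of_sq_le this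
  have hTσ0 : 0 ≤ T0 / σ := by positivity
  have hsumθ : ∑ i, |θ i| ≤ k * (T0 / σ) := by
    calc ∑ i, |θ i| ≤ ∑ _i : Fin k, T0 / σ := sum_le_sum fun i _ => hθi i
      _ = k * (T0 / σ) := by rw [sum_const, card_univ, Fintype.card_fin, nsmul_eq_mul]
  have hsumθ0 : 0 ≤ ∑ i, |θ i| := sum_nonneg fun i _ => abs_nonneg _
  set G : ℝ := D * (k * (T0 / σ)) with hG
  have hG0 : 0 ≤ G := by positivity
  have hG1 : G ≤ 1 := by
    have e0 : G = (D * (k * T0)) / σ := by rw [hG]; ring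
    rw [e0, div_le_one hσ0]
    have : (D * (k * T0)) ^ 2 ≤ lam := by nlinarith [sq_nonneg T0]
    exact Real.le_sqrt_of_sq_le this
  have hDG : D * ∑ i, |θ i| ≤ G := mul_le_mul_of_nonneg_left hsumθ hD0
  have hη : ∀ q ∈ P, ‖eta e F θ q‖ ≤ G / ((q : ℝ) - 1) := by
    intro q hq
    refine (eta_norm hf θ (hPp q hq).1).trans ?_
    apply div_le_div_of_nonneg_right hDG
    have h2 : (2 : ℝ) ≤ q := by exact_mod_cast (hPp q hq).1.two_le
    linarith
  have hη1 : ∀ q ∈ P, ‖eta e F θ q‖ ≤ 1 := by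
    intro q hq
    refine (hη q hq).trans ?_
    have h2 : (2 : ℝ) ≤ q := by exact_mod_cast (hPp q hq).1.two_le
    rw [div_le_one (by linarith)]
    linarith
  have s1 := prod_exp P (eta e F θ)
    (fun q hq => norm_avg e (hPp q hq).1 _ (fun he => hh_zero he hf θ (hPp q hq).1 (hPp q hq).2)
      (fun b => norm_one_add_hh hf θ (hPp q hq).1 (hPp q hq).2 b))
    (fun q hq => eta_re e F θ (hPp q hq).1) hη1
  have s2 : ∑ q ∈ P, ‖eta e F θ q‖ ^ 2 ≤ 8 * (D * (k * T0)) ^ 2 / lam := by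
    calc ∑ q ∈ P, ‖eta e F θ q‖ ^ 2 ≤ ∑ q ∈ P, G ^ 2 * (1 / ((q : ℝ) - 1) ^ 2) := by
          apply sum_le_sum
          intro q hq
          have := pow_le_pow_left₀ (norm_nonneg _) (hη q hq) 2
          rw [div_pow] at this
          rw [mul_one_div]
          exact this
      _ = G ^ 2 * ∑ q ∈ P, 1 / ((q : ℝ) - 1) ^ 2 := by rw [mul_sum]
      _ ≤ G ^ 2 * 8 := mul_le_mul_of_nonneg_left (sum_inv_sq_PP z (YN N)) (by positivity)
      _ = _ := by
          rw [hG, ← hσ2]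
          field_simp
  -- the exponent
  set a : ℂ := ∑ q ∈ P, eta e F θ q with ha
  set b : ℂ := Complex.I * ((∑ i, t i * σ : ℝ) : ℂ) + ((-∑ i, t i ^ 2 / 2 : ℝ) : ℂ) with hb
  have ea : a = ∑ i, (Complex.exp (Complex.I * θ i) - 1) * ((SSe e (F i) P : ℝ) : ℂ) := by
    rw [ha]
    simp only [eta_eq]
    rw [sum_comm]
    apply sum_congr rfl
    intro i _
    rw [← mul_sum]
    congr 1
    unfold SSe
    push_cast
    rfl
  have eb : b = ∑ i, (Complex.I * θ i - θ i ^ 2 / 2) * (lam : ℂ) := by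
    rw [hb]
    push_cast
    rw [mul_sum, ← sum_neg_distrib, ← sum_add_distrib]
    apply sum_congr rfl
    intro i _
    have hσc : (σ : ℂ) ≠ 0 := by exact_mod_cast hσ0.ne'
    rw [hθ]
    simp only
    push_cast
    rw [← hσ2]
    push_cast
    field_simp
    ring
  have s3 : ‖a - b‖ ≤ (k * (6 * T0 ^ 3 + 2 * T0 * Cs)) * (1 + Real.log lam) / σ := by
    rw [ea, eb, ← sum_sub_distrib]
    have hterm : ∀ i ∈ (univ : Finset (Fin k)), ‖(Complex.exp (Complex.I * θ i) - 1) * ((SSe e (F i) P : ℝ) : ℂ) -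
        (Complex.I * θ i - θ i ^ 2 / 2) * (lam : ℂ)‖ ≤ (6 * T0 ^ 3 + 2 * T0 * Cs) * (1 + Real.log lam) / σ := by
      intro i _
      have hSi := hM0 i N ((hMi i).trans (by omega)) z hz3 hzE
      have hSi2 : |SSe e (F i) P - lam| ≤ Cs * (1 + Real.log lam) :=
        hSi.trans (mul_le_mul_of_nonneg_right (hCi i) (by linarith))
      have hSi0 : 0 ≤ SSe e (F i) P := by
        unfold SSe
        apply sum_nonneg
        intro q hq
        have h2 := sub_pos' e (hPp q hq).1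
        apply div_nonneg (Nat.cast_nonneg _); linarith
      have hCsl : Cs * (1 + Real.log lam) ≤ lam := by
        rw [div_le_iff₀ hσ0, one_mul] at a4
        nlinarith
      have hSi3 : SSe e (F i) P ≤ 2 * lam := by
        have := (abs_le.1 hSi2).2
        linarith
      have e0 : (Complex.exp (Complex.I * θ i) - 1) * ((SSe e (F i) P : ℝ) : ℂ) - (Complex.I * θ i - θ i ^ 2 / 2) * (lam : ℂ) =
          (Complex.exp (Complex.I * θ i) - 1 - Complex.I * θ i + θ i ^ 2 / 2) * ((SSe e (F i) P : ℝ) : ℂ) +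
          (Complex.I * θ i - θ i ^ 2 / 2) * ((SSe e (F i) P - lam : ℝ) : ℂ) := by
        push_cast; ring
      rw [e0]
      have hθ1 : |θ i| ≤ 1 := (hθi i).trans hTσ
      have n1 := exp_taylor (θ i) hθ1
      have n2 : ‖Complex.I * θ i - (θ i : ℂ) ^ 2 / 2‖ ≤ 2 * |θ i| := by
        refine (norm_sub_le _ _).trans ?_
        rw [norm_mul, Complex.norm_I, one_mul, Complex.norm_real, Real.norm_eq_abs, norm_div, norm_pow, Complex.norm_real,
          Real.norm_eq_abs]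
        have : ‖(2 : ℂ)‖ = 2 := by norm_num
        rw [this]
        have := abs_nonneg (θ i)
        nlinarith
      calc _ ≤ ‖(Complex.exp (Complex.I * θ i) - 1 - Complex.I * θ i + θ i ^ 2 / 2) * ((SSe e (F i) P : ℝ) : ℂ)‖ +
            ‖(Complex.I * θ i - θ i ^ 2 / 2) * ((SSe e (F i) P - lam : ℝ) : ℂ)‖ := norm_add_le _ _
        _ ≤ (3 * (T0 / σ) ^ 3) * (2 * lam) + (2 * (T0 / σ)) * (Cs * (1 + Real.log lam)) := by
            rw [norm_mul, norm_mul, Complex.norm_real, Complex.norm_real, Real.norm_eq_abs, Real.norm_eq_abs, abs_of_nonneg hSi0]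
            apply add_le_add
            · apply mul_le_mul (n1.trans _) hSi3 hSi0 (by positivity)
              apply mul_le_mul_of_nonneg_left _ (by norm_num)
              exact pow_le_pow_left₀ (abs_nonneg _) (hθi i) 3
            · apply mul_le_mul (n2.trans _) hSi2 (abs_nonneg _) (by positivity)
              exact mul_le_mul_of_nonneg_left (hθi i) (by norm_num)
        _ = 6 * T0 ^ 3 / σ + 2 * T0 * Cs * (1 + Real.log lam) / σ := by
            rw [← hσ2]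
            field_simp
            ring
        _ ≤ _ := by
            rw [← add_div]
            apply div_le_div_of_nonneg_right _ hσ0.le
            have : 0 ≤ T0 ^ 3 * Real.log lam := by positivity
            nlinarith
    calc _ ≤ ∑ i : Fin k, (6 * T0 ^ 3 + 2 * T0 * Cs) * (1 + Real.log lam) / σ := norm_sum_le_of_le _ hterm
      _ = _ := by rw [sum_const, card_univ, Fintype.card_fin, nsmul_eq_mul]; ring
  have hs3' : ‖a - b‖ ≤ 1 / 2 := by
    have h4 : 2 * ‖a - b‖ ≤ CC * (1 + Real.log lam) / σ := by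
      refine (mul_le_mul_of_nonneg_left s3 (by norm_num)).trans ?_
      rw [hCC, add_mul, add_div]
      have h5 : 0 ≤ 8 * (D * (k * T0)) ^ 2 * (1 + Real.log lam) / σ := by positivity
      have e0 : 2 * ((k * (6 * T0 ^ 3 + 2 * T0 * Cs)) * (1 + Real.log lam) / σ) =
          2 * (k * (6 * T0 ^ 3 + 2 * T0 * Cs)) * (1 + Real.log lam) / σ := by ring
      rw [e0]
      linarith
    have h5 : CC * (1 + Real.log lam) / σ ≤ 1 := a2.trans (min_le_right _ _)
    linarith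
  have s4 : ‖Complex.exp (-(Complex.I * ((∑ i, t i * σ : ℝ) : ℂ))) * Complex.exp a - ((Real.exp (-∑ i, t i ^ 2 / 2) : ℝ) : ℂ)‖ ≤
      2 * ‖a - b‖ := by
    have e1 : ((Real.exp (-∑ i, t i ^ 2 / 2) : ℝ) : ℂ) =
        Complex.exp (-(Complex.I * ((∑ i, t i * σ : ℝ) : ℂ))) * Complex.exp b := by
      rw [Complex.ofReal_exp, ← Complex.exp_add, hb]
      congr 1
      ring
    rw [e1, ← mul_sub, norm_mul]
    have e2 : ‖Complex.exp (-(Complex.I * ((∑ i, t i * σ : ℝ) : ℂ)))‖ = 1 := by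
      have : -(Complex.I * ((∑ i, t i * σ : ℝ) : ℂ)) = Complex.I * ((-∑ i, t i * σ : ℝ) : ℂ) := by push_cast; ring
      rw [this]
      exact norm_exp_I _
    rw [e2, one_mul]
    have e3 : Complex.exp a - Complex.exp b = Complex.exp b * (Complex.exp (a - b) - 1) := by
      rw [mul_sub, ← Complex.exp_add, mul_one]
      congr 2
      ring
    rw [e3, norm_mul]
    have e4 : ‖Complex.exp b‖ ≤ 1 := by
      rw [Complex.norm_exp, ← Real.exp_zero]
      apply Real.exp_le_exp.2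
      rw [hb, Complex.add_re, Complex.ofReal_re, Complex.re_mul_ofReal, Complex.I_re, zero_mul, zero_add]
      have : 0 ≤ ∑ i, t i ^ 2 / 2 := sum_nonneg fun i _ => by positivity
      linarith
    have e5 := Complex.norm_exp_sub_one_le (show ‖a - b‖ ≤ 1 by linarith)
    calc ‖Complex.exp b‖ * ‖Complex.exp (a - b) - 1‖ ≤ 1 * (2 * ‖a - b‖) := mul_le_mul e4 e5 (norm_nonneg _) zero_le_one
      _ = _ := one_mul _
  -- conclusion
  have efin : Complex.exp (-(Complex.I * ((∑ i, t i * σ : ℝ) : ℂ))) * ∏ q ∈ P, (1 + eta e F θ q) - ((Real.exp (-∑ i, t i ^ 2 / 2) : ℝ) : ℂ) =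
      Complex.exp (-(Complex.I * ((∑ i, t i * σ : ℝ) : ℂ))) * (∏ q ∈ P, (1 + eta e F θ q) - Complex.exp a) +
      (Complex.exp (-(Complex.I * ((∑ i, t i * σ : ℝ) : ℂ))) * Complex.exp a - ((Real.exp (-∑ i, t i ^ 2 / 2) : ℝ) : ℂ)) := by ring
  rw [efin]
  have e2 : ‖Complex.exp (-(Complex.I * ((∑ i, t i * σ : ℝ) : ℂ)))‖ = 1 := by
    have : -(Complex.I * ((∑ i, t i * σ : ℝ) : ℂ)) = Complex.I * ((-∑ i, t i * σ : ℝ) : ℂ) := by push_cast; ring
    rw [this]
    exact norm_exp_I _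
  refine (norm_add_le _ _).trans ?_
  rw [norm_mul, e2, one_mul]
  refine (add_le_add (s1.trans s2) (s4.trans (mul_le_mul_of_nonneg_left s3 (by norm_num)))).trans ?_
  refine le_trans ?_ (a2.trans (min_le_left _ _))
  rw [hCC, add_mul, add_div]
  apply add_le_add
  · rw [div_le_div_iff₀ hlam0 hσ0]
    have h6 : 0 ≤ 8 * (D * (k * T0)) ^ 2 := by positivity
    calc 8 * (D * (k * T0)) ^ 2 * σ ≤ 8 * (D * (k * T0)) ^ 2 * lam := mul_le_mul_of_nonneg_left hσlam h6
      _ ≤ 8 * (D * (k * T0)) ^ 2 * (1 + Real.log lam) * lam := by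
          apply mul_le_mul_of_nonneg_right _ hlam0.le
          exact le_mul_of_one_le_right h6 (by linarith)
  · apply le_of_eq
    ring

end Pool.Agent.K4H18.GV
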