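import Pool.Agent.K4H18.GV.G5

set_option autoImplicit false

/-! The characteristic function over the sieved arguments. -/

namespace Pool.Agent.K4H18.GV

open Finset Polynomial
open Pool.Agent.H373R2.T7 (pz mem_pz)
open Pool.Agent.H474R2.PG (rho PR Sg)
open Pool.Agent.K4H18.EK (hh norm_exp_I norm_exp_sub_one_le one_add_hh prod_hh sum_hh
  sum_norm_hh PP mem_PP YN mN ev_lam par_sizes z_le_Y cntP esy esy_small sum_inv_PP Fex norm_Fex)

theorem eval_char {k : ℕ} (e : Bool) (K0 : ℕ) (F : Fin k → ℤ[X]) (R D : ℕ) (hf : Facts e F R D) (E W B U : ℕ) (T0 : ℝ) (hT0 : 0 ≤ T0) :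
    ∃ N0 : ℕ, ∀ N : ℕ, N0 ≤ N → ∀ z : ℕ, 3 ≤ z → R ≤ z → (z : ℝ) ≤ Real.log N ^ E →
      ∀ n : ℕ, (N : ℝ) / Real.log N ^ W ≤ n → n ≤ B * N → ∀ H : ℤ[X], (∀ q ∈ pz z, rho H q ≤ K0) → ∀ t : Fin k → ℝ, (∀ i, |t i| ≤ T0) →
      ‖∑ p ∈ Ps e H n z, Fex F N z t p -
        ((PI e n * Wn e H z : ℝ) : ℂ) * ∏ q ∈ PP z (YN N), (1 + eta e F (fun i => t i / √(Real.log (Real.log N))) q)‖ ≤
        2 * (PI e n * Wn e H z) / Real.log N + N / Real.log N ^ U := by
  obtain ⟨N1, h1⟩ := params e (K0 + 1) K0 (by omega) (by omega) E W B U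
  obtain ⟨C, hC0, hC⟩ := sum_inv_PP
  obtain ⟨N2, h2⟩ := ev_lam ((D * (k * T0)) ^ 2) 1 one_pos
  obtain ⟨N3, h3⟩ := ev_lam ((9 * (2 * (D * (k * T0)) * (1 + C))) ^ 2) 1 one_pos
  obtain ⟨N4, h4⟩ := par_sizes 1
  refine ⟨max (max N1 N2) (max (max N3 N4) 3), fun N hN z hz3 hzR hzE n hn hnB H hH t ht => ?_⟩
  obtain ⟨r, DD, M, hMaj, hpar0⟩ := h1 N (by omega) z (by omega) hzE n hn hnB
  obtain ⟨-, hpar⟩ := hpar0 H hH
  obtain ⟨a5, a1, -⟩ := h2 N (by omega)
  obtain ⟨a6, -, -⟩ := h3 N (by omega)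
  obtain ⟨b1, b2, b3, b4, b5, b6⟩ := h4 N (by omega)
  have hN3 : (3 : ℝ) ≤ N := by exact_mod_cast (by omega : 3 ≤ N)
  have hN0 : (0 : ℝ) < N := by linarith
  set L := Real.log N with hL
  set lam := Real.log L with hlam
  set σ := √lam with hσ
  have hL0 : 0 < L := Real.log_pos (by linarith)
  have hlam0 : 0 < lam := by linarith
  have hσ0 : 0 < σ := Real.sqrt_pos.2 hlam0
  have hσ2 : σ * σ = lam := Real.mul_self_sqrt hlam0.le
  have hD0 : (0 : ℝ) ≤ D := Nat.cast_nonneg _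
  have hk0 : (0 : ℝ) ≤ k := Nat.cast_nonneg _
  set P := PP z (YN N) with hP
  set m := mN N with hm
  have hPp : ∀ q ∈ P, q.Prime ∧ z < q := fun q hq => ⟨(mem_PP.1 hq).2.2, (mem_PP.1 hq).1⟩
  have hPR : ∀ q ∈ P, R < q := fun q hq => lt_of_le_of_lt hzR (mem_PP.1 hq).1
  set θ : Fin k → ℝ := fun i => t i / σ with hθ
  have hsumθ : ∑ i, |θ i| ≤ k * (T0 / σ) := by
    calc ∑ i, |θ i| ≤ ∑ _i : Fin k, T0 / σ := by
          apply sum_le_sum
          intro i _
          rw [hθ]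
          simp only
          rw [abs_div, abs_of_pos hσ0]
          exact div_le_div_of_nonneg_right (ht i) hσ0.le
      _ = k * (T0 / σ) := by rw [sum_const, card_univ, Fintype.card_fin, nsmul_eq_mul]
  set G : ℝ := D * (k * (T0 / σ)) with hG
  have hG0 : 0 ≤ G := by positivity
  have hGσ : G * σ = D * (k * T0) := by rw [hG]; field_simp
  have hG1 : G ≤ 1 := by
    have e0 : G = (D * (k * T0)) / σ := by rw [hG]; ring
    rw [e0, div_le_one hσ0]
    exact Real.le_sqrt_of_sq_le a5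
  have hA : ∀ q ∈ P, ∑ b ∈ range q, ‖hh F θ q b‖ ≤ G := fun q hq =>
    (sum_norm_hh F θ q D (hf.rho_le q (hPp q hq).1)).trans (mul_le_mul_of_nonneg_left hsumθ hD0)
  have hA0 : ∀ q, 0 ≤ ∑ b ∈ range q, ‖hh F θ q b‖ := fun q => sum_nonneg fun _ _ => norm_nonneg _
  have hYN : (YN N : ℝ) ≤ N := by
    refine b4.trans ?_
    calc (N : ℝ) ^ (1 / 8 : ℝ) ≤ (N : ℝ) ^ (1 : ℝ) := Real.rpow_le_rpow_of_exponent_le (by linarith) (by norm_num)
      _ = N := Real.rpow_one _
  have hY1 : 1 ≤ YN N := by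
    by_contra hcon
    have h0 : YN N = 0 := by omega
    rw [h0, Nat.cast_zero, Real.log_zero] at b5
    linarith
  obtain ⟨hD, herr⟩ := hpar P m (YN N) hPp (by
    intro q hq
    have h := mem_PP.1 hq
    rw [mem_Icc]
    exact ⟨h.2.2.one_le, h.2.1⟩) hY1 (by linarith) b3 hYN
  have key := expand e H K0 n z r m DD hH P hPp hD M hMaj (hh F θ)
    (fun he q hq => hh_zero he hf θ (hPp q hq).1 (hPR q hq))
    (fun q hq b => norm_one_add_hh hf θ (hPp q hq).1 (hPR q hq) b)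
  have herr' := herr (fun q => ∑ b ∈ range q, ‖hh F θ q b‖) (fun q hq => ⟨hA0 q, by
    have hK00 : (0 : ℝ) ≤ K0 := Nat.cast_nonneg _
    push_cast
    exact (hA q hq).trans (by linarith)⟩)
  have e1 : ∑ p ∈ Ps e H n z, ∏ q ∈ P, (1 + hh F θ q (p % q)) = ∑ p ∈ Ps e H n z, Fex F N z t p := by
    apply sum_congr rfl
    intro p _
    rw [prod_hh F θ P p (fun q hq i j hij => hf.disj q (hPp q hq).1 (hPR q hq) i j hij p)]
    rfl
  rw [e1] at key
  have hX : 0 ≤ PI e n * Wn e H z := mul_nonneg (PI_nonneg e n) (Wn_nonneg e H z)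
  have hesy : esy (fun q => (∑ b ∈ range q, ‖hh F θ q b‖) / ((q : ℝ) - e.toNat)) P m ≤ 1 / L := by
    have hq1 : ∀ q ∈ P, (1 : ℝ) ≤ (q : ℝ) - 1 := by
      intro q hq
      have : (2 : ℝ) ≤ q := by exact_mod_cast (hPp q hq).1.two_le
      linarith
    have h5 : esy (fun q => (∑ b ∈ range q, ‖hh F θ q b‖) / ((q : ℝ) - e.toNat)) P m ≤ Real.exp (-m) := by
      apply esy_small
      · intro q hq
        have := sub_pos' e (hPp q hq).1
        exact div_nonneg (hA0 q) (by linarith)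
      · have h6 : ∑ q ∈ P, (∑ b ∈ range q, ‖hh F θ q b‖) / ((q : ℝ) - e.toNat) ≤ G * (2 * (lam + C)) := by
          calc _ ≤ ∑ q ∈ P, G * (1 / ((q : ℝ) - 1)) := by
                apply sum_le_sum
                intro q hq
                have := hq1 q hq
                have h3 : (e.toNat : ℝ) ≤ 1 := by exact_mod_cast Bool.toNat_le e
                rw [mul_one_div]
                exact div_le_div₀ hG0 (hA q hq) (by linarith) (by linarith)
            _ = G * ∑ q ∈ P, 1 / ((q : ℝ) - 1) := by rw [mul_sum]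
            _ ≤ _ := by
                apply mul_le_mul_of_nonneg_left _ hG0
                exact hC N (by omega) z (YN N) (by exact_mod_cast hYN)
        have h7 : lam ≤ m := by
          rw [hm]
          unfold mN
          exact Nat.le_ceil _
        have h8 : 9 * (2 * (D * (k * T0)) * (1 + C)) ≤ σ := Real.le_sqrt_of_sq_le a6
        have h9 : 9 * (G * (2 * (lam + C))) ≤ lam := by
          have h10 : lam + C ≤ (1 + C) * lam := by nlinarith
          calc 9 * (G * (2 * (lam + C))) ≤ 9 * (G * (2 * ((1 + C) * lam))) := by gcongr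
            _ = (9 * (2 * (G * σ) * (1 + C))) * σ := by rw [← hσ2]; ring
            _ = (9 * (2 * (D * (k * T0)) * (1 + C))) * σ := by rw [hGσ]
            _ ≤ σ * σ := mul_le_mul_of_nonneg_right h8 hσ0.le
            _ = lam := hσ2
        linarith
    refine h5.trans ?_
    have h7 : lam ≤ m := by
      rw [hm]
      unfold mN
      exact Nat.le_ceil _
    calc Real.exp (-m) ≤ Real.exp (-lam) := Real.exp_le_exp.2 (by linarith)
      _ = 1 / L := by rw [Real.exp_neg, hlam, Real.exp_log hL0, one_div]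
  refine key.trans ?_
  apply add_le_add _ herr'
  rw [mul_div_assoc, mul_div_assoc, mul_assoc]
  apply mul_le_mul_of_nonneg_left _ (by norm_num)
  rw [← mul_div_assoc]
  calc (PI e n * Wn e H z) * esy (fun q => (∑ b ∈ range q, ‖hh F θ q b‖) / ((q : ℝ) - e.toNat)) P m
      ≤ (PI e n * Wn e H z) * (1 / L) := mul_le_mul_of_nonneg_left hesy hX
    _ = _ := by ring

end Pool.Agent.K4H18.GV
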