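import Pool.Agent.K4H18.GV.G6

set_option autoImplicit false

/-! The contribution of the small and of the large prime factors. -/

namespace Pool.Agent.K4H18.GV

open Finset Polynomial
open Pool.Agent.H373R2.T7 (pz mem_pz es es_nonneg card_small card_pz_le prod_inj prod_le_pow)
open Pool.Agent.H474R2.PG (rho PR Sg)
open Pool.Agent.K4H18.EK (sum_levels)

/-- for every prime `q ≤ z` there is a class of arguments without a root of `H` -/
def NF (e : Bool) (H : ℤ[X]) (z : ℕ) : Prop :=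
  ∀ q ∈ pz z, ∃ b ∈ range q, (e = true → b ≠ 0) ∧ ¬ (q : ℤ) ∣ H.eval (b : ℤ)

lemma gd_gap (e : Bool) (H : ℤ[X]) (K0 q : ℕ) (hq : q.Prime) (hK : rho H q ≤ K0)
    (hNF : ∃ b ∈ range q, (e = true → b ≠ 0) ∧ ¬ (q : ℤ) ∣ H.eval (b : ℤ)) : 1 ≤ (2 * K0 + 2 : ℝ) * (1 - gd e H q) := by
  classical
  have h1 := sub_pos' e hq
  have hK00 : (0 : ℝ) ≤ K0 := Nat.cast_nonneg _
  have h3 : (e.toNat : ℝ) ≤ 1 := by exact_mod_cast Bool.toNat_le e
  have hq2 : (2 : ℝ) ≤ q := by exact_mod_cast hq.two_le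
  set c := ((range q).filter (fun b : ℕ => (e = true → b ≠ 0) ∧ (q : ℤ) ∣ H.eval (b : ℤ))).card with hc
  have hgd : gd e H q = (c : ℝ) / ((q : ℝ) - e.toNat) := rfl
  have hcK : (c : ℝ) ≤ K0 := by
    refine le_trans ?_ (by exact_mod_cast hK : ((rho H q : ℕ) : ℝ) ≤ K0)
    unfold rho
    exact_mod_cast card_le_card (fun b hb => by
      rw [mem_filter] at hb ⊢
      exact ⟨hb.1, hb.2.2⟩)
  have hcq : (c : ℝ) + 1 ≤ (q : ℝ) - e.toNat := by
    obtain ⟨b, hb, hb0, hbn⟩ := hNF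
    rw [← sub_cast e hq, ← card_cl e hq]
    have h4 : c < ((range q).filter (fun b : ℕ => e = true → b ≠ 0)).card := by
      apply card_lt_card
      rw [ssubset_iff_of_subset (fun b hb => by
        rw [mem_filter] at hb ⊢
        exact ⟨hb.1, hb.2.1⟩)]
      refine ⟨b, mem_filter.2 ⟨hb, hb0⟩, fun h5 => ?_⟩
      rw [mem_filter] at h5
      exact hbn h5.2.2
    exact_mod_cast h4
  rw [hgd]
  have h5 : 0 < (q : ℝ) - e.toNat := by linarith
  have h6 : 1 - (c : ℝ) / ((q : ℝ) - e.toNat) = ((q : ℝ) - e.toNat - c) / ((q : ℝ) - e.toNat) := by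
    field_simp
  rw [h6, ← mul_div_assoc, le_div_iff₀ h5, one_mul]
  -- `q - e ≤ (2 K0 + 2) (q - e - c)`
  rcases le_or_gt ((q : ℝ) - e.toNat) (2 * K0 + 2) with h7 | h7
  · have h8 : (1 : ℝ) ≤ (q : ℝ) - e.toNat - c := by linarith
    nlinarith
  · have h8 : ((q : ℝ) - e.toNat) / 2 ≤ (q : ℝ) - e.toNat - c := by linarith
    nlinarith

lemma inj_sum (z r q D K0 : ℕ) (K : ℝ) (hK1 : 1 ≤ K) (hK : (K0 : ℝ) ≤ K) (hq : 1 ≤ q) (T : Finset ℕ) (hT : T ⊆ pz z)
    (hD : q * (z + 1) ^ r ≤ D) (M : ℕ → ℝ)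
    (hM : ∀ q, 0 ≤ M q) : ∑ j ∈ range (r + 1), ∑ S ∈ T.powersetCard j, (K0 : ℝ) ^ S.card * (M (q * ∏ p ∈ S, p) + 1) ≤
      ∑ d ∈ Icc 1 D, K ^ d.primeFactors.card * M d + (K * ((z : ℝ) + 1)) ^ r := by
  classical
  have hpr : ∀ S ⊆ T, ∀ p ∈ S, p.Prime := fun S hS p hp => (mem_pz.1 (hT (hS hp))).2
  have h1 : ∑ j ∈ range (r + 1), ∑ S ∈ T.powersetCard j, (K0 : ℝ) ^ S.card * (M (q * ∏ p ∈ S, p) + 1) ≤
      ∑ j ∈ range (r + 1), ∑ S ∈ T.powersetCard j, K ^ (q * ∏ p ∈ S, p).primeFactors.card * M (q * ∏ p ∈ S, p) +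
      K ^ r * ((∑ i ∈ range (r + 1), (T.powersetCard i).card : ℕ) : ℝ) := by
    push_cast
    rw [mul_sum, ← sum_add_distrib]
    apply sum_le_sum
    intro j hj
    rw [mem_range] at hj
    rw [mul_comm (K ^ r), ← nsmul_eq_mul, ← sum_const, ← sum_add_distrib]
    apply sum_le_sum
    intro S hS
    rw [mem_powersetCard] at hS
    have a1 : (K0 : ℝ) ^ S.card ≤ K ^ S.card := pow_le_pow_left₀ (Nat.cast_nonneg _) hK _
    have a2 : K ^ S.card ≤ K ^ r := pow_le_pow_right₀ hK1 (by omega)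
    have hne : q * ∏ p ∈ S, p ≠ 0 := by
      apply mul_ne_zero (by omega)
      exact prod_ne_zero_iff.2 fun p hp => (hpr S hS.1 p hp).ne_zero
    have a3 : S.card ≤ (q * ∏ p ∈ S, p).primeFactors.card := by
      apply card_le_card
      intro p hp
      rw [Nat.mem_primeFactors]
      exact ⟨hpr S hS.1 p hp, (dvd_prod_of_mem _ hp).mul_left _, hne⟩
    have a4 : K ^ S.card ≤ K ^ (q * ∏ p ∈ S, p).primeFactors.card := pow_le_pow_right₀ hK1 a3
    have a5 := hM (q * ∏ p ∈ S, p)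
    have a6 := mul_le_mul_of_nonneg_right (a1.trans a4) a5
    nlinarith
  refine h1.trans (add_le_add ?_ ?_)
  · rw [sum_levels]
    have hmem : ∀ S ∈ T.powerset.filter (fun S => S.card ≤ r), S ⊆ T ∧ S.card ≤ r := by
      intro S hS
      rw [mem_filter, mem_powerset] at hS
      exact hS
    rw [← sum_image (f := fun d => K ^ d.primeFactors.card * M d) (g := fun S : Finset ℕ => q * ∏ p ∈ S, p)]
    · apply sum_le_sum_of_subset_of_nonneg
      · intro d hd
        rw [mem_image] at hd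
        obtain ⟨S, hS, rfl⟩ := hd
        rw [mem_Icc]
        constructor
        · exact Nat.mul_pos hq (Nat.pos_of_ne_zero (prod_ne_zero_iff.2 fun p hp => (hpr S (hmem S hS).1 p hp).ne_zero))
        · refine le_trans ?_ hD
          exact Nat.mul_le_mul_left _ (prod_le_pow S z r ((hmem S hS).1.trans hT) (hmem S hS).2)
      · intro d _ _
        exact mul_nonneg (by positivity) (hM d)
    · intro S hS S' hS' h
      simp only at h
      exact prod_inj S S' (hpr S (hmem S hS).1) (hpr S' (hmem S' hS').1) (Nat.eq_of_mul_eq_mul_left hq h)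
  · rw [mul_pow]
    apply mul_le_mul_of_nonneg_left _ (by positivity)
    refine (card_small T r).trans ?_
    have h3 : T.card ≤ z := (card_le_card hT).trans (card_pz_le z)
    have : (T.card : ℝ) ≤ z := by exact_mod_cast h3
    gcongr

/-- the sieved arguments with `q ∣ f(p)`, for a small prime `q` -/
lemma small_prime (e : Bool) (H : ℤ[X]) (K0 : ℕ) (K : ℝ) (hK1 : 1 ≤ K) (hKK : (K0 : ℝ) ≤ K) (f : ℤ[X]) (n z r D q : ℕ)
    (hH : ∀ q ∈ pz z, rho H q ≤ K0) (hNF : NF e H z) (hq : q ∈ pz z) (hD : z * (z + 1) ^ r ≤ D) (M : ℕ → ℝ)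
    (hM : Maj e n D M) (ε : ℝ) (he : ∀ T ⊆ pz z, es (gd e H) T r ≤ ε) :
    (((Ps e H n z).filter (fun p : ℕ => (q : ℤ) ∣ f.eval (p : ℤ))).card : ℝ) ≤
      (rho f q : ℝ) * ((2 * K0 + 2) * (PI e n * Wn e H z) * (1 / ((q : ℝ) - 1)) +
        (∑ d ∈ Icc 1 D, K ^ d.primeFactors.card * M d + (K * ((z : ℝ) + 1)) ^ r + 2 * PI e n * ε)) + 1 := by
  classical
  have hqp : q.Prime := (mem_pz.1 hq).2
  have hq2 : (2 : ℝ) ≤ q := by exact_mod_cast hqp.two_le
  have hpi := PI_nonneg e n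
  have hK00 : (0 : ℝ) ≤ K0 := Nat.cast_nonneg _
  set T := (pz z).erase q with hT
  have hTsub : T ⊆ pz z := erase_subset _ _
  have hTq : ∀ q' ∈ T, ¬ q' ∣ q := by
    intro q' hq' hd
    have h1 := (mem_erase.1 hq').1
    exact h1 ((Nat.prime_dvd_prime_iff_eq (mem_pz.1 (hTsub hq')).2 hqp).1 hd)
  have hqD : q * (z + 1) ^ r ≤ D := (Nat.mul_le_mul_right _ (mem_pz.1 hq).1).trans hD
  have hesn : 0 ≤ es (gd e H) T r := es_nonneg (fun p hp => gd_nonneg e H (mem_pz.1 (hTsub hp)).2) r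
  have he0 : 0 ≤ ε := hesn.trans (he T hTsub)
  -- the product
  have hprod : ∏ q' ∈ T, (1 - gd e H q') ≤ (2 * K0 + 2) * Wn e H z := by
    have h1 : Wn e H z = (1 - gd e H q) * ∏ q' ∈ T, (1 - gd e H q') := by
      unfold Wn
      rw [hT, mul_prod_erase (pz z) (fun q => 1 - gd e H q) hq]
    have h2 := gd_gap e H K0 q hqp (hH q hq) (hNF q hq)
    have h3 : 0 ≤ ∏ q' ∈ T, (1 - gd e H q') := prod_nonneg fun q' hq' => by
      have := gd_le e H (mem_pz.1 (hTsub hq')).2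
      linarith
    rw [h1, ← mul_assoc]
    exact le_mul_of_one_le_left h3 h2
  -- one class
  have hcls : ∀ c ∈ range q, (e = true → c ≠ 0) → cn e H n q c T ≤ (2 * K0 + 2) * (PI e n * Wn e H z) * (1 / ((q : ℝ) - 1)) +
        (∑ d ∈ Icc 1 D, K ^ d.primeFactors.card * M d + (K * ((z : ℝ) + 1)) ^ r + 2 * PI e n * ε) := by
    intro c hc hc0
    rw [mem_range] at hc
    have hcop : e = true → c.Coprime q := fun he' =>
      (Nat.coprime_of_lt_prime (by have := hc0 he'; omega) hc hqp).symm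
    have key := sieve1 e H K0 n z r q c D hqp.one_le hcop T hTsub hH hTq hqD M hM
    have htot : (tot e q : ℝ) = (q : ℝ) - e.toNat := by
      have := tot_prod e {q} (by intro q' hq'; rw [mem_singleton] at hq'; rw [hq']; exact hqp)
      rwa [prod_singleton, prod_singleton] at this
    have hsp := sub_pos' e hqp
    have htle : 1 / ((q : ℝ) - e.toNat) ≤ 1 / ((q : ℝ) - 1) := by
      have h3 : (e.toNat : ℝ) ≤ 1 := by exact_mod_cast Bool.toNat_le e
      exact one_div_le_one_div_of_le (by linarith) (by linarith)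
    rw [htot] at key
    have h1 := (abs_le.1 key).2
    have h2 := inj_sum z r q D K0 K hK1 hKK hqp.one_le T hTsub hqD M hM.1
    have h3 : 2 * (PI e n / ((q : ℝ) - e.toNat)) * es (gd e H) T r ≤ 2 * PI e n * ε := by
      apply mul_le_mul _ (he T hTsub) hesn (by positivity)
      apply mul_le_mul_of_nonneg_left _ (by norm_num)
      exact div_le_self hpi hsp
    have h4 : PI e n / ((q : ℝ) - e.toNat) * ∏ q' ∈ T, (1 - gd e H q') ≤ (2 * K0 + 2) * (PI e n * Wn e H z) * (1 / ((q : ℝ) - 1)) := by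
      calc PI e n / ((q : ℝ) - e.toNat) * ∏ q' ∈ T, (1 - gd e H q')
          ≤ PI e n / ((q : ℝ) - e.toNat) * ((2 * K0 + 2) * Wn e H z) := by
            apply mul_le_mul_of_nonneg_left hprod
            apply div_nonneg hpi; linarith
        _ = (2 * K0 + 2) * (PI e n * Wn e H z) * (1 / ((q : ℝ) - e.toNat)) := by ring
        _ ≤ _ := by
            apply mul_le_mul_of_nonneg_left htle
            have := Wn_nonneg e H z
            positivity
    linarith
  -- the decomposition into classes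
  have h1 : (((Ps e H n z).filter (fun p : ℕ => (q : ℤ) ∣ f.eval (p : ℤ))).card : ℝ) =
      ∑ c ∈ (range q).filter (fun c : ℕ => (q : ℤ) ∣ f.eval (c : ℤ)), (((Ps e H n z).filter (fun p : ℕ => p % q = c)).card : ℝ) := by
    rw [card_eq_sum_card_fiberwise (f := fun p : ℕ => p % q) (t := (range q).filter (fun c : ℕ => (q : ℤ) ∣ f.eval (c : ℤ)))]
    · push_cast
      apply sum_congr rfl
      intro c hc
      rw [mem_filter] at hc
      congr 2
      ext p
      rw [mem_filter, mem_filter, mem_filter]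
      constructor
      · rintro ⟨⟨a, b⟩, c⟩; exact ⟨a, c⟩
      · rintro ⟨a, b⟩
        refine ⟨⟨a, ?_⟩, b⟩
        rw [← dvd_mod, b]
        exact hc.2
    · intro p hp
      rw [mem_coe, mem_filter] at hp
      rw [mem_coe, mem_filter, mem_range]
      exact ⟨Nat.mod_lt _ hqp.pos, (dvd_mod f p q).2 hp.2⟩
  rw [h1]
  set A := (2 * K0 + 2) * (PI e n * Wn e H z) * (1 / ((q : ℝ) - 1)) +
        (∑ d ∈ Icc 1 D, K ^ d.primeFactors.card * M d + (K * ((z : ℝ) + 1)) ^ r + 2 * PI e n * ε) with hA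
  have hA0 : 0 ≤ A := by
    have h5 : 0 ≤ ∑ d ∈ Icc 1 D, K ^ d.primeFactors.card * M d := sum_nonneg fun d _ => mul_nonneg (by positivity) (hM.1 d)
    have h6 := Wn_nonneg e H z
    have h7 : 0 ≤ 1 / ((q : ℝ) - 1) := by apply div_nonneg zero_le_one; linarith
    positivity
  have h2 : ∀ c ∈ (range q).filter (fun c : ℕ => (q : ℤ) ∣ f.eval (c : ℤ)),
      (((Ps e H n z).filter (fun p : ℕ => p % q = c)).card : ℝ) ≤ A + (if c = 0 then 1 else 0) := by
    intro c hc
    rw [mem_filter, mem_range] at hc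
    by_cases hc0 : e = true → c ≠ 0
    · have h3 : (((Ps e H n z).filter (fun p : ℕ => p % q = c)).card : ℝ) ≤ A := by
        refine le_trans ?_ (hcls c (mem_range.2 hc.1) hc0)
        unfold cn
        norm_cast
        apply card_le_card
        intro p hp
        unfold Ps at hp
        rw [mem_filter, mem_filter] at hp
        rw [mem_filter]
        refine ⟨hp.1.1, ⟨hp.1.2.1, ?_⟩, fun q' hq' => hp.1.2.2 q' (hTsub hq')⟩
        unfold Nat.ModEq
        rw [hp.2, Nat.mod_eq_of_lt hc.1]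
      split_ifs <;> linarith
    · push Not at hc0
      obtain ⟨he', hc0⟩ := hc0
      rw [if_pos hc0]
      have h3 : ((Ps e H n z).filter (fun p : ℕ => p % q = c)).card ≤ 1 := by
        rw [card_le_one]
        intro a ha b hb
        rw [mem_filter, hc0] at ha hb
        unfold Ps at ha hb
        rw [mem_filter] at ha hb
        rw [← (Nat.prime_dvd_prime_iff_eq hqp (ha.1.2.1 he')).1 (Nat.dvd_of_mod_eq_zero ha.2),
          ← (Nat.prime_dvd_prime_iff_eq hqp (hb.1.2.1 he')).1 (Nat.dvd_of_mod_eq_zero hb.2)]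
      have h4 : (((Ps e H n z).filter (fun p : ℕ => p % q = c)).card : ℝ) ≤ 1 := by exact_mod_cast h3
      linarith
  refine (sum_le_sum h2).trans ?_
  rw [sum_add_distrib, sum_const, nsmul_eq_mul]
  apply add_le_add
  · exact le_rfl
  · rw [← sum_filter, sum_const, nsmul_eq_mul, mul_one]
    have h3 : (((range q).filter (fun c : ℕ => (q : ℤ) ∣ f.eval (c : ℤ))).filter (fun c => c = 0)).card ≤ 1 := by
      rw [card_le_one]
      intro a ha b hb
      rw [mem_filter] at ha hb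
      rw [ha.2, hb.2]
    exact_mod_cast h3

/-- the sieved arguments with `q ∣ f(p)`, for a large prime `q` -/
lemma large_prime (e : Bool) (H : ℤ[X]) (K0 : ℕ) (f : ℤ[X]) (R : ℕ)
    (hR : e = true → ∀ q : ℕ, q.Prime → R < q → ¬ (q : ℤ) ∣ f.eval 0) (n z r D q : ℕ) (hH : ∀ q ∈ pz z, rho H q ≤ K0)
    (hq : q.Prime) (hqz : z < q) (hqR : R < q) (hD : q * (z + 1) ^ r ≤ D) (M : ℕ → ℝ) (hM : Maj e n D M) :
    (((Ps e H n z).filter (fun p : ℕ => (q : ℤ) ∣ f.eval (p : ℤ))).card : ℝ) ≤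
      (PI e n * Wn e H z) * ((rho f q : ℝ) / ((q : ℝ) - 1)) + (rho f q : ℝ) * Err e H K0 n z r M q := by
  classical
  have key := loc_sum e H K0 n z r D hH {q} (fun q' hq' => by rw [mem_singleton] at hq'; rw [hq']; exact ⟨hq, hqz⟩)
    (by rw [prod_singleton]; exact hD) M hM (fun q b => if (q : ℤ) ∣ f.eval (b : ℤ) then 1 else 0)
    (fun he q' hq' => by
      rw [mem_singleton] at hq'
      rw [hq', if_neg]
      exact_mod_cast hR he q hq hqR)
  simp only [prod_singleton] at key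
  have e1 : ∑ p ∈ Ps e H n z, (if (q : ℤ) ∣ f.eval (((p % q : ℕ) : ℤ)) then (1 : ℂ) else 0) =
      (((((Ps e H n z).filter (fun p : ℕ => (q : ℤ) ∣ f.eval (p : ℤ))).card : ℝ)) : ℂ) := by
    simp only [dvd_mod]
    rw [← sum_filter, sum_const, nsmul_eq_mul, mul_one]
    norm_cast
  have e2 : ∑ b ∈ range q, (if (q : ℤ) ∣ f.eval (b : ℤ) then (1 : ℂ) else 0) = ((rho f q : ℝ) : ℂ) := by
    rw [← sum_filter, sum_const, nsmul_eq_mul, mul_one]
    rfl
  have e3 : ∑ b ∈ range q, ‖(if (q : ℤ) ∣ f.eval (b : ℤ) then (1 : ℂ) else 0)‖ = (rho f q : ℝ) := by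
    have : ∀ b ∈ range q, ‖(if (q : ℤ) ∣ f.eval (b : ℤ) then (1 : ℂ) else 0)‖ = if (q : ℤ) ∣ f.eval (b : ℤ) then (1 : ℝ) else 0 := by
      intro b _
      split_ifs <;> simp
    rw [sum_congr rfl this, ← sum_filter, sum_const, nsmul_eq_mul, mul_one]
    rfl
  rw [e1, e2, e3] at key
  have e4 : ((PI e n * Wn e H z : ℝ) : ℂ) * (((rho f q : ℝ) : ℂ) / ((q : ℂ) - e.toNat)) =
      (((PI e n * Wn e H z) * ((rho f q : ℝ) / ((q : ℝ) - e.toNat)) : ℝ) : ℂ) := by push_cast; rfl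
  rw [e4, ← Complex.ofReal_sub, Complex.norm_real, Real.norm_eq_abs] at key
  have h1 := (abs_le.1 key).2
  have hq2 : (2 : ℝ) ≤ q := by exact_mod_cast hq.two_le
  have h3 : (e.toNat : ℝ) ≤ 1 := by exact_mod_cast Bool.toNat_le e
  have h2 : (PI e n * Wn e H z) * ((rho f q : ℝ) / ((q : ℝ) - e.toNat)) ≤ (PI e n * Wn e H z) * ((rho f q : ℝ) / ((q : ℝ) - 1)) := by
    apply mul_le_mul_of_nonneg_left _ (mul_nonneg (PI_nonneg e n) (Wn_nonneg e H z))
    exact div_le_div_of_nonneg_left (Nat.cast_nonneg _) (by linarith) (by linarith)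
  linarith

end Pool.Agent.K4H18.GV
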