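import Pool.Agent.K4H18.GV.G7

set_option autoImplicit false

/-! The total contribution of the small and of the large prime factors. -/

namespace Pool.Agent.K4H18.GV

open Finset Polynomial
open Pool.Agent.H373R2.T7 (pz mem_pz es es_nonneg card_small card_pz_le prod_inj prod_le_pow ev_L')
open Pool.Agent.H474R2.PG (rho PR Sg)
open Pool.Agent.K4H18.EK (Y8 wf sum_cntP recip_sums ev_pow PP mem_PP YN mN ev_lam par_sizes z_le_Y cntP)

theorem wf_bound {k : ℕ} (e : Bool) (K0 : ℕ) (F : Fin k → ℤ[X]) (R D : ℕ) (hf : Facts e F R D) (E W B U : ℕ) :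
    ∃ (C : ℝ) (N0 : ℕ), 0 ≤ C ∧ ∀ N : ℕ, N0 ≤ N → ∀ z : ℕ, 3 ≤ z → R ≤ z → (z : ℝ) ≤ Real.log N ^ E →
      ∀ n : ℕ, (N : ℝ) / Real.log N ^ W ≤ n → n ≤ B * N → ∀ H : ℤ[X], (∀ q ∈ pz z, rho H q ≤ K0) → NF e H z →
      ∑ p ∈ Ps e H n z, wf F N z p ≤
        C * (1 + Real.log (Real.log (Real.log N))) * (PI e n * Wn e H z) + N / Real.log N ^ U := by
  obtain ⟨C, N1, hC0, h1⟩ := recip_sums E
  set U1 : ℕ := U + E + 1 with hU1
  obtain ⟨N2, h2⟩ := params e (D + K0) K0 (by have := hf.D1; omega) (by omega) E W B U1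
  obtain ⟨N3, h3⟩ := par_sizes 2
  obtain ⟨N4, h4⟩ := ev_L' (k * (D * (2 + 2 * B) + 1) + k + 1)
  obtain ⟨N5, h5⟩ := ev_pow U1 1 (1 / 2) (by norm_num)
  obtain ⟨N6, h6⟩ := z_le_Y E
  obtain ⟨N7, h7⟩ := ev_lam 0 1 one_pos
  refine ⟨k * ((2 * K0 + 3) * D * C), max (max (max N1 N2) (max N3 N4)) (max (max N5 N6) (max N7 3)), by positivity,
    fun N hN z hz3 hzR hzE n hnN hnB H hH hNF => ?_⟩
  obtain ⟨r, DD, M, hMaj, hpar0⟩ := h2 N (by omega) z (by omega) hzE n hnN hnB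
  obtain ⟨⟨m1, m2, m3, m4⟩, hpar⟩ := hpar0 H hH
  have hK00 : (0 : ℝ) ≤ K0 := Nat.cast_nonneg _
  obtain ⟨c1, c2⟩ := h1 N (by omega) z hz3 hzE
  obtain ⟨b1, b2, b3, b4, b5, b6⟩ := h3 N (by omega)
  obtain ⟨-, a1, -⟩ := h7 N (by omega)
  have d1 := h4 N (by omega)
  have d2 := h5 N (by omega)
  have d3 := h6 N (by omega) z hzE
  have hN3 : (3 : ℝ) ≤ N := by exact_mod_cast (by omega : 3 ≤ N)
  have hN0 : (0 : ℝ) < N := by linarith
  have hN1 : (1 : ℝ) ≤ N := by linarith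
  set L := Real.log N with hL
  set lam := Real.log L with hlam
  have hk0 : (0 : ℝ) ≤ k := Nat.cast_nonneg _
  have hD0 : (1 : ℝ) ≤ D := by exact_mod_cast hf.D1
  have hB0 : (0 : ℝ) ≤ B := Nat.cast_nonneg _
  have hL0 : 0 < L := Real.log_pos (by linarith)
  have hL1 : 1 ≤ L := by
    have : 0 ≤ (k : ℝ) * (D * (2 + 2 * B) + 1) := by positivity
    linarith
  have hll : 0 ≤ Real.log lam := Real.log_nonneg a1
  set X := PI e n * Wn e H z with hX
  have hX0 : 0 ≤ X := mul_nonneg (PI_nonneg e n) (Wn_nonneg e H z)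
  have hpiB : PI e n ≤ B * N := by
    have := PI_le e n
    have h7 : (n : ℝ) ≤ B * N := by exact_mod_cast hnB
    linarith
  set Q0 : ℝ := N / L ^ U1 with hQ0
  have hQ0pos : 0 < Q0 := by positivity
  have hsqrt : (N : ℝ) ^ (1 / 2 : ℝ) ≤ Q0 := by
    rw [hQ0, le_div_iff₀ (by positivity)]
    rw [one_mul] at d2
    calc (N : ℝ) ^ (1 / 2 : ℝ) * L ^ U1 ≤ (N : ℝ) ^ (1 / 2 : ℝ) * (N : ℝ) ^ (1 / 2 : ℝ) :=
          mul_le_mul_of_nonneg_left d2 (by positivity)
      _ = N := by rw [← Real.rpow_add hN0]; norm_num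
  have hQ1 : 1 ≤ Q0 := le_trans (Real.one_le_rpow hN1 (by norm_num)) hsqrt
  have hQ16 : (N : ℝ) ^ (1 / 16 : ℝ) ≤ Q0 := le_trans (Real.rpow_le_rpow_of_exponent_le hN1 (by norm_num)) hsqrt
  -- the small primes
  have small : ∀ i, ∑ p ∈ Ps e H n z, (cntP (F i) (pz z) p : ℝ) ≤ (2 * K0 + 2) * D * C * (1 + Real.log lam) * X + z * ((D * (2 + 2 * B) + 1) * Q0) := by
    intro i
    rw [sum_cntP]
    have hterm : ∀ q ∈ pz z, (((Ps e H n z).filter (fun p : ℕ => (q : ℤ) ∣ (F i).eval (p : ℤ))).card : ℝ) ≤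
        (2 * K0 + 2) * D * X * (1 / ((q : ℝ) - 1)) + (D * (2 + 2 * B) + 1) * Q0 := by
      intro q hq
      have hqp := (mem_pz.1 hq).2
      have hq2 : (2 : ℝ) ≤ q := by exact_mod_cast hqp.two_le
      have key := small_prime e H K0 ((D + K0 : ℕ) : ℝ) (by exact_mod_cast (by have := hf.D1; omega : 1 ≤ D + K0))
        (by exact_mod_cast (by omega : K0 ≤ D + K0)) (F i) n z r DD q hH hNF hq m4 M hMaj (1 / L ^ U1) m3
      have hr : (rho (F i) q : ℝ) ≤ D := by exact_mod_cast hf.rho_le q hqp i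
      have hr0 : (0 : ℝ) ≤ rho (F i) q := Nat.cast_nonneg _
      have hq1 : 0 ≤ 1 / ((q : ℝ) - 1) := by apply div_nonneg zero_le_one; linarith
      have e1 : 2 * PI e n * (1 / L ^ U1) ≤ 2 * B * Q0 := by
        calc 2 * PI e n * (1 / L ^ U1) ≤ 2 * (B * N) * (1 / L ^ U1) := by gcongr
          _ = _ := by rw [hQ0]; ring
      have e2 : ∑ d ∈ Icc 1 DD, ((D + K0 : ℕ) : ℝ) ^ d.primeFactors.card * M d + (((D + K0 : ℕ) : ℝ) * ((z : ℝ) + 1)) ^ r + 2 * PI e n * (1 / L ^ U1) ≤ (2 + 2 * B) * Q0 := by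
        have := m1
        have := m2.trans hQ16
        linarith
      have e3 : 0 ≤ ∑ d ∈ Icc 1 DD, ((D + K0 : ℕ) : ℝ) ^ d.primeFactors.card * M d + (((D + K0 : ℕ) : ℝ) * ((z : ℝ) + 1)) ^ r + 2 * PI e n * (1 / L ^ U1) := by
        have h5 : 0 ≤ ∑ d ∈ Icc 1 DD, ((D + K0 : ℕ) : ℝ) ^ d.primeFactors.card * M d :=
          sum_nonneg fun d _ => mul_nonneg (by positivity) (hMaj.1 d)
        have := PI_nonneg e n
        positivity
      refine key.trans ?_
      calc (rho (F i) q : ℝ) * ((2 * K0 + 2) * X * (1 / ((q : ℝ) - 1)) +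
          (∑ d ∈ Icc 1 DD, ((D + K0 : ℕ) : ℝ) ^ d.primeFactors.card * M d + (((D + K0 : ℕ) : ℝ) * ((z : ℝ) + 1)) ^ r + 2 * PI e n * (1 / L ^ U1))) + 1
          ≤ D * ((2 * K0 + 2) * X * (1 / ((q : ℝ) - 1)) + (2 + 2 * B) * Q0) + Q0 := by
            apply add_le_add _ hQ1
            apply mul_le_mul hr _ (by positivity) (by linarith)
            linarith
        _ = _ := by ring
    calc _ ≤ ∑ q ∈ pz z, ((2 * K0 + 2) * D * X * (1 / ((q : ℝ) - 1)) + (D * (2 + 2 * B) + 1) * Q0) := sum_le_sum hterm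
      _ = (2 * K0 + 2) * D * X * ∑ q ∈ pz z, 1 / ((q : ℝ) - 1) + (pz z).card * ((D * (2 + 2 * B) + 1) * Q0) := by
          rw [sum_add_distrib, mul_sum, sum_const, nsmul_eq_mul]
      _ ≤ (2 * K0 + 2) * D * X * (C * (1 + Real.log lam)) + z * ((D * (2 + 2 * B) + 1) * Q0) := by
          apply add_le_add
          · exact mul_le_mul_of_nonneg_left c1 (by positivity)
          · apply mul_le_mul_of_nonneg_right _ (by positivity)
            exact_mod_cast card_pz_le z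
      _ = _ := by ring
  -- the large primes
  have large : ∀ i, ∑ p ∈ Ps e H n z, (cntP (F i) (PP (YN N) (Y8 N)) p : ℝ) ≤ D * C * (1 + Real.log lam) * X + Q0 := by
    intro i
    rw [sum_cntP]
    set P := PP (YN N) (Y8 N) with hP
    have hPz : ∀ q ∈ P, q.Prime ∧ z < q := fun q hq => ⟨(mem_PP.1 hq).2.2, lt_of_le_of_lt d3 (mem_PP.1 hq).1⟩
    have hY81 : 1 ≤ Y8 N := Nat.le_floor (by push_cast; exact Real.one_le_rpow hN1 (by norm_num))
    have hY8a : (Y8 N : ℝ) ≤ (N : ℝ) ^ (1 / 8 : ℝ) := Nat.floor_le (by positivity)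
    have hY8N : (Y8 N : ℝ) ≤ N := by
      refine hY8a.trans ?_
      calc (N : ℝ) ^ (1 / 8 : ℝ) ≤ (N : ℝ) ^ (1 : ℝ) := Real.rpow_le_rpow_of_exponent_le (by linarith) (by norm_num)
        _ = N := Real.rpow_one _
    obtain ⟨hDp, herr⟩ := hpar P 1 (Y8 N) hPz (by
      intro q hq
      have h := mem_PP.1 hq
      rw [mem_Icc]
      exact ⟨h.2.2.one_le, h.2.1⟩) hY81 (by push_cast; linarith) (by rw [pow_one]; exact hY8a) hY8N
    have herr' := herr (fun q => (rho (F i) q : ℝ)) (fun q hq => ⟨Nat.cast_nonneg _, by exact_mod_cast (hf.rho_le q (hPz q hq).1 i).trans (by omega)⟩)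
    rw [sum_range_succ, powersetCard_one, sum_map] at herr'
    simp only [Function.Embedding.coeFn_mk, prod_singleton] at herr'
    have herr0 : 0 ≤ ∑ x ∈ range 1, ∑ S ∈ P.powersetCard x, (∏ q ∈ S, (rho (F i) q : ℝ)) * Err e H K0 n z r M (∏ q ∈ S, q) := by
      apply sum_nonneg; intro x _
      apply sum_nonneg; intro S _
      exact mul_nonneg (prod_nonneg fun q _ => Nat.cast_nonneg _) (Err_nonneg e H K0 n z r _ M hMaj.1)
    have hterm : ∀ q ∈ P, (((Ps e H n z).filter (fun p : ℕ => (q : ℤ) ∣ (F i).eval (p : ℤ))).card : ℝ) ≤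
        D * X * (1 / ((q : ℝ) - 1)) + (rho (F i) q : ℝ) * Err e H K0 n z r M q := by
      intro q hq
      have hqp := (hPz q hq).1
      have hq2 : (2 : ℝ) ≤ q := by exact_mod_cast hqp.two_le
      have key := large_prime e H K0 (F i) R (fun he q hq hR => hf.zero he q hq hR i) n z r DD q hH hqp (hPz q hq).2
        (lt_of_le_of_lt hzR (hPz q hq).2) (by
          have := hDp {q} (singleton_subset_iff.2 hq) (by rw [card_singleton])
          rwa [prod_singleton] at this) M hMaj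
      refine key.trans ?_
      apply add_le_add _ le_rfl
      have hr : (rho (F i) q : ℝ) ≤ D := by exact_mod_cast hf.rho_le q hqp i
      calc X * ((rho (F i) q : ℝ) / ((q : ℝ) - 1)) ≤ X * (D / ((q : ℝ) - 1)) := by
            apply mul_le_mul_of_nonneg_left _ hX0
            apply div_le_div_of_nonneg_right hr
            linarith
        _ = _ := by ring
    calc _ ≤ ∑ q ∈ P, (D * X * (1 / ((q : ℝ) - 1)) + (rho (F i) q : ℝ) * Err e H K0 n z r M q) := sum_le_sum hterm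
      _ = D * X * ∑ q ∈ P, 1 / ((q : ℝ) - 1) + ∑ q ∈ P, (rho (F i) q : ℝ) * Err e H K0 n z r M q := by
          rw [sum_add_distrib, mul_sum]
      _ ≤ D * X * (C * (1 + Real.log lam)) + Q0 := by
          apply add_le_add
          · exact mul_le_mul_of_nonneg_left c2 (by positivity)
          · linarith
      _ = _ := by ring
  -- the sum over the polynomials
  unfold wf
  rw [sum_comm]
  have htot : ∀ i ∈ (univ : Finset (Fin k)), ∑ p ∈ Ps e H n z, ((cntP (F i) (pz z) p : ℝ) + (cntP (F i) (PP (YN N) (Y8 N)) p : ℝ)) ≤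
      (2 * K0 + 3) * D * C * (1 + Real.log lam) * X + (z * ((D * (2 + 2 * B) + 1) * Q0) + Q0) := by
    intro i _
    rw [sum_add_distrib]
    have := small i
    have := large i
    linarith
  refine (sum_le_sum htot).trans ?_
  rw [sum_const, card_univ, Fintype.card_fin, nsmul_eq_mul, mul_add]
  apply add_le_add
  · apply le_of_eq; ring
  · have hzQ : z * Q0 ≤ N / L ^ U / L := by
      calc z * Q0 ≤ L ^ E * Q0 := mul_le_mul_of_nonneg_right hzE hQ0pos.le
        _ = N / L ^ U / L := by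
            rw [hQ0, hU1, pow_succ, pow_add]
            field_simp
    have hQ0' : Q0 ≤ N / L ^ U / L := by
      refine le_trans ?_ hzQ
      exact le_mul_of_one_le_left hQ0pos.le (by exact_mod_cast (by omega : 1 ≤ z))
    have hS0 : 0 ≤ N / L ^ U := by positivity
    calc (k : ℝ) * (z * ((D * (2 + 2 * B) + 1) * Q0) + Q0) = (k * (D * (2 + 2 * B) + 1)) * (z * Q0) + k * Q0 := by ring
      _ ≤ (k * (D * (2 + 2 * B) + 1)) * (N / L ^ U / L) + k * (N / L ^ U / L) := by gcongr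
      _ = ((k * (D * (2 + 2 * B) + 1) + k) / L) * (N / L ^ U) := by ring
      _ ≤ 1 * (N / L ^ U) := by
          apply mul_le_mul_of_nonneg_right _ hS0
          rw [div_le_one hL0]
          linarith
      _ = _ := one_mul _

end Pool.Agent.K4H18.GV
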