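import Pool.Agent.K4H18.GV.G8
import Pool.Agent.K4H18.CH.H6

set_option autoImplicit false

/-! Lower bounds for the main term. -/

namespace Pool.Agent.K4H18.GV

open Finset Polynomial
open Pool.Agent.H373R2.T7 (pz mem_pz ev_L' Vz Vz_pos Vz_le_one)
open Pool.Agent.H474R2.PG (rho PR Sg)

lemma Wn_low (e : Bool) (K0 : ℕ) : ∃ (c : ℝ) (C : ℕ), 0 < c ∧ ∀ z : ℕ, 3 ≤ z → ∀ H : ℤ[X], (∀ q ∈ pz z, rho H q ≤ K0) →
    NF e H z → c / Real.log z ^ C ≤ Wn e H z := by
  obtain ⟨C, hC⟩ := Pool.Agent.Helper256.KM.mertens_inv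
  set q0 : ℕ := 4 * K0 + 4 with hq0
  set a0 : ℝ := 1 / (2 * K0 + 2) with ha0
  have hK00 : (0 : ℝ) ≤ K0 := Nat.cast_nonneg _
  have ha0p : 0 < a0 := by positivity
  have ha01 : a0 ≤ 1 := by
    rw [ha0, div_le_one (by positivity)]
    linarith
  refine ⟨a0 ^ q0 * Real.exp (-(4 * K0 * C)), 4 * K0, by positivity, fun z hz H hH hNF => ?_⟩
  have hz3 : (3 : ℝ) ≤ z := by exact_mod_cast hz
  have hlz : 0 < Real.log z := Real.log_pos (by linarith)
  have hfac : ∀ q ∈ pz z, (if q ≤ q0 then a0 else 1) * Real.exp (-(4 * K0) * (1 / (q : ℝ))) ≤ 1 - gd e H q := by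
    intro q hq
    have hqp := (mem_pz.1 hq).2
    have hq2 : (2 : ℝ) ≤ q := by exact_mod_cast hqp.two_le
    have hex : Real.exp (-(4 * K0) * (1 / (q : ℝ))) ≤ 1 := by
      apply Real.exp_le_one_iff.2
      have : 0 ≤ 4 * K0 * (1 / (q : ℝ)) := by positivity
      linarith
    split_ifs with hle
    · have h1 := gd_gap e H K0 q hqp (hH q hq) (hNF q hq)
      have h2 : a0 ≤ 1 - gd e H q := by
        rw [ha0, div_le_iff₀ (by positivity)]
        linarith
      calc a0 * Real.exp (-(4 * K0) * (1 / (q : ℝ))) ≤ a0 * 1 := mul_le_mul_of_nonneg_left hex ha0p.le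
        _ ≤ _ := by linarith
    · push Not at hle
      have h1 := gd_le' e H hqp K0 (hH q hq)
      set t : ℝ := 2 * K0 * (1 / (q : ℝ)) with ht
      have ht0 : 0 ≤ t := by positivity
      have ht1 : t ≤ 1 / 2 := by
        have h3 : (q0 : ℝ) ≤ q := by exact_mod_cast hle.le
        rw [hq0] at h3
        push_cast at h3
        rw [ht, mul_one_div, div_le_div_iff₀ (by linarith) (by norm_num)]
        linarith
      have h2 := Pool.Agent.K4H18.CH.exp_le_one_sub ht0 ht1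
      have h4 : gd e H q ≤ t := by
        refine h1.trans (le_of_eq ?_)
        rw [ht]
        push_cast
        ring
      rw [one_mul]
      calc Real.exp (-(4 * K0) * (1 / (q : ℝ))) ≤ Real.exp (-t - 2 * t ^ 2) := by
            apply Real.exp_le_exp.2
            have : -(4 * K0) * (1 / (q : ℝ)) = -2 * t := by rw [ht]; ring
            rw [this]
            nlinarith
        _ ≤ 1 - t := h2
        _ ≤ _ := by linarith
  have h1 : ∏ q ∈ pz z, ((if q ≤ q0 then a0 else 1) * Real.exp (-(4 * K0) * (1 / (q : ℝ)))) ≤ Wn e H z := by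
    unfold Wn
    apply Finset.prod_le_prod
    · intro q _
      split_ifs <;> positivity
    · exact hfac
  refine le_trans ?_ h1
  rw [prod_mul_distrib, ← Real.exp_sum, ← mul_sum]
  have h2 : a0 ^ q0 ≤ ∏ q ∈ pz z, (if q ≤ q0 then a0 else 1) := by
    rw [← prod_filter, prod_const]
    apply pow_le_pow_of_le_one ha0p.le ha01
    have h3 : (pz z).filter (fun q => q ≤ q0) ⊆ Icc 1 q0 := by
      intro q hq
      rw [mem_filter] at hq
      rw [mem_Icc]
      exact ⟨(mem_pz.1 hq.1).2.one_le, hq.2⟩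
    have h4 := card_le_card h3
    rwa [Nat.card_Icc, Nat.add_sub_cancel] at h4
  have h3 : Real.exp (-(4 * K0 * C)) / Real.log z ^ (4 * K0) ≤ Real.exp (-(4 * K0) * ∑ q ∈ pz z, 1 / (q : ℝ)) := by
    have h4 := (abs_le.1 (hC z hz)).2
    have h5 : ∑ q ∈ pz z, 1 / (q : ℝ) ≤ Real.log (Real.log z) + C := by
      change ∑ q ∈ (Icc 1 z).filter Nat.Prime, 1 / (q : ℝ) ≤ _
      linarith
    have h6 : Real.log z ^ (4 * K0) = Real.exp ((4 * K0 : ℕ) * Real.log (Real.log z)) := by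
      rw [Real.exp_nat_mul, Real.exp_log hlz]
    rw [h6, ← Real.exp_sub]
    apply Real.exp_le_exp.2
    push_cast
    have h7 := mul_le_mul_of_nonneg_left h5 (show (0 : ℝ) ≤ 4 * K0 by positivity)
    linarith
  calc a0 ^ q0 * Real.exp (-(4 * K0 * C)) / Real.log z ^ (4 * K0) =
        a0 ^ q0 * (Real.exp (-(4 * K0 * C)) / Real.log z ^ (4 * K0)) := by rw [mul_div_assoc]
    _ ≤ _ := mul_le_mul h2 h3 (by positivity) (prod_nonneg fun q _ => by split_ifs <;> positivity)

lemma PI_low (e : Bool) : ∃ N0 : ℕ, ∀ n : ℕ, N0 ≤ n → (n : ℝ) / (2 * Real.log n) ≤ PI e n := by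
  obtain ⟨N1, h1⟩ := ev_L' 1
  refine ⟨max N1 1000, fun n hn => ?_⟩
  have hL := h1 n (by omega)
  have hn0 : (1000 : ℝ) ≤ n := by exact_mod_cast (by omega : 1000 ≤ n)
  unfold PI
  split_ifs
  · rw [Pool.Agent.K4H18.EK.pi1_eq]
    have h2 := Chebyshev.pi_ge n
    refine le_trans ?_ h2
    have h3 : Real.log ((n : ℝ) + 1) ≤ 0.1 * n := by
      have h4 : Real.log ((n : ℝ) + 1) = 2 * Real.log (√((n : ℝ) + 1)) := by
        rw [Real.log_sqrt (by linarith)]
        ring
      have h5 := Real.log_le_sub_one_of_pos (show 0 < √((n : ℝ) + 1) by positivity)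
      have h6 : √((n : ℝ) + 1) ≤ 0.05 * n := by
        apply Real.sqrt_le_iff.2
        constructor
        · positivity
        · nlinarith
      rw [h4]
      linarith
    have h4 := Real.log_two_gt_d9
    rw [show (n : ℝ) / (2 * Real.log n) = (n / 2) / Real.log n by field_simp]
    apply div_le_div_of_nonneg_right _ (by linarith)
    nlinarith
  · rw [div_le_iff₀ (by linarith)]
    nlinarith

lemma ev_logz (E C : ℕ) (A : ℝ) : ∃ N0 : ℕ, ∀ N : ℕ, N0 ≤ N → ∀ z : ℕ, 3 ≤ z → (z : ℝ) ≤ Real.log N ^ E →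
    A * Real.log z ^ C ≤ Real.log N := by
  have h1 : (fun x : ℝ => Real.log x ^ C) =o[Filter.atTop] id := Real.isLittleO_pow_log_id_atTop
  have h2 := h1.bound (c := 1 / (|A| * E ^ C + 1)) (by positivity)
  have h3 : Filter.Tendsto (fun N : ℕ => Real.log (N : ℝ)) Filter.atTop Filter.atTop :=
    Real.tendsto_log_atTop.comp (tendsto_natCast_atTop_atTop (R := ℝ))
  obtain ⟨N1, h4⟩ := Filter.eventually_atTop.1 (h3.eventually h2)
  obtain ⟨N2, h5⟩ := ev_L' 3
  refine ⟨max N1 N2, fun N hN z hz hzE => ?_⟩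
  have a1 := h4 N (by omega)
  have a2 := h5 N (by omega)
  set L := Real.log N with hL
  have hL0 : 0 < L := by linarith
  have hlL : 0 ≤ Real.log L := Real.log_nonneg (by linarith)
  simp only [id] at a1
  rw [Real.norm_of_nonneg (by positivity), Real.norm_of_nonneg hL0.le] at a1
  have hz3 : (3 : ℝ) ≤ z := by exact_mod_cast hz
  have hlz : 0 ≤ Real.log z := Real.log_nonneg (by linarith)
  have h6 : Real.log z ≤ E * Real.log L := by
    have := Real.log_le_log (by linarith) hzE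
    rwa [Real.log_pow] at this
  have h7 : Real.log z ^ C ≤ E ^ C * Real.log L ^ C := by
    rw [← mul_pow]
    exact pow_le_pow_left₀ hlz h6 C
  rw [div_mul_eq_mul_div, one_mul, le_div_iff₀ (by positivity)] at a1
  calc A * Real.log z ^ C ≤ |A| * Real.log z ^ C := mul_le_mul_of_nonneg_right (le_abs_self A) (by positivity)
    _ ≤ |A| * (E ^ C * Real.log L ^ C) := mul_le_mul_of_nonneg_left h7 (abs_nonneg A)
    _ = Real.log L ^ C * (|A| * E ^ C) := by ring
    _ ≤ Real.log L ^ C * (|A| * E ^ C + 1) := by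
        apply mul_le_mul_of_nonneg_left (by linarith) (by positivity)
    _ ≤ L := a1

/-- the main term -/
noncomputable def Xn (e : Bool) (H : ℤ[X]) (n z : ℕ) : ℝ := (Vz z)⁻¹ * (PI e n * Wn e H z)

lemma Xn_nonneg (e : Bool) (H : ℤ[X]) (n z : ℕ) : 0 ≤ Xn e H n z := by
  unfold Xn
  have h1 := PI_nonneg e n
  have h2 := Wn_nonneg e H z
  have h3 := (inv_pos.2 (Vz_pos z)).le
  positivity

/-- the main term is not small -/
lemma Xn_low (e : Bool) (K0 E : ℕ) : ∃ N0 : ℕ, ∀ N : ℕ, N0 ≤ N → ∀ z : ℕ, 3 ≤ z → (z : ℝ) ≤ Real.log N ^ E →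
    ∀ n : ℕ, (N : ℝ) / Real.log N ^ 1 ≤ n → n ≤ 1 * N → ∀ H : ℤ[X], (∀ q ∈ pz z, rho H q ≤ K0) → NF e H z →
    (N : ℝ) / Real.log N ^ 4 ≤ Xn e H n z := by
  obtain ⟨c, C, hc, hW⟩ := Wn_low e K0
  obtain ⟨N1, h1⟩ := PI_low e
  obtain ⟨N2, h2⟩ := ev_logz E C (2 / c)
  obtain ⟨N3, h3⟩ := Pool.Agent.K4H18.EK.sizes 1 1
  obtain ⟨N4, h4⟩ := ev_L' 3
  refine ⟨max (max (N1 ^ 2) N2) (max (max N3 N4) 3), fun N hN z hz hzE n hn hnB H hH hNF => ?_⟩
  have hN3 : (3 : ℝ) ≤ N := by exact_mod_cast (by omega : 3 ≤ N)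
  have hN0 : (0 : ℝ) < N := by linarith
  obtain ⟨s1, s2, s3⟩ := h3 N (by omega) n hn hnB
  have a2 := h2 N (by omega) z hz hzE
  have a4 := h4 N (by omega)
  have hN1n : N1 ≤ n := by
    have h5 : (N1 : ℝ) ≤ √(N : ℝ) := by
      apply Real.le_sqrt_of_sq_le
      exact_mod_cast (by omega : N1 ^ 2 ≤ N)
    have h6 : √(N : ℝ) ≤ (N : ℝ) ^ (7 / 8 : ℝ) := by
      rw [Real.sqrt_eq_rpow]
      exact Real.rpow_le_rpow_of_exponent_le (by linarith) (by norm_num)
    have h7 : (N1 : ℝ) ≤ n := h5.trans (h6.trans s1)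
    exact_mod_cast h7
  have a1 := h1 n hN1n
  set L := Real.log N with hL
  have hL0 : 0 < L := by linarith
  have hz3 : (3 : ℝ) ≤ z := by exact_mod_cast hz
  have hlz : 0 < Real.log z := Real.log_pos (by linarith)
  have hlogn : 0 < Real.log n := by linarith
  have hnL : Real.log n ≤ L := by
    rw [one_mul] at hnB
    apply Real.log_le_log
    · exact lt_of_lt_of_le (by positivity) s1
    · exact_mod_cast hnB
  have hPI : (N : ℝ) / (2 * L ^ 2) ≤ PI e n := by
    refine le_trans ?_ a1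
    calc (N : ℝ) / (2 * L ^ 2) = (N / L ^ 1) / (2 * L) := by rw [pow_one]; field_simp
      _ ≤ n / (2 * Real.log n) := by
          apply div_le_div₀ (by positivity) hn (by positivity) (by linarith)
  have hWn := hW z hz H hH hNF
  have hWn2 : 2 / L ≤ Wn e H z := by
    refine le_trans ?_ hWn
    rw [div_le_div_iff₀ hL0 (by positivity)]
    rw [div_mul_eq_mul_div, div_le_iff₀ hc] at a2
    linarith
  have hV : 1 ≤ (Vz z)⁻¹ := by
    rw [one_le_inv₀ (Vz_pos z)]
    exact Vz_le_one z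
  unfold Xn
  calc (N : ℝ) / L ^ 4 ≤ 1 * ((N : ℝ) / (2 * L ^ 2) * (2 / L)) := by
        rw [one_mul, div_mul_div_comm, div_le_div_iff₀ (by positivity) (by positivity)]
        have : (N : ℝ) * (2 * L ^ 2 * L) = (N * 2) * L ^ 3 := by ring
        rw [this]
        apply mul_le_mul_of_nonneg_left _ (by positivity)
        exact pow_le_pow_right₀ (by linarith) (by norm_num)
    _ ≤ _ := by
        apply mul_le_mul hV _ (by positivity) (by linarith)
        exact mul_le_mul hPI hWn2 (by positivity) (PI_nonneg e n)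

end Pool.Agent.K4H18.GV
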